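import Pool.Agent.L5helper32.GP.Defs

/-!
# The digits of independent random profinite integers

The digits in the prime bases of independent random profinite integers are independent and uniform.
-/

set_option autoImplicit false

open Finset MeasureTheory ProbabilityTheory

namespace Pool.Agent.L5helper32.GP.Digit

/-! ### Digits of numbers -/

theorem sum_lt {r : ℕ} {t : ℕ → ℕ} {K : ℕ} (ht : ∀ k < K, t k < r) :
    ∑ k ∈ range K, t k * r ^ k < r ^ K := by
  induction K with
  | zero => simp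
  | succ K ih =>
    rw [Finset.sum_range_succ]
    have h1 := ih fun k hk => ht k (hk.trans (Nat.lt_succ_self K))
    have h2 : t K + 1 ≤ r := ht K (Nat.lt_succ_self K)
    calc ∑ k ∈ range K, t k * r ^ k + t K * r ^ K < r ^ K + t K * r ^ K := by omega
      _ = (t K + 1) * r ^ K := by ring
      _ ≤ r * r ^ K := Nat.mul_le_mul_right _ h2
      _ = r ^ (K + 1) := by ring

theorem mod_succ_div {r : ℕ} (hr : 0 < r) (x k : ℕ) : x % r ^ (k + 1) / r ^ k = x / r ^ k % r := by
  have hk : 0 < r ^ k := pow_pos hr k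
  rw [Nat.mod_pow_succ, Nat.add_mul_div_left _ _ hk, Nat.div_eq_of_lt (Nat.mod_lt _ hk), zero_add]

theorem digits_iff {r : ℕ} (hr : 0 < r) {t : ℕ → ℕ} {K : ℕ} (ht : ∀ k < K, t k < r) (x : ℕ) :
    (∀ k < K, x % r ^ (k + 1) / r ^ k = t k) ↔ x % r ^ K = ∑ k ∈ range K, t k * r ^ k := by
  induction K with
  | zero => simp [Nat.mod_one]
  | succ K ih =>
    have ih' := ih fun k hk => ht k (hk.trans (Nat.lt_succ_self K))
    have hK : 0 < r ^ K := pow_pos hr K
    have hs := sum_lt fun k hk => ht k (Nat.lt_trans hk (Nat.lt_succ_self K))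
    rw [Finset.sum_range_succ, Nat.mod_pow_succ]
    constructor
    · intro h
      have h1 := ih'.1 fun k hk => h k (Nat.lt_trans hk (Nat.lt_succ_self K))
      have h2 := h K (Nat.lt_succ_self K)
      rw [mod_succ_div hr] at h2
      rw [h1, h2, mul_comm]
    · intro h
      have h1 : x % r ^ K = ∑ k ∈ range K, t k * r ^ k := by
        have h3 : (x % r ^ K + r ^ K * (x / r ^ K % r)) % r ^ K =
            (∑ k ∈ range K, t k * r ^ k + t K * r ^ K) % r ^ K := by rw [h]
        rw [Nat.add_mul_mod_self_left, Nat.mod_mod, mul_comm (t K), Nat.add_mul_mod_self_left,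
          Nat.mod_eq_of_lt hs] at h3
        exact h3
      have h2 : x / r ^ K % r = t K := by
        rw [h1, mul_comm (t K)] at h
        exact Nat.eq_of_mul_eq_mul_left hK (Nat.add_left_cancel h)
      intro k hk
      rcases Nat.lt_succ_iff_lt_or_eq.1 hk with h3 | h3
      · exact ih'.2 h1 k h3
      · rw [h3, mod_succ_div hr]
        exact h2

/-! ### One level -/

variable {Ω : Type} [MeasurableSpace Ω] {μ : Measure Ω} {U : ℕ → ℕ → Ω → ℕ}

theorem U_lt (h : Prof μ U) (c : ℕ) {m : ℕ} (hm : 0 < m) (ω : Ω) : U c m ω < m := by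
  rw [h.compat c m m hm dvd_rfl ω]
  exact Nat.mod_lt _ hm

/-- The digit. -/
def dg (U : ℕ → ℕ → Ω → ℕ) (c r k : ℕ) (ω : Ω) : ℕ :=
  if r.Prime then U c (r ^ (k + 1)) ω / r ^ k else 0

theorem dg_lt (h : Prof μ U) (c : ℕ) {r : ℕ} (hr : r.Prime) (k : ℕ) (ω : Ω) :
    dg U c r k ω < r := by
  rw [dg, if_pos hr, Nat.div_lt_iff_lt_mul (pow_pos hr.pos k), mul_comm, ← pow_succ]
  exact U_lt h c (pow_pos hr.pos _) ω

theorem dg_meas (h : Prof μ U) (c r k : ℕ) : Measurable (dg U c r k) := by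
  unfold dg
  by_cases hr : r.Prime
  · simp only [if_pos hr]
    exact (measurable_from_top (f := fun x : ℕ => x / r ^ k)).comp (h.meas c (r ^ (k + 1)))
  · simp only [if_neg hr]
    exact measurable_const

theorem prob_dg [IsProbabilityMeasure μ] (h : Prof μ U) (c : ℕ) {r : ℕ} (hr : r.Prime) (k : ℕ)
    {t : ℕ} (ht : t < r) : μ.real {ω | dg U c r k ω = t} = 1 / r := by
  have hk : 0 < r ^ k := pow_pos hr.pos k
  have h1 : {ω | dg U c r k ω = t} =
      ⋃ j ∈ range (r ^ k), {ω | U c (r ^ (k + 1)) ω = t * r ^ k + j} := by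
    ext ω
    simp only [Set.mem_ofPred_eq, Set.mem_iUnion, Finset.mem_range, exists_prop, dg, if_pos hr]
    constructor
    · intro h2
      refine ⟨U c (r ^ (k + 1)) ω % r ^ k, Nat.mod_lt _ hk, ?_⟩
      rw [← h2]
      exact (Nat.div_add_mod' _ _).symm
    · rintro ⟨j, hj, h2⟩
      rw [h2, Nat.add_div_of_dvd_right (Dvd.intro_left _ rfl), Nat.mul_div_cancel _ hk,
        Nat.div_eq_of_lt hj, add_zero]
  have h3 : ∀ j < r ^ k, t * r ^ k + j < r ^ (k + 1) := by
    intro j hj
    calc t * r ^ k + j < t * r ^ k + r ^ k := by omega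
      _ = (t + 1) * r ^ k := by ring
      _ ≤ r * r ^ k := Nat.mul_le_mul_right _ ht
      _ = r ^ (k + 1) := by ring
  rw [h1, measureReal_biUnion_finset]
  · rw [Finset.sum_congr rfl fun j hj =>
      h.unif c (r ^ (k + 1)) (pow_pos hr.pos _) _ (h3 j (Finset.mem_range.1 hj))]
    rw [Finset.sum_const, Finset.card_range, nsmul_eq_mul]
    have hr0 : (r : ℝ) ≠ 0 := by exact_mod_cast hr.pos.ne'
    push_cast
    field_simp
    ring
  · intro a _ b _ hab
    refine Set.disjoint_left.2 fun ω ha hb => hab ?_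
    have ha' : U c (r ^ (k + 1)) ω = t * r ^ k + a := ha
    have hb' : U c (r ^ (k + 1)) ω = t * r ^ k + b := hb
    omega
  · intro j _
    exact h.meas c _ (measurableSet_singleton _)

/-- All digits at one level. -/
theorem prob_level [IsProbabilityMeasure μ] (h : Prof μ U) (c : ℕ) (R : Finset ℕ)
    (hR : ∀ r ∈ R, r.Prime) (K : ℕ) (t : ℕ → ℕ → ℕ) (ht : ∀ r ∈ R, ∀ k < K, t r k < r) :
    μ.real {ω | ∀ r ∈ R, ∀ k < K, dg U c r k ω = t r k} = ∏ r ∈ R, (1 / (r : ℝ) ^ K) := by
  set M : ℕ := ∏ r ∈ R, r ^ K with hM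
  have hM0 : 0 < M := Finset.prod_pos fun r hr => pow_pos (hR r hr).pos K
  have hco : Set.Pairwise (R : Set ℕ) (Function.onFun Nat.Coprime fun r => r ^ K) := by
    intro a ha b hb hab
    exact Nat.Coprime.pow _ _ ((Nat.coprime_primes (hR a ha) (hR b hb)).2 hab)
  set a : ℕ → ℕ := fun r => ∑ k ∈ range K, t r k * r ^ k with ha
  obtain ⟨n, hn⟩ := Nat.chineseRemainderOfFinset a (fun r => r ^ K) R
    (fun r hr => (pow_pos (hR r hr).pos K).ne') hco
  have hset : {ω | ∀ r ∈ R, ∀ k < K, dg U c r k ω = t r k} = {ω | U c M ω = n % M} := by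
    ext ω
    have hx : U c M ω < M := U_lt h c hM0 ω
    have h1 : ∀ r ∈ R, (∀ k < K, dg U c r k ω = t r k) ↔ U c M ω ≡ n [MOD r ^ K] := by
      intro r hr
      have hrK : 0 < r ^ K := pow_pos (hR r hr).pos K
      have h2 : ∀ k < K, dg U c r k ω = U c M ω % r ^ (k + 1) / r ^ k := by
        intro k hk
        rw [dg, if_pos (hR r hr), h.compat c (r ^ (k + 1)) M hM0
          ((pow_dvd_pow r hk).trans (Finset.dvd_prod_of_mem (fun r => r ^ K) hr)) ω]
      have h3 : (∀ k < K, dg U c r k ω = t r k) ↔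
          ∀ k < K, U c M ω % r ^ (k + 1) / r ^ k = t r k :=
        forall₂_congr fun k hk => by rw [h2 k hk]
      rw [h3, digits_iff (hR r hr).pos (ht r hr)]
      have h4 : a r < r ^ K := sum_lt (ht r hr)
      have h5 : n % r ^ K = a r := by
        have := hn r hr
        rw [Nat.ModEq, Nat.mod_eq_of_lt h4] at this
        exact this
      rw [Nat.ModEq, h5]
    have h6 : (∀ r ∈ R, ∀ k < K, dg U c r k ω = t r k) ↔ U c M ω ≡ n [MOD M] := by
      constructor
      · intro h7
        rw [Nat.modEq_iff_dvd]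
        have h8 : ∀ r ∈ R, ((r ^ K : ℕ) : ℤ) ∣ (n : ℤ) - (U c M ω : ℤ) := fun r hr =>
          (Nat.modEq_iff_dvd).1 ((h1 r hr).1 (h7 r hr))
        have h9 := Finset.prod_dvd_of_coprime (s := fun r : ℕ => ((r ^ K : ℕ) : ℤ)) (t := R)
          (z := (n : ℤ) - (U c M ω : ℤ)) ?_ h8
        · rw [hM]
          push_cast
          push_cast at h9
          exact h9
        · intro a ha b hb hab
          exact Nat.isCoprime_iff_coprime.2 (hco ha hb hab)
      · intro h7 r hr
        exact (h1 r hr).2 (h7.of_dvd (Finset.dvd_prod_of_mem (fun r => r ^ K) hr))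
    show (∀ r ∈ R, ∀ k < K, dg U c r k ω = t r k) ↔ U c M ω = n % M
    rw [h6, Nat.ModEq, Nat.mod_eq_of_lt hx]
  rw [hset, h.unif c M hM0 _ (Nat.mod_lt _ hM0), hM]
  push_cast
  rw [Finset.prod_div_distrib, Finset.prod_const_one]

/-- The digits at one level, in a box, with arbitrary values. -/
theorem prob_box [IsProbabilityMeasure μ] (h : Prof μ U) (c : ℕ) (R : Finset ℕ) (K : ℕ)
    (t : ℕ → ℕ → ℕ) :
    μ {ω | ∀ r ∈ R, ∀ k < K, dg U c r k ω = t r k} =
      ∏ r ∈ R, ∏ k ∈ range K, μ {ω | dg U c r k ω = t r k} := by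
  by_cases hall : ∀ r ∈ R, ∀ k < K, (r.Prime → t r k < r) ∧ (¬ r.Prime → t r k = 0)
  · -- all values are possible
    have hnp : ∀ r ∈ R, ¬ r.Prime → ∀ k < K, {ω | dg U c r k ω = t r k} = Set.univ := by
      intro r hr hr' k hk
      ext ω
      simp [dg, if_neg hr', (hall r hr k hk).2 hr']
    have hL : {ω | ∀ r ∈ R, ∀ k < K, dg U c r k ω = t r k} =
        {ω | ∀ r ∈ R.filter Nat.Prime, ∀ k < K, dg U c r k ω = t r k} := by
      ext ω
      refine ⟨fun h1 r hr => h1 r (Finset.mem_of_mem_filter r hr), fun h1 r hr k hk => ?_⟩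
      by_cases hr' : r.Prime
      · exact h1 r (Finset.mem_filter.2 ⟨hr, hr'⟩) k hk
      · have : ω ∈ {ω | dg U c r k ω = t r k} := by
          rw [hnp r hr hr' k hk]
          exact Set.mem_univ _
        exact this
    have hR : ∏ r ∈ R, ∏ k ∈ range K, μ {ω | dg U c r k ω = t r k} =
        ∏ r ∈ R.filter Nat.Prime, ∏ k ∈ range K, μ {ω | dg U c r k ω = t r k} := by
      refine (Finset.prod_subset (Finset.filter_subset _ _) ?_).symm
      intro r hr hr'
      have hr'' : ¬ r.Prime := fun h1 => hr' (Finset.mem_filter.2 ⟨hr, h1⟩)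
      refine Finset.prod_eq_one fun k hk => ?_
      rw [hnp r hr hr'' k (Finset.mem_range.1 hk), measure_univ]
    rw [hL, hR]
    have h1 := prob_level h c (R.filter Nat.Prime) (fun r hr => (Finset.mem_filter.1 hr).2) K t
      (fun r hr k hk => (hall r (Finset.mem_of_mem_filter r hr) k hk).1
        (Finset.mem_filter.1 hr).2)
    have h2 : ∏ r ∈ R.filter Nat.Prime, ∏ k ∈ range K, μ.real {ω | dg U c r k ω = t r k} =
        ∏ r ∈ R.filter Nat.Prime, (1 / (r : ℝ) ^ K) := by
      refine Finset.prod_congr rfl fun r hr => ?_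
      have hr1 := (Finset.mem_filter.1 hr).2
      rw [Finset.prod_congr rfl fun k hk => prob_dg h c hr1 k
        ((hall r (Finset.mem_of_mem_filter r hr) k (Finset.mem_range.1 hk)).1 hr1)]
      rw [Finset.prod_const, Finset.card_range, one_div_pow]
    have h3 : (μ {ω | ∀ r ∈ R.filter Nat.Prime, ∀ k < K, dg U c r k ω = t r k}).toReal =
        (∏ r ∈ R.filter Nat.Prime, ∏ k ∈ range K, μ {ω | dg U c r k ω = t r k}).toReal := by
      rw [ENNReal.toReal_prod]
      simp only [ENNReal.toReal_prod]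
      exact h1.trans h2.symm
    refine (ENNReal.toReal_eq_toReal_iff' (measure_ne_top μ _) ?_).1 h3
    exact ENNReal.prod_ne_top fun r _ => ENNReal.prod_ne_top fun k _ => measure_ne_top μ _
  · -- some value is impossible
    push Not at hall
    obtain ⟨r, hr, k, hk, h1⟩ := hall
    have h2 : {ω | dg U c r k ω = t r k} = ∅ := by
      ext ω
      simp only [Set.mem_ofPred_eq, Set.mem_empty_iff_false, iff_false]
      intro h3
      by_cases hr' : r.Prime
      · have h4 := dg_lt h c hr' k ω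
        rw [h3] at h4
        exact (h1 fun _ => h4).1 hr'
      · have h4 := (h1 fun h5 => absurd h5 hr').2
        rw [← h3, dg, if_neg hr'] at h4
        exact h4 rfl
    have h3 : {ω | ∀ r ∈ R, ∀ k < K, dg U c r k ω = t r k} = ∅ := by
      refine Set.subset_eq_empty (fun ω hω => ?_) h2
      exact hω r hr k hk
    rw [h3, measure_empty]
    symm
    refine Finset.prod_eq_zero hr (Finset.prod_eq_zero (Finset.mem_range.2 hk) ?_)
    rw [h2, measure_empty]

/-! ### All levels -/

theorem iIndep_dg [IsProbabilityMeasure μ] (h : Prof μ U) :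
    iIndepFun (fun (i : ℕ × ℕ × ℕ) ω => dg U i.1 i.2.1 i.2.2 ω) μ := by
  -- boxes
  have hbox : ∀ C R : Finset ℕ, ∀ K : ℕ, ∀ t : ℕ × ℕ × ℕ → ℕ,
      μ {ω | ∀ i ∈ C ×ˢ R ×ˢ range K, dg U i.1 i.2.1 i.2.2 ω = t i} =
        ∏ i ∈ C ×ˢ R ×ˢ range K, μ {ω | dg U i.1 i.2.1 i.2.2 ω = t i} := by
    intro C R K t
    have h1 : {ω | ∀ i ∈ C ×ˢ R ×ˢ range K, dg U i.1 i.2.1 i.2.2 ω = t i} =
        ⋂ c ∈ C, {ω | ∀ r ∈ R, ∀ k < K, dg U c r k ω = t (c, r, k)} := by
      ext ω
      simp only [Set.mem_ofPred_eq, Set.mem_iInter, Finset.mem_product, Finset.mem_range]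
      constructor
      · intro h2 c hc r hr k hk
        exact h2 (c, r, k) ⟨hc, hr, hk⟩
      · rintro h2 ⟨c, r, k⟩ ⟨hc, hr, hk⟩
        exact h2 c hc r hr k hk
    rw [h1, h.indep.meas_biInter, Finset.prod_product]
    · refine Finset.prod_congr rfl fun c _ => ?_
      rw [prob_box h c R K fun r k => t (c, r, k), Finset.prod_product]
    · intro c _
      refine ⟨{u : ℕ → ℕ | ∀ r ∈ R, ∀ k < K,
        (if r.Prime then u (r ^ (k + 1)) / r ^ k else 0) = t (c, r, k)}, ?_, rfl⟩
      have hset : {u : ℕ → ℕ | ∀ r ∈ R, ∀ k < K,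
          (if r.Prime then u (r ^ (k + 1)) / r ^ k else 0) = t (c, r, k)} =
          ⋂ r ∈ R, ⋂ k ∈ Set.Iio K, {u : ℕ → ℕ |
            (if r.Prime then u (r ^ (k + 1)) / r ^ k else 0) = t (c, r, k)} := by
        ext u
        simp
      rw [hset]
      refine MeasurableSet.biInter (Finset.countable_toSet R) fun r _ => ?_
      refine MeasurableSet.biInter (Set.to_countable _) fun k _ => ?_
      have hm : Measurable fun u : ℕ → ℕ =>
          (if r.Prime then u (r ^ (k + 1)) / r ^ k else 0) := by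
        by_cases hr : r.Prime
        · simp only [if_pos hr]
          exact (measurable_from_top (f := fun x : ℕ => x / r ^ k)).comp
            (measurable_pi_apply (r ^ (k + 1)))
        · simp only [if_neg hr]
          exact measurable_const
      exact hm (measurableSet_singleton _)
  have hBi : ∀ C R : Finset ℕ, ∀ K : ℕ,
      iIndepFun (fun (i : (C ×ˢ R ×ˢ range K : Finset (ℕ × ℕ × ℕ))) ω =>
        dg U i.1.1 i.1.2.1 i.1.2.2 ω) μ := by
    intro C R K
    rw [iIndepFun_iff_map_fun_eq_pi_map fun i => (dg_meas h _ _ _).aemeasurable]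
    refine Measure.ext_of_singleton fun t => ?_
    classical
    rw [Measure.pi_singleton, Measure.map_apply (measurable_pi_lambda _ fun i => dg_meas h _ _ _)
      (measurableSet_singleton t)]
    have h2 := hbox C R K fun i => if hi : i ∈ C ×ˢ R ×ˢ range K then t ⟨i, hi⟩ else 0
    have h3 : (fun ω (i : (C ×ˢ R ×ˢ range K : Finset (ℕ × ℕ × ℕ))) =>
        dg U i.1.1 i.1.2.1 i.1.2.2 ω) ⁻¹' {t} =
        {ω | ∀ i ∈ C ×ˢ R ×ˢ range K, dg U i.1 i.2.1 i.2.2 ω =
          if hi : i ∈ C ×ˢ R ×ˢ range K then t ⟨i, hi⟩ else 0} := by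
      ext ω
      simp only [Set.mem_preimage, Set.mem_singleton_iff, Set.mem_ofPred_eq]
      constructor
      · intro h4 i hi
        rw [dif_pos hi, ← h4]
      · intro h4
        funext i
        rw [h4 i.1 i.2, dif_pos i.2]
    rw [h3, h2, ← Finset.prod_coe_sort]
    refine Finset.prod_congr rfl fun i _ => ?_
    rw [Measure.map_apply (dg_meas h _ _ _) (measurableSet_singleton _), dif_pos i.2]
    rfl
  rw [iIndepFun_iff_finset]
  intro s
  set C : Finset ℕ := s.image fun i => i.1 with hC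
  set R : Finset ℕ := s.image fun i => i.2.1 with hR
  set K : ℕ := (s.sup fun i => i.2.2) + 1 with hK
  have hsub : ∀ i ∈ s, i ∈ C ×ˢ R ×ˢ range K := by
    intro i hi
    rw [Finset.mem_product, Finset.mem_product, Finset.mem_range]
    exact ⟨Finset.mem_image_of_mem (fun i : ℕ × ℕ × ℕ => i.1) hi,
      Finset.mem_image_of_mem (fun i : ℕ × ℕ × ℕ => i.2.1) hi,
      Nat.lt_succ_of_le (Finset.le_sup (f := fun i : ℕ × ℕ × ℕ => i.2.2) hi)⟩
  have h4 := (hBi C R K).precomp (g := fun i : s => (⟨i.1, hsub i.1 i.2⟩ :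
    (C ×ˢ R ×ˢ range K : Finset (ℕ × ℕ × ℕ)))) (fun a b hab => by
      apply Subtype.ext
      exact congrArg (fun x : (C ×ˢ R ×ˢ range K : Finset (ℕ × ℕ × ℕ)) => x.1) hab)
  exact h4

/-- The digits are independent and uniform. -/
theorem digit_res_of [IsProbabilityMeasure μ] (h : Prof μ U) (D : ℕ × ℕ × ℕ → Ω → ℕ)
    (hD : ∀ i ω, D i ω = if i.2.1.Prime then U i.1 (i.2.1 ^ (i.2.2 + 1)) ω / i.2.1 ^ i.2.2 else 0) :
    Res μ D := by
  have hD' : D = fun (i : ℕ × ℕ × ℕ) ω => dg U i.1 i.2.1 i.2.2 ω := by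
    funext i ω
    exact hD i ω
  subst hD'
  exact ⟨fun i => dg_meas h _ _ _, iIndep_dg h, fun c r k hr t ht => prob_dg h c hr k ht⟩

end Pool.Agent.L5helper32.GP.Digit
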