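import Pool.Agent.L5helper32.GR.Defs

/-!
# The potential and the arithmetic of the levels (for helper32, GS8)
-/

set_option autoImplicit false

open Finset MeasureTheory ProbabilityTheory

namespace Pool.Agent.L5helper32.GR

private theorem loglog_anti83 {a b : ℝ} (ha : 16 ≤ a) (hab : a ≤ b) :
    Real.log (Real.log b) / Real.log b ≤ Real.log (Real.log a) / Real.log a := by
  have he : Real.exp 1 < 2.7182818286 := Real.exp_one_lt_d9
  have h16 : Real.exp 1 ≤ Real.log a := by
    have h1 : Real.log 16 ≤ Real.log a := Real.log_le_log (by norm_num) ha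
    have h2 : Real.log 16 = 4 * Real.log 2 := by
      rw [show (16 : ℝ) = 2 ^ (4 : ℕ) by norm_num, Real.log_pow]; norm_num
    have h3 : 0.6931471803 < Real.log 2 := Real.log_two_gt_d9
    linarith
  have hb : Real.log a ≤ Real.log b := Real.log_le_log (by linarith) hab
  exact Real.log_div_self_antitoneOn h16 (h16.trans hb) hb

/-- The potential. -/
theorem psi_bound {p : ℕ} (hp : 2 ≤ p) : ∃ z₂ : ℕ, ∀ z ≥ z₂, ∀ z' : ℕ, lev p z ≤ 4 * z' →
    Real.log (Real.log z) / Real.log z + 4 * (Real.log (Real.log z') / Real.log z')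
      ≤ 4 * (Real.log (Real.log z) / Real.log z) := by
  refine ⟨⌈Real.exp (Real.exp 4)⌉₊, ?_⟩
  intro z hz z' hz'
  have hz1 : Real.exp (Real.exp 4) ≤ (z : ℝ) := (Nat.le_ceil _).trans (by exact_mod_cast hz)
  have h4 : (5 : ℝ) ≤ Real.exp 4 := by
    have := Real.add_one_le_exp (4 : ℝ)
    linarith
  have h5 : (8 : ℝ) ≤ Real.exp (Real.exp 4) := by
    have h6 := Real.add_one_le_exp (Real.exp 4)
    have h7 : (8 : ℝ) ≤ Real.exp 4 := by
      have h8 : Real.exp 4 = Real.exp 2 * Real.exp 2 := by rw [← Real.exp_add]; norm_num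
      have h9 := Real.add_one_le_exp (2 : ℝ)
      rw [h8]
      nlinarith
    linarith
  have hz8 : (8 : ℝ) ≤ z := h5.trans hz1
  set L := Real.log (z : ℝ) with hL
  have hL4 : Real.exp 4 ≤ L := by
    rw [hL, Real.le_log_iff_exp_le (by linarith)]
    exact hz1
  have hLpos : 0 < L := by linarith
  set l := Real.log L with hl
  have hl4 : 4 ≤ l := by
    rw [hl, Real.le_log_iff_exp_le hLpos]
    exact hL4
  have hlL : l ≤ L := by
    have := Real.log_le_sub_one_of_pos hLpos
    linarith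
  set a : ℝ := (z : ℝ) ^ 2 / 4 with ha
  have ha16 : 16 ≤ a := by
    rw [ha]
    nlinarith
  have haz : a ≤ (z' : ℝ) := by
    have h1 : (z + 1) ^ 2 ≤ (z + 1) ^ p := Nat.pow_le_pow_right (by omega) hp
    have h2 : z ^ 2 ≤ 4 * z' := by
      have h3 : z ^ 2 ≤ (z + 1) ^ 2 := Nat.pow_le_pow_left (by omega) 2
      have h4 : lev p z = (z + 1) ^ p + z := rfl
      omega
    have h3 : (z : ℝ) ^ 2 ≤ 4 * z' := by exact_mod_cast h2
    rw [ha]
    linarith
  have h1 := loglog_anti83 ha16 haz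
  have hloga : Real.log a = 2 * L - Real.log 4 := by
    rw [ha, Real.log_div (by positivity) (by norm_num), Real.log_pow, hL]
    push_cast
    ring
  have hlog4 : Real.log 4 = 2 * Real.log 2 := by
    rw [show (4 : ℝ) = 2 ^ (2 : ℕ) by norm_num, Real.log_pow]; norm_num
  have hlog2 : Real.log 2 < 0.6931471808 := Real.log_two_lt_d9
  have hlog20 : 0 < Real.log 2 := Real.log_pos (by norm_num)
  have hden : 0 < 2 * L - Real.log 4 := by
    rw [hlog4]
    linarith
  have h2 : Real.log (Real.log a) ≤ Real.log 2 + l := by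
    rw [hloga, hl, ← Real.log_mul (by norm_num) hLpos.ne']
    apply Real.log_le_log hden
    rw [hlog4]
    linarith
  have h3 : Real.log (Real.log a) / Real.log a ≤ 3 / 4 * (l / L) := by
    rw [hloga] at h2 ⊢
    rw [div_le_iff₀ hden]
    refine h2.trans ?_
    have h4 : l / L ≤ 1 := (div_le_one hLpos).2 hlL
    have h5 : l / L * L = l := div_mul_cancel₀ l hLpos.ne'
    have h6 : 0 ≤ l / L := div_nonneg (by linarith) hLpos.le
    have h7 : 3 / 4 * (l / L) * (2 * L - Real.log 4) = 3 / 2 * l - 3 / 2 * Real.log 2 * (l / L) := by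
      rw [hlog4]
      calc 3 / 4 * (l / L) * (2 * L - 2 * Real.log 2) = 3 / 2 * (l / L * L) - 3 / 2 * Real.log 2 * (l / L) := by ring
        _ = _ := by rw [h5]
    rw [h7]
    nlinarith
  linarith

theorem psi_tendsto (C : ℝ) : ∃ z₃ : ℕ, ∀ z ≥ z₃,
    C * (Real.log (Real.log (z : ℕ)) / Real.log (z : ℕ)) ≤ 1 / 2 := by
  have h1 : Filter.Tendsto (fun x : ℝ => Real.log x / x) Filter.atTop (nhds 0) := by
    have := Real.tendsto_pow_log_div_mul_add_atTop 1 0 1 one_ne_zero
    simpa using this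
  have h2 : Filter.Tendsto (fun n : ℕ => Real.log (n : ℝ)) Filter.atTop Filter.atTop :=
    Real.tendsto_log_atTop.comp tendsto_natCast_atTop_atTop
  have h3 : Filter.Tendsto (fun n : ℕ => C * (Real.log (Real.log (n : ℝ)) / Real.log (n : ℝ)))
      Filter.atTop (nhds 0) := by
    have := (h1.comp h2).const_mul C
    rw [mul_zero] at this
    exact this
  have h4 : ∀ᶠ n : ℕ in Filter.atTop, C * (Real.log (Real.log (n : ℝ)) / Real.log (n : ℝ)) < 1 / 2 :=
    h3.eventually_lt_const (by norm_num)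
  obtain ⟨N, hN⟩ := Filter.eventually_atTop.1 h4
  exact ⟨N, fun z hz => (hN z hz).le⟩

/-- Arithmetic of the levels. -/
theorem lev_good {p : ℕ} (hp : 2 ≤ p) : ∃ z₄ : ℕ, ∀ z ≥ z₄, ∀ n : ℕ, lev p z ≤ 4 * n →
    lev p z < (lev p n + 3) / 4 ∧ z < n := by
  refine ⟨7, ?_⟩
  intro z hz n hn
  have h1 : (z + 1) ^ 2 ≤ (z + 1) ^ p := Nat.pow_le_pow_right (by omega) hp
  have h2 : (n + 1) ^ 2 ≤ (n + 1) ^ p := Nat.pow_le_pow_right (by omega) hp
  have h3 : lev p z = (z + 1) ^ p + z := rfl
  have h4 : lev p n = (n + 1) ^ p + n := rfl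
  have h5 : (z + 1) ^ 2 = z * z + 2 * z + 1 := by ring
  have h6 : (n + 1) ^ 2 = n * n + 2 * n + 1 := by ring
  have h7 : 7 * z ≤ z * z := Nat.mul_le_mul_right z hz
  have h8 : 13 ≤ n := by omega
  have h9 : 13 * n ≤ n * n := Nat.mul_le_mul_right n h8
  constructor
  · rw [Nat.lt_iff_add_one_le, Nat.le_div_iff_mul_le (by norm_num)]
    omega
  · omega

theorem lev_win {p : ℕ} (hp : 2 ≤ p) : ∃ z₅ : ℕ, ∀ z ≥ z₅, ∀ n : ℕ, lev p (z - 1) < n →
    lev p z ≤ 4 * n := by
  refine ⟨p, ?_⟩
  intro z hz n hn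
  have hz0 : 0 < z := by omega
  have h1 : (z - 1 + 1) = z := by omega
  have h2 : lev p (z - 1) = z ^ p + (z - 1) := by rw [lev, h1]
  have h3 : (z + 1) ^ p ≤ 4 * z ^ p := by
    have hzr : (0 : ℝ) < z := by exact_mod_cast hz0
    have h4 : ((z : ℝ) + 1) ^ p ≤ 4 * (z : ℝ) ^ p := by
      have h5 : (z : ℝ) + 1 ≤ z * Real.exp (1 / z) := by
        have h6 := Real.add_one_le_exp (1 / (z : ℝ))
        calc (z : ℝ) + 1 = z * (1 / z + 1) := by field_simp; ring
          _ ≤ _ := by gcongr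
      calc ((z : ℝ) + 1) ^ p ≤ (z * Real.exp (1 / z)) ^ p := by gcongr
        _ = Real.exp (p / z) * z ^ p := by
            rw [mul_pow, ← Real.exp_nat_mul]
            rw [mul_comm]
            congr 2
            ring
        _ ≤ Real.exp 1 * z ^ p := by
            gcongr
            rw [div_le_one hzr]
            exact_mod_cast hz
        _ ≤ 4 * z ^ p := by
            gcongr
            have := Real.exp_one_lt_d9
            linarith
    exact_mod_cast h4
  have h4 : lev p z = (z + 1) ^ p + z := rfl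
  omega

end Pool.Agent.L5helper32.GR
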