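import Pool.Agent.L5helper32.GP.Defs

/-!
# The quotient of the logarithms
-/

set_option autoImplicit false

open Finset MeasureTheory ProbabilityTheory Filter Topology

namespace Pool.Agent.L5helper32.GP

open Pool.Agent.L5helper32.GR (Root w pr sg Dep lev q)

private lemma q_ge {p : ℕ} (hp : 1 ≤ p) (n : ℕ) : n ^ (p - 1) ≤ q p n := by
  have h1 : p.choose p * n ^ (p - 1) ≤ q p n :=
    Finset.single_le_sum (f := fun k => p.choose k * n ^ (k - 1)) (fun _ _ => Nat.zero_le _)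
      (Finset.mem_Icc.2 ⟨hp, le_rfl⟩)
  simpa using h1

private lemma q_le {p n : ℕ} (hn : 1 ≤ n) : q p n ≤ 2 ^ p * n ^ (p - 1) := by
  calc q p n = ∑ k ∈ Icc 1 p, p.choose k * n ^ (k - 1) := rfl
    _ ≤ ∑ k ∈ Icc 1 p, p.choose k * n ^ (p - 1) := by
        refine Finset.sum_le_sum fun k hk => Nat.mul_le_mul_left _ ?_
        exact Nat.pow_le_pow_right hn (Nat.sub_le_sub_right (Finset.mem_Icc.1 hk).2 1)
    _ = (∑ k ∈ Icc 1 p, p.choose k) * n ^ (p - 1) := by rw [Finset.sum_mul]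
    _ ≤ 2 ^ p * n ^ (p - 1) := by
        refine Nat.mul_le_mul_right _ ?_
        rw [← Nat.sum_range_choose p]
        refine Finset.sum_le_sum_of_subset fun k hk => ?_
        rw [Finset.mem_range]
        exact Nat.lt_succ_of_le (Finset.mem_Icc.1 hk).2

/-- D3: the quotient of the logarithms. -/
theorem log_ratio {p : ℕ} (hp : p.Prime) (h5 : 5 ≤ p) {ε : ℝ} (hε : 0 < ε) :
    ∃ z₁ : ℕ, ∀ z ≥ z₁, ∀ n : ℕ, lev p z ≤ 4 * n → n ≤ lev p z →
      lev p z + 2 ≤ Nat.sqrt (q p n) ∧ Nat.sqrt (q p n) ≤ (lev p z + 2) ^ p ∧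
      |Real.log ((lev p z + 2 : ℕ) : ℝ) / Real.log ((Nat.sqrt (q p n) : ℕ) : ℝ)
        - 2 / ((p : ℝ) - 1)| ≤ ε := by
  have hodd : Odd p := hp.odd_of_ne_two (by omega)
  obtain ⟨h, hph⟩ := hodd
  have hh2 : 2 ≤ h := by omega
  have hlog2 : 0 < Real.log 2 := Real.log_pos (by norm_num)
  obtain ⟨K, hK⟩ : ∃ K : ℝ, K = 3 * p * Real.log 2 := ⟨_, rfl⟩
  have hp0 : (0 : ℝ) < p := by exact_mod_cast hp.pos
  have hK0 : 0 < K := by rw [hK]; positivity
  have htend : Tendsto (fun z : ℕ => Real.log (z : ℝ)) atTop atTop :=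
    Real.tendsto_log_atTop.comp tendsto_natCast_atTop_atTop
  obtain ⟨z₀, hz₀⟩ := eventually_atTop.1
    (htend.eventually (eventually_ge_atTop (K / ε + 2 * Real.log 2 + 1)))
  refine ⟨max z₀ 20, fun z hz n h4 hn => ?_⟩
  obtain ⟨L, hL⟩ : ∃ L : ℕ, L = lev p z := ⟨_, rfl⟩
  rw [← hL] at h4 hn ⊢
  have hzL : z ≤ L := by rw [hL]; exact Nat.le_add_left z _
  have hz20 : 20 ≤ z := (le_max_right _ _).trans hz
  have hL20 : 20 ≤ L := hz20.trans hzL
  have hn5 : 5 ≤ n := by omega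
  have hq1 : n ^ h * n ^ h ≤ q p n := by
    have h1 := q_ge hp.one_lt.le n
    rwa [show p - 1 = h + h by omega, pow_add] at h1
  have hsq : n ^ h ≤ Nat.sqrt (q p n) := Nat.le_sqrt.2 hq1
  have hn2 : n ^ 2 ≤ n ^ h := Nat.pow_le_pow_right (by omega) hh2
  have hq2 : q p n ≤ 2 ^ p * n ^ (p - 1) := q_le (by omega)
  have hA : L + 2 ≤ Nat.sqrt (q p n) := by
    have h1 : L + 2 ≤ n ^ 2 := by nlinarith
    exact h1.trans (hn2.trans hsq)
  have hB : Nat.sqrt (q p n) ≤ (L + 2) ^ p := by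
    have h1 : q p n ≤ (L + 2) ^ p * (L + 2) ^ p := by
      refine hq2.trans (Nat.mul_le_mul ?_ ?_)
      · exact Nat.pow_le_pow_left (by omega) p
      · calc n ^ (p - 1) ≤ (L + 2) ^ (p - 1) := Nat.pow_le_pow_left (by omega) _
          _ ≤ (L + 2) ^ p := Nat.pow_le_pow_right (by omega) (Nat.sub_le p 1)
    calc Nat.sqrt (q p n) ≤ Nat.sqrt ((L + 2) ^ p * (L + 2) ^ p) := Nat.sqrt_le_sqrt h1
      _ = (L + 2) ^ p := Nat.sqrt_eq _
  refine ⟨hA, hB, ?_⟩
  -- the logarithms
  obtain ⟨Q, hQ⟩ : ∃ Q : ℕ, Q = Nat.sqrt (q p n) := ⟨_, rfl⟩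
  rw [← hQ] at hA hsq ⊢
  have hQ0 : (0 : ℝ) < Q := by
    have : 0 < Q := by omega
    exact_mod_cast this
  have hL0 : (0 : ℝ) < L := by
    have : 0 < L := by omega
    exact_mod_cast this
  have hn0 : (0 : ℝ) < n := by
    have : 0 < n := by omega
    exact_mod_cast this
  have hh0 : (0 : ℝ) < h := by
    have : 0 < h := by omega
    exact_mod_cast this
  have hpr : (p : ℝ) = 2 * h + 1 := by rw [hph]; push_cast; ring
  set a : ℝ := Real.log ((L + 2 : ℕ) : ℝ) with ha
  set s : ℝ := Real.log (Q : ℝ) with hs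
  have hlog4 : Real.log 4 = 2 * Real.log 2 := by
    rw [show (4 : ℝ) = 2 ^ 2 by norm_num, Real.log_pow]
    norm_num
  -- `log n`
  have hn_ge : Real.log L - 2 * Real.log 2 ≤ Real.log n := by
    have h1 : (L : ℝ) ≤ 4 * n := by exact_mod_cast h4
    have h2 := Real.log_le_log hL0 h1
    rw [Real.log_mul (by norm_num) hn0.ne', hlog4] at h2
    linarith
  have hn_le : Real.log n ≤ Real.log L :=
    Real.log_le_log hn0 (by exact_mod_cast hn)
  -- `a`
  have ha_ge : Real.log L ≤ a := by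
    refine Real.log_le_log hL0 ?_
    push_cast
    linarith
  have ha_le : a ≤ Real.log L + Real.log 2 := by
    rw [← Real.log_mul hL0.ne' (by norm_num)]
    refine Real.log_le_log ?_ ?_
    · push_cast
      linarith
    · have : (20 : ℝ) ≤ L := by exact_mod_cast hL20
      push_cast
      linarith
  -- `s`
  have hs_ge : h * Real.log n ≤ s := by
    rw [← Real.log_pow]
    refine Real.log_le_log (by positivity) ?_
    exact_mod_cast hsq
  have hs_le : 2 * s ≤ p * Real.log 2 + 2 * h * Real.log n := by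
    have h1 : Q ^ 2 ≤ 2 ^ p * n ^ (2 * h) := by
      have h2 : Q ^ 2 ≤ q p n := by rw [hQ]; exact Nat.sqrt_le' _
      rw [show p - 1 = 2 * h by omega] at hq2
      exact h2.trans hq2
    have h2 : ((Q : ℝ)) ^ 2 ≤ (2 : ℝ) ^ p * (n : ℝ) ^ (2 * h) := by exact_mod_cast h1
    have h3 := Real.log_le_log (by positivity) h2
    rw [Real.log_pow, Real.log_mul (by positivity) (by positivity), Real.log_pow, Real.log_pow] at h3
    push_cast at h3
    exact h3
  have hLz : K / ε + 2 * Real.log 2 + 1 ≤ Real.log L := by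
    refine (hz₀ z ((le_max_left _ _).trans hz)).trans (Real.log_le_log ?_ ?_)
    · have : 0 < z := by omega
      exact_mod_cast this
    · exact_mod_cast hzL
  have hs_big : K / ε < s := by
    have h1 : K / ε + 1 ≤ Real.log n := by linarith
    have h2 : (1 : ℝ) ≤ h := by
      have : 1 ≤ h := by omega
      exact_mod_cast this
    have h3 : 0 ≤ Real.log n := by
      have := div_pos hK0 hε
      linarith
    nlinarith
  have hs0 : 0 < s := (div_pos hK0 hε).trans hs_big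
  have e1 : a / s - 2 / ((p : ℝ) - 1) = (h * a - s) / (h * s) := by
    rw [hpr]
    have : (2 * (h : ℝ) + 1 - 1) = 2 * h := by ring
    rw [this]
    field_simp
  have e2 : |h * a - s| ≤ K := by
    rw [hK, abs_le, hpr]
    constructor
    · rw [hpr] at hs_le
      nlinarith
    · nlinarith
  rw [e1, abs_div, abs_of_pos (mul_pos hh0 hs0), div_le_iff₀ (mul_pos hh0 hs0)]
  have h1 : K ≤ ε * s := by
    have := (div_lt_iff₀ hε).1 hs_big
    linarith
  have h2 : (1 : ℝ) ≤ h := by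
    have : 1 ≤ h := by omega
    exact_mod_cast this
  have h3 : ε * s ≤ ε * (h * s) := by
    refine mul_le_mul_of_nonneg_left ?_ hε.le
    nlinarith
  linarith

end Pool.Agent.L5helper32.GP
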