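import Pool.Agent.L5helper32.GP.Defs

/-!
# The factor of the jump at one prime

The probability that the prime power `r ^ k` divides `(tr + 1) ^ p - 1`, from the law of the number
`tr` with random digits and from a bound for the number of roots modulo `r ^ k`.
-/

set_option autoImplicit false

open Finset MeasureTheory ProbabilityTheory

namespace Pool.Agent.L5helper32.GP.Factor

/-- The first `k` digits determine the number modulo `r ^ k`. -/
theorem tr_modEq (D : ℕ → ℕ → ℕ) (r : ℕ) {k v : ℕ} (hk : k ≤ v) :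
    tr D r v ≡ tr D r k [MOD r ^ k] := by
  induction v, hk using Nat.le_induction with
  | base => exact Nat.ModEq.refl _
  | succ v hv ih =>
    have h1 : tr D r (v + 1) = tr D r v + D r v * r ^ v := by
      simp [tr, Finset.sum_range_succ]
    have h2 : D r v * r ^ v ≡ 0 [MOD r ^ k] :=
      (Nat.modEq_zero_iff_dvd).2 (Dvd.dvd.mul_left (pow_dvd_pow r hv) _)
    rw [h1]
    simpa using ih.add h2

/-- Divisibility of `(t + 1) ^ p - 1` by `m` depends only on `t` modulo `m`. -/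
theorem dvd_iff_of_modEq {m s t : ℕ} (p : ℕ) (h : s ≡ t [MOD m]) :
    m ∣ (s + 1) ^ p - 1 ↔ m ∣ (t + 1) ^ p - 1 := by
  have hs : 1 ≤ (s + 1) ^ p := Nat.one_le_pow _ _ (Nat.succ_pos s)
  have ht : 1 ≤ (t + 1) ^ p := Nat.one_le_pow _ _ (Nat.succ_pos t)
  rw [← Nat.modEq_iff_dvd' hs, ← Nat.modEq_iff_dvd' ht]
  have h1 : (s + 1) ^ p ≡ (t + 1) ^ p [MOD m] := (h.add_right 1).pow p
  exact ⟨fun h2 => h2.trans h1, fun h2 => h2.trans h1.symm⟩

variable {Ω : Type} [MeasurableSpace Ω] {μ : Measure Ω} {T : ℕ × ℕ × ℕ → Ω → ℕ}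

theorem measurable_tr (h : Res μ T) (c r v : ℕ) :
    Measurable (fun ω => tr (res T ω c) r v) := by
  unfold tr res
  exact Finset.measurable_sum _ fun i _ => (h.meas (c, r, i)).mul_const _

theorem prob_factor_of [IsProbabilityMeasure μ] {p : ℕ} (h : Res μ T) (c v k : ℕ) (hk : k ≤ v) {r : ℕ} (hr : r.Prime)
    (htr : ∀ t < r ^ k, μ.real {ω | tr (res T ω c) r k = t} = 1 / (r : ℝ) ^ k)
    (hcard : #{t ∈ range (r ^ k) | r ^ k ∣ (t + 1) ^ p - 1} ≤ 4 * p) :
    μ.real {ω | r ^ k ∣ (tr (res T ω c) r v + 1) ^ p - 1} ≤ 4 * p / (r : ℝ) ^ k := by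
  classical
  set X : Ω → ℕ := fun ω => tr (res T ω c) r k with hX
  have hXm : Measurable X := measurable_tr h c r k
  have hrk : (0 : ℝ) < (r : ℝ) ^ k := pow_pos (by exact_mod_cast hr.pos) k
  have hsum : ∀ S : Finset ℕ, S ⊆ range (r ^ k) →
      μ.real {ω | X ω ∈ S} = #S / (r : ℝ) ^ k := by
    intro S hS
    have h1 : {ω | X ω ∈ S} = ⋃ t ∈ S, {ω | X ω = t} := by
      ext ω; simp
    rw [h1, measureReal_biUnion_finset]
    · rw [Finset.sum_congr rfl fun t ht => htr t (Finset.mem_range.1 (hS ht))]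
      rw [Finset.sum_const, nsmul_eq_mul, mul_one_div]
    · intro a _ b _ hab
      refine Set.disjoint_left.2 fun ω ha hb => hab ?_
      have ha' : X ω = a := ha
      have hb' : X ω = b := hb
      exact ha'.symm.trans hb'
    · intro t _
      exact hXm (measurableSet_singleton t)
  have hall : μ.real {ω | X ω ∈ range (r ^ k)} = 1 := by
    rw [hsum _ (Finset.Subset.refl _), Finset.card_range]
    push_cast
    exact div_self hrk.ne'
  have hmeas : MeasurableSet {ω | X ω ∈ range (r ^ k)} := by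
    have h1 : {ω | X ω ∈ range (r ^ k)} = X ⁻¹' (range (r ^ k) : Set ℕ) := by
      ext ω; simp
    rw [h1]
    exact hXm (Finset.measurableSet _)
  have hnone : μ.real {ω | X ω ∈ range (r ^ k)}ᶜ = 0 := by
    rw [probReal_compl_eq_one_sub hmeas, hall, sub_self]
  have hsub : {ω | r ^ k ∣ (tr (res T ω c) r v + 1) ^ p - 1} ⊆
      {ω | X ω ∈ {t ∈ range (r ^ k) | r ^ k ∣ (t + 1) ^ p - 1}} ∪
        {ω | X ω ∈ range (r ^ k)}ᶜ := by
    intro ω hω
    have h2 : r ^ k ∣ (X ω + 1) ^ p - 1 :=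
      (dvd_iff_of_modEq p (tr_modEq (res T ω c) r hk)).1 hω
    by_cases h3 : X ω ∈ range (r ^ k)
    · exact Or.inl (Finset.mem_filter.2 ⟨h3, h2⟩)
    · exact Or.inr h3
  calc μ.real {ω | r ^ k ∣ (tr (res T ω c) r v + 1) ^ p - 1}
      ≤ μ.real ({ω | X ω ∈ {t ∈ range (r ^ k) | r ^ k ∣ (t + 1) ^ p - 1}} ∪
        {ω | X ω ∈ range (r ^ k)}ᶜ) := measureReal_mono hsub
    _ ≤ μ.real {ω | X ω ∈ {t ∈ range (r ^ k) | r ^ k ∣ (t + 1) ^ p - 1}} +
        μ.real {ω | X ω ∈ range (r ^ k)}ᶜ := measureReal_union_le _ _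
    _ = #{t ∈ range (r ^ k) | r ^ k ∣ (t + 1) ^ p - 1} / (r : ℝ) ^ k := by
        rw [hsum _ (Finset.filter_subset _ _), hnone, add_zero]
    _ ≤ 4 * p / (r : ℝ) ^ k := by
        apply div_le_div_of_nonneg_right _ hrk.le
        exact_mod_cast hcard

end Pool.Agent.L5helper32.GP.Factor
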