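import Pool.Agent.L5helper66.TD.Defs2

/-!
# The dihedral angles of the tetrahedra of the linear family are not rational multiples of `π`
-/

set_option autoImplicit false

open scoped TensorProduct RealInnerProductSpace IntermediateField

namespace Pool.Agent.L5helper83.NF

open Pool.Agent.L5helper66.TD

/-! ### The cosine of a dihedral angle in terms of the six distances -/

lemma inner_of_dist (X Y Z : E3) (a b d : ℝ) (h1 : dist X Y = |a|) (h2 : dist X Z = |b|)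
    (h3 : dist Y Z = |d|) : ⟪Y - X, Z - X⟫ = (a ^ 2 + b ^ 2 - d ^ 2) / 2 := by
  have e1 : ‖Y - X‖ ^ 2 = a ^ 2 := by
    rw [← dist_eq_norm, dist_comm, h1, sq_abs]
  have e2 : ‖Z - X‖ ^ 2 = b ^ 2 := by
    rw [← dist_eq_norm, dist_comm, h2, sq_abs]
  have e3 : ‖(Y - X) - (Z - X)‖ ^ 2 = d ^ 2 := by
    rw [sub_sub_sub_cancel_right, ← dist_eq_norm, h3, sq_abs]
  have e4 := norm_sub_sq_real (Y - X) (Z - X)
  rw [e1, e2, e3] at e4
  linarith

lemma inner_self_of_dist (X Y : E3) (a : ℝ) (h1 : dist X Y = |a|) : ⟪Y - X, Y - X⟫ = a ^ 2 := by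
  rw [real_inner_self_eq_norm_sq, ← dist_eq_norm, dist_comm, h1, sq_abs]

lemma inner_orth (u v w : E3) (A B C D : ℝ) (hA : ⟪u, u⟫ = A) (hB : ⟪u, v⟫ = B)
    (hC : ⟪u, w⟫ = C) (hD : ⟪v, w⟫ = D) (hA0 : A ≠ 0) :
    ⟪orth u v, orth u w⟫ = D - B * C / A := by
  unfold orth
  rw [inner_sub_left, inner_sub_right, inner_sub_right, real_inner_smul_left,
    real_inner_smul_left, real_inner_smul_right, real_inner_smul_right, real_inner_comm u v,
    hA, hB, hC, hD]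
  field_simp
  ring

/-- `16 a⁴` times the product of the squares of the two heights over the edge `a`. -/
def GG {R : Type} [CommRing R] (a b c d e f : R) : R :=
  (4 * a ^ 2 * b ^ 2 - (a ^ 2 + b ^ 2 - d ^ 2) ^ 2) *
    (4 * a ^ 2 * c ^ 2 - (a ^ 2 + c ^ 2 - e ^ 2) ^ 2) + 0 * f

/-- `16 a⁴` times the square of the inner product of the two heights over the edge `a`. -/
def HH {R : Type} [CommRing R] (a b c d e f : R) : R :=
  (2 * a ^ 2 * (b ^ 2 + c ^ 2 - f ^ 2) - (a ^ 2 + b ^ 2 - d ^ 2) * (a ^ 2 + c ^ 2 - e ^ 2)) ^ 2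

lemma cos_sq (P Q R S : E3) (a b c d e f : ℝ) (ha : a ≠ 0) (h1 : dist P Q = |a|)
    (h2 : dist P R = |b|) (h3 : dist P S = |c|) (h4 : dist Q R = |d|) (h5 : dist Q S = |e|)
    (h6 : dist R S = |f|) :
    Real.cos (dihedral P Q R S) ^ 2 * GG a b c d e f = HH a b c d e f := by
  have ha2 : (0 : ℝ) < a ^ 2 := by positivity
  have huu := inner_self_of_dist P Q a h1
  have hvv := inner_self_of_dist P R b h2
  have hww := inner_self_of_dist P S c h3
  have huv := inner_of_dist P Q R a b d h1 h2 h4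
  have huw := inner_of_dist P Q S a c e h1 h3 h5
  have hvw := inner_of_dist P R S b c f h2 h3 h6
  have o1 := inner_orth _ _ _ _ _ _ _ huu huv huv hvv ha2.ne'
  have o2 := inner_orth _ _ _ _ _ _ _ huu huw huw hww ha2.ne'
  have o3 := inner_orth _ _ _ _ _ _ _ huu huv huw hvw ha2.ne'
  have hcos := InnerProductGeometry.cos_angle_mul_norm_mul_norm (orth (Q - P) (R - P))
    (orth (Q - P) (S - P))
  have hdih : dihedral P Q R S =
    InnerProductGeometry.angle (orth (Q - P) (R - P)) (orth (Q - P) (S - P)) := rfl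
  rw [← hdih] at hcos
  have hsq : Real.cos (dihedral P Q R S) ^ 2 * (⟪orth (Q - P) (R - P), orth (Q - P) (R - P)⟫ *
      ⟪orth (Q - P) (S - P), orth (Q - P) (S - P)⟫) =
        ⟪orth (Q - P) (R - P), orth (Q - P) (S - P)⟫ ^ 2 := by
    rw [← hcos, real_inner_self_eq_norm_sq, real_inner_self_eq_norm_sq]
    ring
  rw [o1, o2, o3] at hsq
  have hG : GG a b c d e f = (4 * a ^ 2) ^ 2 *
      ((b ^ 2 - (a ^ 2 + b ^ 2 - d ^ 2) / 2 * ((a ^ 2 + b ^ 2 - d ^ 2) / 2) / a ^ 2) *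
        (c ^ 2 - (a ^ 2 + c ^ 2 - e ^ 2) / 2 * ((a ^ 2 + c ^ 2 - e ^ 2) / 2) / a ^ 2)) := by
    unfold GG
    field_simp
    ring
  have hH : HH a b c d e f = (4 * a ^ 2) ^ 2 *
      ((b ^ 2 + c ^ 2 - f ^ 2) / 2 -
        (a ^ 2 + b ^ 2 - d ^ 2) / 2 * ((a ^ 2 + c ^ 2 - e ^ 2) / 2) / a ^ 2) ^ 2 := by
    unfold HH
    field_simp
    ring
  rw [hG, hH, ← hsq]
  ring

/-! ### Transcendental parameters -/

lemma subst_of_transcendental {κ w : ℝ} (hκ : IsAlgebraic ℚ κ) (hw : Transcendental ℚ w)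
    (G H : Polynomial ℤ) (h : κ * Polynomial.aeval w G = Polynomial.aeval w H) (t : ℝ) :
    κ * Polynomial.aeval t G = Polynomial.aeval t H := by
  have halg : Algebra.IsAlgebraic ℚ ℚ⟮κ⟯ :=
    IntermediateField.isAlgebraic_adjoin_simple hκ.isIntegral
  set k : ℚ⟮κ⟯ := IntermediateField.AdjoinSimple.gen ℚ κ with hk
  have hkv : algebraMap ℚ⟮κ⟯ ℝ k = κ := IntermediateField.AdjoinSimple.algebraMap_gen ℚ κ
  set p : Polynomial ℚ⟮κ⟯ := Polynomial.C k * G.map (algebraMap ℤ ℚ⟮κ⟯) -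
    H.map (algebraMap ℤ ℚ⟮κ⟯) with hp
  have hev : ∀ x : ℝ, Polynomial.aeval x p =
      κ * Polynomial.aeval x G - Polynomial.aeval x H := by
    intro x
    rw [hp, map_sub, map_mul, Polynomial.aeval_C, hkv, Polynomial.aeval_map_algebraMap,
      Polynomial.aeval_map_algebraMap]
  have hp0 : p = 0 := by
    by_contra hne
    have h1 : IsAlgebraic ℚ⟮κ⟯ w := ⟨p, hne, by rw [hev, h, sub_self]⟩
    exact hw (h1.restrictScalars ℚ)
  have h2 := hev t
  rw [hp0, map_zero] at h2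
  linarith

lemma isAlgebraic_cos_sq (r : ℚ) : IsAlgebraic ℚ (Real.cos (r * Real.pi) ^ 2) := by
  have h1 : IsIntegral ℤ (2 * Real.cos (r * Real.pi)) := Real.isIntegral_two_mul_cos_rat_mul_pi r
  have h2 : IsAlgebraic ℚ (2 * Real.cos (r * Real.pi)) := (h1.tower_top (A := ℚ)).isAlgebraic
  have h3 : IsAlgebraic ℚ ((1 / 4 : ℚ) • ((2 * Real.cos (r * Real.pi)) ^ 2)) :=
    (h2.pow 2).smul _
  have h4 : ((1 / 4 : ℚ) • ((2 * Real.cos (r * Real.pi)) ^ 2)) = Real.cos (r * Real.pi) ^ 2 := by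
    rw [Rat.smul_def]
    push_cast
    ring
  rwa [h4] at h3

/-! ### The family -/

/-- The edges are `sl i j * w + ic i j`. -/
def sl : Fin 4 → Fin 4 → ℤ := ![![0, 1, 1, 1], ![1, 0, 0, 1], ![1, 0, 0, 1], ![1, 1, 1, 0]]

/-- The edges are `sl i j * w + ic i j`. -/
def ic : Fin 4 → Fin 4 → ℤ := ![![0, 1, 1, 0], ![1, 0, 6, -1], ![1, 6, 0, -1], ![0, -1, -1, 0]]

/-- The edge as a polynomial in `w`. -/
noncomputable def pol (i j : Fin 4) : Polynomial ℤ :=
  Polynomial.C (sl i j) * Polynomial.X + Polynomial.C (ic i j)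

lemma aeval_pol (i j : Fin 4) (t : ℝ) : Polynomial.aeval t (pol i j) = sl i j * t + ic i j := by
  simp [pol]

/-- The edge for the integral value `t` of `w`. -/
def ed (t : ℤ) (i j : Fin 4) : ℤ := sl i j * t + ic i j

lemma aeval_GG (a b c d e f : Polynomial ℤ) (t : ℝ) : Polynomial.aeval t (GG a b c d e f) =
    GG (Polynomial.aeval t a) (Polynomial.aeval t b) (Polynomial.aeval t c) (Polynomial.aeval t d)
      (Polynomial.aeval t e) (Polynomial.aeval t f) := by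
  simp [GG, map_ofNat]

lemma aeval_HH (a b c d e f : Polynomial ℤ) (t : ℝ) : Polynomial.aeval t (HH a b c d e f) =
    HH (Polynomial.aeval t a) (Polynomial.aeval t b) (Polynomial.aeval t c) (Polynomial.aeval t d)
      (Polynomial.aeval t e) (Polynomial.aeval t f) := by
  simp [HH, map_ofNat]

lemma numeric : ∀ i j k l : Fin 4, i ≠ j → (k ≠ i ∧ k ≠ j) → (l ≠ i ∧ l ≠ j ∧ l ≠ k) →
    HH (ed 5 i j) (ed 5 i k) (ed 5 i l) (ed 5 j k) (ed 5 j l) (ed 5 k l) *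
        GG (ed 6 i j) (ed 6 i k) (ed 6 i l) (ed 6 j k) (ed 6 j l) (ed 6 k l) ≠
      HH (ed 6 i j) (ed 6 i k) (ed 6 i l) (ed 6 j k) (ed 6 j l) (ed 6 k l) *
        GG (ed 5 i j) (ed 5 i k) (ed 5 i l) (ed 5 j k) (ed 5 j l) (ed 5 k l) := by
  unfold HH GG
  decide

lemma edge_ne_zero (i j : Fin 4) (hij : i ≠ j) (w : ℝ) (hw : 4 < w) :
    (sl i j * w + ic i j : ℝ) ≠ 0 := by
  apply ne_of_gt
  fin_cases i <;> fin_cases j <;> simp [sl, ic] at hij ⊢ <;> linarith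

lemma dist_edge (w : ℝ) (hw : 4 < w) (T : Fin 4 → E3)
    (h : HasEdges T (w + 1) (w + 1) w 6 (w - 1) (w - 1)) (i j : Fin 4) :
    dist (T i) (T j) = |(sl i j * w + ic i j : ℝ)| := by
  obtain ⟨h1, h2, h3, h4, h5, h6⟩ := h
  have a1 : |w + 1| = w + 1 := abs_of_pos (by linarith)
  have a2 : |w| = w := abs_of_pos (by linarith)
  have a3 : |w - 1| = w - 1 := abs_of_pos (by linarith)
  have a3' : |w + -1| = w - 1 := by rw [← sub_eq_add_neg, a3]
  fin_cases i <;> fin_cases j <;>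
    simp [sl, ic, h1, h2, h3, h4, h5, h6, a1, a2, a3', dist_comm (T 1) (T 0),
      dist_comm (T 2) (T 0), dist_comm (T 3) (T 0), dist_comm (T 2) (T 1), dist_comm (T 3) (T 1),
      dist_comm (T 3) (T 2)]

/-- NF6: for transcendental `w` no dihedral angle is a rational multiple of `π` -/
theorem L_irr (w : ℝ) (hw : 4 < w) (ht : Transcendental ℚ w) (T : Fin 4 → E3)
    (hT : AffineIndependent ℝ T) (h : HasEdges T (w + 1) (w + 1) w 6 (w - 1) (w - 1))
    (i j k l : Fin 4) (hi : i ≠ j) (hk : k ≠ i ∧ k ≠ j) (hl : l ≠ i ∧ l ≠ j ∧ l ≠ k) (r : ℚ) :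
    dihedral (T i) (T j) (T k) (T l) ≠ r * Real.pi := by
  intro hθ
  have hd := dist_edge w hw T h
  have h1 := cos_sq (T i) (T j) (T k) (T l) _ _ _ _ _ _ (edge_ne_zero i j hi w hw) (hd i j)
    (hd i k) (hd i l) (hd j k) (hd j l) (hd k l)
  rw [hθ] at h1
  obtain ⟨κ, hκ⟩ : ∃ κ : ℝ, κ = Real.cos (r * Real.pi) ^ 2 := ⟨_, rfl⟩
  have halg : IsAlgebraic ℚ κ := by rw [hκ]; exact isAlgebraic_cos_sq r
  rw [← hκ] at h1
  have h2 : κ * Polynomial.aeval w (GG (pol i j) (pol i k) (pol i l) (pol j k) (pol j l)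
      (pol k l)) = Polynomial.aeval w (HH (pol i j) (pol i k) (pol i l) (pol j k) (pol j l)
      (pol k l)) := by
    rw [aeval_GG, aeval_HH]
    simp only [aeval_pol]
    exact h1
  have h3 : ∀ t : ℤ, κ * ((GG (ed t i j) (ed t i k) (ed t i l) (ed t j k) (ed t j l)
      (ed t k l) : ℤ) : ℝ) = ((HH (ed t i j) (ed t i k) (ed t i l) (ed t j k) (ed t j l)
      (ed t k l) : ℤ) : ℝ) := by
    intro t
    have h4 := subst_of_transcendental halg ht _ _ h2 t
    rw [aeval_GG, aeval_HH] at h4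
    simp only [aeval_pol] at h4
    unfold GG HH ed at *
    push_cast
    exact h4
  have h5 := h3 5
  have h6 := h3 6
  have h7 : ((HH (ed 5 i j) (ed 5 i k) (ed 5 i l) (ed 5 j k) (ed 5 j l) (ed 5 k l) : ℤ) : ℝ) *
      ((GG (ed 6 i j) (ed 6 i k) (ed 6 i l) (ed 6 j k) (ed 6 j l) (ed 6 k l) : ℤ) : ℝ) =
      ((HH (ed 6 i j) (ed 6 i k) (ed 6 i l) (ed 6 j k) (ed 6 j l) (ed 6 k l) : ℤ) : ℝ) *
      ((GG (ed 5 i j) (ed 5 i k) (ed 5 i l) (ed 5 j k) (ed 5 j l) (ed 5 k l) : ℤ) : ℝ) := by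
    rw [← h5, ← h6]
    ring
  exact numeric i j k l hi hk hl (by exact_mod_cast h7)

end Pool.Agent.L5helper83.NF
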