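import Pool.Agent.L5helper66.TD.Defs

/-!
# Two elements of norm `8` (for helper66, TD12)
-/

set_option autoImplicit false

namespace Pool.Agent.L5helper83.TD

open Pool.Agent.L5helper66.TD

lemma pow_one_add (K : ℕ) : ∃ v w : ℤ, Odd v ∧ Odd w ∧ ∀ t : ℂ, t * t = -7 →
    (1 + t) ^ (K + 1) = 2 ^ K * ((2 * w - v) + v * t) := by
  induction K with
  | zero =>
    refine ⟨1, 1, odd_one, odd_one, ?_⟩
    intro t _
    push_cast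
    ring
  | succ K ih =>
    obtain ⟨v, w, hv, hw, h⟩ := ih
    refine ⟨w, w - 2 * v, hw, ?_, ?_⟩
    · exact hw.sub_even (even_two_mul v)
    · intro t ht
      rw [pow_succ (1 + t) (K + 1), h t ht, pow_succ (2 : ℂ) K]
      push_cast
      linear_combination (2 : ℂ) ^ K * v * ht

lemma pow_ne (K : ℕ) (hK : 0 < K) (t : ℂ) (ht : t * t = -7) : (1 + t) ^ K ≠ (1 - t) ^ K := by
  intro h
  obtain ⟨k, rfl⟩ : ∃ k, K = k + 1 := ⟨K - 1, by omega⟩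
  obtain ⟨v, w, hv, _, hp⟩ := pow_one_add k
  have h1 := hp t ht
  have h2 := hp (-t) (by linear_combination ht)
  rw [← sub_eq_add_neg] at h2
  rw [h1, h2] at h
  have h3 : (2 : ℂ) ^ k * (2 * v * t) = 0 := by linear_combination h
  have ht0 : t ≠ 0 := by
    rintro rfl
    norm_num at ht
  have hv0 : (v : ℂ) ≠ 0 := by
    intro hv0
    have hv1 : v = 0 := by exact_mod_cast hv0
    rw [hv1] at hv
    exact absurd hv (by decide)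
  have h4 : (2 : ℂ) ^ k * (2 * v * t) ≠ 0 :=
    mul_ne_zero (pow_ne_zero _ two_ne_zero) (mul_ne_zero (mul_ne_zero two_ne_zero hv0) ht0)
  exact h4 h3

lemma exists_t : ∃ t : ℂ, t * t = -7 := by
  refine ⟨Complex.I * (Real.sqrt 7 : ℝ), ?_⟩
  have h : ((Real.sqrt 7 : ℝ) : ℂ) * (Real.sqrt 7 : ℝ) = 7 := by
    rw [← Complex.ofReal_mul, Real.mul_self_sqrt (by norm_num)]
    norm_num
  linear_combination (Complex.I * Complex.I) * h + 7 * Complex.I_mul_I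

theorem dis32 (M : ℕ) (hM : 0 < M) :
    ¬ ((⟨(2 : ℕ), -1⟩ : ℤ√(2 * ((2 : ℕ) : ℤ) ^ 2 - 4 * ((3 : ℕ) : ℤ) ^ 2)) ^ (2 * 2 * M) *
        ⟨2 * (3 : ℕ), 1⟩ ^ (4 * 3 * M) =
        ⟨(2 : ℕ), 1⟩ ^ (2 * 2 * M) * ⟨2 * (3 : ℕ), -1⟩ ^ (4 * 3 * M)) := by
  intro h
  obtain ⟨t, ht⟩ := exists_t
  let φ := Zsqrtd.lift (R := ℂ) (d := 2 * ((2 : ℕ) : ℤ) ^ 2 - 4 * ((3 : ℕ) : ℤ) ^ 2)
    ⟨2 * t, by push_cast; linear_combination 4 * ht⟩
  have h1 := congrArg φ h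
  simp only [map_mul, map_pow] at h1
  have hφ : ∀ a b : ℤ, φ ⟨a, b⟩ = a + b * (2 * t) := fun a b => rfl
  rw [hφ, hφ, hφ, hφ] at h1
  push_cast at h1
  have e1 : (2 + -1 * (2 * t) : ℂ) = 2 * (1 - t) := by ring
  have e2 : (6 + 1 * (2 * t) : ℂ) = -(1 - t) ^ 2 := by linear_combination ht
  have e3 : (2 + 1 * (2 * t) : ℂ) = 2 * (1 + t) := by ring
  have e4 : (6 + -1 * (2 * t) : ℂ) = -(1 + t) ^ 2 := by linear_combination ht
  rw [e1, e2, e3, e4] at h1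
  have hev : Even (12 * M) := ⟨6 * M, by ring⟩
  rw [hev.neg_pow, hev.neg_pow, mul_pow, mul_pow, ← pow_mul, ← pow_mul, mul_assoc, mul_assoc,
    ← pow_add, ← pow_add] at h1
  have h2 := mul_left_cancel₀ (pow_ne_zero _ (two_ne_zero)) h1
  exact pow_ne _ (by omega) t ht h2.symm

theorem dis56 (M : ℕ) (hM : 0 < M) :
    ¬ ((⟨(6 : ℕ), -1⟩ : ℤ√(2 * ((6 : ℕ) : ℤ) ^ 2 - 4 * ((5 : ℕ) : ℤ) ^ 2)) ^ (2 * 6 * M) *
        ⟨2 * (5 : ℕ), 1⟩ ^ (4 * 5 * M) =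
        ⟨(6 : ℕ), 1⟩ ^ (2 * 6 * M) * ⟨2 * (5 : ℕ), -1⟩ ^ (4 * 5 * M)) := by
  intro h
  obtain ⟨t, ht⟩ := exists_t
  let φ := Zsqrtd.lift (R := ℂ) (d := 2 * ((6 : ℕ) : ℤ) ^ 2 - 4 * ((5 : ℕ) : ℤ) ^ 2)
    ⟨2 * t, by push_cast; linear_combination 4 * ht⟩
  have h1 := congrArg φ h
  simp only [map_mul, map_pow] at h1
  have hφ : ∀ a b : ℤ, φ ⟨a, b⟩ = a + b * (2 * t) := fun a b => rfl
  rw [hφ, hφ, hφ, hφ] at h1
  push_cast at h1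
  have e1 : (6 + -1 * (2 * t) : ℂ) = -(1 + t) ^ 2 := by linear_combination ht
  have e2 : 2 * (2 * 5 + 1 * (2 * t) : ℂ) = -(1 + t) ^ 3 := by linear_combination (3 + t) * ht
  have e3 : (6 + 1 * (2 * t) : ℂ) = -(1 - t) ^ 2 := by linear_combination ht
  have e4 : 2 * (2 * 5 + -1 * (2 * t) : ℂ) = -(1 - t) ^ 3 := by linear_combination (3 - t) * ht
  have hev : Even (2 * 6 * M) := ⟨6 * M, by ring⟩
  have hev2 : Even (4 * 5 * M) := ⟨10 * M, by ring⟩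
  have h2 : (-(1 + t) ^ 2) ^ (2 * 6 * M) * (-(1 + t) ^ 3) ^ (4 * 5 * M) =
      (-(1 - t) ^ 2) ^ (2 * 6 * M) * (-(1 - t) ^ 3) ^ (4 * 5 * M) := by
    rw [← e1, ← e2, ← e3, ← e4, mul_pow 2, mul_pow 2]
    linear_combination (2 : ℂ) ^ (4 * 5 * M) * h1
  rw [hev.neg_pow, hev.neg_pow, hev2.neg_pow, hev2.neg_pow, ← pow_mul, ← pow_mul, ← pow_mul, ← pow_mul,
    ← pow_add, ← pow_add] at h2
  exact pow_ne _ (by omega) t ht h2

end Pool.Agent.L5helper83.TD
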