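import Mathlib

set_option autoImplicit false
open Polynomial MeasureTheory

namespace Pool.L5helper83.BP

/-- Cauchy's theorem on the triangle `0,1,ω` for polynomials -/
theorem tri_cauchy (ω : ℂ) (Q : ℂ[X]) :
    ∫ v in (0 : ℝ)..1, Q.eval (1 + (ω - 1) * (v : ℂ)) * (ω - 1) =
      (∫ x in (0 : ℝ)..1, Q.eval (ω * (x : ℂ)) * ω) - ∫ x in (0 : ℝ)..1, Q.eval (x : ℂ) := by
  have hint : ∀ (P : ℂ[X]) (a b c : ℂ), IntervalIntegrable
      (fun v : ℝ => P.eval (a + b * (v : ℂ)) * c) volume 0 1 := by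
    intro P a b c
    apply Continuous.intervalIntegrable
    have : Continuous (fun v : ℝ => P.eval (a + b * (v : ℂ))) :=
      P.continuous.comp (by fun_prop)
    exact this.mul continuous_const
  have hint2 : ∀ (P : ℂ[X]), IntervalIntegrable
      (fun v : ℝ => P.eval (v : ℂ)) volume 0 1 := by
    intro P
    apply Continuous.intervalIntegrable
    exact P.continuous.comp Complex.continuous_ofReal
  have hint3 : ∀ (P : ℂ[X]), IntervalIntegrable
      (fun v : ℝ => P.eval (ω * (v : ℂ)) * ω) volume 0 1 := by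
    intro P
    apply Continuous.intervalIntegrable
    have : Continuous (fun v : ℝ => P.eval (ω * (v : ℂ))) :=
      P.continuous.comp (by fun_prop)
    exact this.mul continuous_const
  have hpow : ∀ (n : ℕ) (a b : ℂ), ∫ v in (0 : ℝ)..1, (a + b * (v : ℂ)) ^ n * b =
      ((a + b) ^ (n + 1) - a ^ (n + 1)) / (n + 1) := by
    intro n a b
    have hder : ∀ v ∈ Set.uIcc (0 : ℝ) 1, HasDerivAt (fun v : ℝ => (a + b * (v : ℂ)) ^ (n + 1) / (n + 1))
        ((a + b * (v : ℂ)) ^ n * b) v := by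
      intro v _
      have h2 : HasDerivAt (fun t : ℝ => (t : ℂ)) 1 v := by
        simpa using (hasDerivAt_id v).ofReal_comp
      have h1 : HasDerivAt (fun t : ℝ => a + b * (t : ℂ)) b v := by
        simpa using (h2.const_mul b).const_add a
      have h3 := (h1.fun_pow (n + 1)).div_const ((n : ℂ) + 1)
      refine h3.congr_deriv ?_
      have hn : ((n : ℂ) + 1) ≠ 0 := by exact_mod_cast Nat.succ_ne_zero n
      rw [Nat.add_sub_cancel]
      push_cast
      field_simp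
    have hci : IntervalIntegrable (fun v : ℝ => (a + b * (v : ℂ)) ^ n * b) volume 0 1 := by
      apply Continuous.intervalIntegrable
      fun_prop
    rw [intervalIntegral.integral_eq_sub_of_hasDerivAt hder hci]
    simp
    ring
  induction Q using Polynomial.induction_on' with
  | add p q hp hq =>
    simp only [eval_add, add_mul]
    rw [intervalIntegral.integral_add (hint p _ _ _) (hint q _ _ _),
      intervalIntegral.integral_add (hint3 p) (hint3 q),
      intervalIntegral.integral_add (hint2 p) (hint2 q), hp, hq]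
    ring
  | monomial n a =>
    simp only [eval_monomial, mul_assoc]
    rw [intervalIntegral.integral_const_mul, intervalIntegral.integral_const_mul,
      intervalIntegral.integral_const_mul]
    have e1 := hpow n 1 (ω - 1)
    have e2 := hpow n 0 ω
    have e3 := hpow n 0 1
    simp only [zero_add, one_mul, mul_one] at e2 e3
    rw [e1, e2, e3]
    ring

/-- the one-dimensional identity -/
theorem one_dim (ω ωb : ℂ) (hω : ω * ωb = 1) (a m : ℕ) (ham : ω ^ a * ωb ^ m = 1) :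
    (ω - ωb) * ∫ v in (0 : ℝ)..1, (1 + (ω - 1) * (v : ℂ)) ^ a * (1 + (ωb - 1) * (v : ℂ)) ^ m =
    ((a + m + 2 : ℂ) / (m + 1)) * ∫ x in (0 : ℝ)..1, (x : ℂ) ^ a *
      ((1 + ω * ((1 - x : ℝ) : ℂ)) ^ (m + 1) - (1 + ωb * ((1 - x : ℝ) : ℂ)) ^ (m + 1)) := by
  have hm : ((m : ℂ) + 1) ≠ 0 := by exact_mod_cast Nat.succ_ne_zero m
  have hder : ∀ (b : ℂ) (v : ℝ), HasDerivAt (fun v : ℝ => (1 + b * (v : ℂ))) b v := by
    intro b v
    have h2 : HasDerivAt (fun t : ℝ => (t : ℂ)) 1 v := by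
      simpa using (hasDerivAt_id v).ofReal_comp
    simpa using (h2.const_mul b).const_add 1
  -- boundary identity
  have hbd : ∫ v in (0 : ℝ)..1, (((a : ℂ) + 1) * (1 + (ω - 1) * (v : ℂ)) ^ a * (ω - 1) *
      (1 + (ωb - 1) * (v : ℂ)) ^ (m + 1) + (1 + (ω - 1) * (v : ℂ)) ^ (a + 1) *
      (((m : ℂ) + 1) * (1 + (ωb - 1) * (v : ℂ)) ^ m * (ωb - 1))) = 0 := by
    have hd : ∀ v ∈ Set.uIcc (0 : ℝ) 1, HasDerivAt (fun v : ℝ => (1 + (ω - 1) * (v : ℂ)) ^ (a + 1) *
        (1 + (ωb - 1) * (v : ℂ)) ^ (m + 1))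
        (((a : ℂ) + 1) * (1 + (ω - 1) * (v : ℂ)) ^ a * (ω - 1) *
      (1 + (ωb - 1) * (v : ℂ)) ^ (m + 1) + (1 + (ω - 1) * (v : ℂ)) ^ (a + 1) *
      (((m : ℂ) + 1) * (1 + (ωb - 1) * (v : ℂ)) ^ m * (ωb - 1))) v := by
      intro v _
      have h1 := (hder (ω - 1) v).fun_pow (a + 1)
      have h2 := (hder (ωb - 1) v).fun_pow (m + 1)
      have h3 := h1.mul h2
      refine h3.congr_deriv ?_
      rw [Nat.add_sub_cancel, Nat.add_sub_cancel]
      push_cast
      ring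
    have hci : IntervalIntegrable (fun v : ℝ => (((a : ℂ) + 1) * (1 + (ω - 1) * (v : ℂ)) ^ a *
      (ω - 1) * (1 + (ωb - 1) * (v : ℂ)) ^ (m + 1) + (1 + (ω - 1) * (v : ℂ)) ^ (a + 1) *
      (((m : ℂ) + 1) * (1 + (ωb - 1) * (v : ℂ)) ^ m * (ωb - 1)))) volume 0 1 := by
      apply Continuous.intervalIntegrable
      fun_prop
    rw [intervalIntegral.integral_eq_sub_of_hasDerivAt hd hci]
    have : ω ^ (a + 1) * ωb ^ (m + 1) = 1 := by
      rw [pow_succ, pow_succ]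
      calc ω ^ a * ω * (ωb ^ m * ωb) = (ω ^ a * ωb ^ m) * (ω * ωb) := by ring
        _ = 1 := by rw [ham, hω, one_mul]
    simp [this]
  -- Cauchy
  set Q : ℂ[X] := X ^ a * (C 1 + C ωb * (1 - X)) ^ (m + 1) with hQ
  have hc := tri_cauchy ω Q
  have e1 : ∀ v : ℝ, Q.eval (1 + (ω - 1) * (v : ℂ)) * (ω - 1) =
      (1 + (ω - 1) * (v : ℂ)) ^ a * (1 + (ωb - 1) * (v : ℂ)) ^ (m + 1) * (ω - 1) := by
    intro v
    rw [hQ]
    simp only [eval_mul, eval_pow, eval_X, eval_add, eval_C, eval_sub, eval_one]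
    have : 1 + ωb * (1 - (1 + (ω - 1) * (v : ℂ))) = 1 + (ωb - 1) * (v : ℂ) := by
      linear_combination (-(v : ℂ)) * hω
    rw [this]
  have e2 : ∀ x : ℝ, Q.eval (ω * (x : ℂ)) * ω =
      (x : ℂ) ^ a * (1 + ω * ((1 - x : ℝ) : ℂ)) ^ (m + 1) := by
    intro x
    rw [hQ]
    simp only [eval_mul, eval_pow, eval_X, eval_add, eval_C, eval_sub, eval_one]
    have : 1 + ωb * (1 - ω * (x : ℂ)) = ωb * (1 + ω * ((1 - x : ℝ) : ℂ)) := by
      push_cast
      linear_combination (-1) * hω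
    rw [this, mul_pow, mul_pow]
    have h2 : ω ^ a * ωb ^ (m + 1) * ω = 1 := by
      rw [pow_succ]
      calc ω ^ a * (ωb ^ m * ωb) * ω = (ω ^ a * ωb ^ m) * (ω * ωb) := by ring
        _ = 1 := by rw [ham, hω, one_mul]
    linear_combination ((x : ℂ) ^ a * (1 + ω * ((1 - x : ℝ) : ℂ)) ^ (m + 1)) * h2
  have e3 : ∀ x : ℝ, Q.eval (x : ℂ) = (x : ℂ) ^ a * (1 + ωb * ((1 - x : ℝ) : ℂ)) ^ (m + 1) := by
    intro x
    rw [hQ]
    simp only [eval_mul, eval_pow, eval_X, eval_add, eval_C, eval_sub, eval_one]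
    push_cast
    ring
  simp_rw [e1, e2, e3] at hc
  rw [← intervalIntegral.integral_sub] at hc
  rotate_left
  · apply Continuous.intervalIntegrable; fun_prop
  · apply Continuous.intervalIntegrable; fun_prop
  have hc2 : ∫ x in (0 : ℝ)..1, (x : ℂ) ^ a *
      ((1 + ω * ((1 - x : ℝ) : ℂ)) ^ (m + 1) - (1 + ωb * ((1 - x : ℝ) : ℂ)) ^ (m + 1)) =
      ∫ v in (0 : ℝ)..1, (1 + (ω - 1) * (v : ℂ)) ^ a * (1 + (ωb - 1) * (v : ℂ)) ^ (m + 1) *
        (ω - 1) := by
    rw [hc]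
    congr 1
    funext x
    ring
  rw [hc2]
  rw [← intervalIntegral.integral_const_mul, ← intervalIntegral.integral_const_mul, ← sub_eq_zero,
    ← intervalIntegral.integral_sub]
  rotate_left
  · apply Continuous.intervalIntegrable; fun_prop
  · apply Continuous.intervalIntegrable; fun_prop
  have key : ∀ v : ℝ, (ω - ωb) * ((1 + (ω - 1) * (v : ℂ)) ^ a * (1 + (ωb - 1) * (v : ℂ)) ^ m) -
      ((a : ℂ) + m + 2) / (m + 1) * ((1 + (ω - 1) * (v : ℂ)) ^ a *
        (1 + (ωb - 1) * (v : ℂ)) ^ (m + 1) * (ω - 1)) =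
      (-1 / ((m : ℂ) + 1)) * (((a : ℂ) + 1) * (1 + (ω - 1) * (v : ℂ)) ^ a * (ω - 1) *
      (1 + (ωb - 1) * (v : ℂ)) ^ (m + 1) + (1 + (ω - 1) * (v : ℂ)) ^ (a + 1) *
      (((m : ℂ) + 1) * (1 + (ωb - 1) * (v : ℂ)) ^ m * (ωb - 1))) := by
    intro v
    have h1 : ω - ωb = (1 + (ωb - 1) * (v : ℂ)) * (ω - 1) - (1 + (ω - 1) * (v : ℂ)) * (ωb - 1) := by
      ring
    rw [h1]
    field_simp
    ring
  simp_rw [key]
  rw [intervalIntegral.integral_const_mul, hbd, mul_zero]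

end Pool.L5helper83.BP
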