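import Mathlib

set_option autoImplicit false
open MeasureTheory

namespace Pool.L5helper83.BP

/-- oblique coordinates -/
noncomputable def cY (ω z : ℂ) : ℝ := z.im / ω.im
noncomputable def cX (ω z : ℂ) : ℝ := z.re - ω.re * cY ω z

theorem coord_eq (ω : ℂ) (him : 0 < ω.im) (z : ℂ) : z = (cX ω z : ℂ) + ω * (cY ω z : ℂ) := by
  have h : ω.im * (z.im / ω.im) = z.im := mul_div_cancel₀ z.im him.ne'
  apply Complex.ext
  · simp [cX, cY]
  · simp [cX, cY]
    exact h.symm

theorem coord_add (ω : ℂ) (him : 0 < ω.im) (x y : ℝ) :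
    cX ω ((x : ℂ) + ω * (y : ℂ)) = x ∧ cY ω ((x : ℂ) + ω * (y : ℂ)) = y := by
  have h : ω.im * y / ω.im = y := mul_div_cancel_left₀ y him.ne'
  constructor
  · simp [cX, cY, h]
  · simp [cY, h]

theorem cX_continuous (ω : ℂ) : Continuous (cX ω) := by
  unfold cX cY
  fun_prop

theorem cY_continuous (ω : ℂ) : Continuous (cY ω) := by
  unfold cY
  fun_prop

theorem int_coords (ω : ℂ) (him : 0 < ω.im) (F : ℂ → ℂ) (hF : Integrable F)
    (hF2 : Integrable (fun p : ℝ × ℝ => F ((p.1 : ℂ) + (ω - 1) * (p.2 : ℂ)))) :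
    ∫ z, F z = (ω.im : ℂ) * ∫ σ : ℝ, ∫ y : ℝ, F ((σ : ℂ) + (ω - 1) * (y : ℂ)) := by
  rw [← (Complex.volume_preserving_equiv_real_prod.symm).integral_comp
    Complex.measurableEquivRealProd.symm.measurableEmbedding F]
  have hFc : Integrable (fun p : ℝ × ℝ => F (Complex.measurableEquivRealProd.symm p)) :=
    ((Complex.volume_preserving_equiv_real_prod.symm).integrable_comp_emb
      Complex.measurableEquivRealProd.symm.measurableEmbedding).mpr hF
  have h1 : ∫ p : ℝ × ℝ, F (Complex.measurableEquivRealProd.symm p) =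
      ∫ b : ℝ, ∫ a : ℝ, F (Complex.measurableEquivRealProd.symm (a, b)) :=
    integral_prod_symm _ hFc
  rw [h1]
  have h2 : ∀ b : ℝ, ∫ a : ℝ, F (Complex.measurableEquivRealProd.symm (a, b)) =
      ∫ σ : ℝ, F (Complex.measurableEquivRealProd.symm (σ - (1 - ω.re) * (b / ω.im), b)) := by
    intro b
    exact (integral_sub_right_eq_self
      (fun a => F (Complex.measurableEquivRealProd.symm (a, b))) ((1 - ω.re) * (b / ω.im))).symm
  simp_rw [h2]
  have h3 := Measure.integral_comp_mul_left (fun b : ℝ => ∫ σ : ℝ, F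
    (Complex.measurableEquivRealProd.symm (σ - (1 - ω.re) * (b / ω.im), b))) ω.im
  have h4 : ∀ (y σ : ℝ), F (Complex.measurableEquivRealProd.symm
      (σ - (1 - ω.re) * (ω.im * y / ω.im), ω.im * y)) = F ((σ : ℂ) + (ω - 1) * (y : ℂ)) := by
    intro y σ
    have h : ω.im * y / ω.im = y := mul_div_cancel_left₀ y him.ne'
    congr 1
    apply Complex.ext
    · simp [Complex.measurableEquivRealProd_symm_apply, h]
      ring
    · simp [Complex.measurableEquivRealProd_symm_apply]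
  simp_rw [h4] at h3
  have h5 : ∫ σ : ℝ, ∫ y : ℝ, F ((σ : ℂ) + (ω - 1) * (y : ℂ)) =
      ∫ y : ℝ, ∫ σ : ℝ, F ((σ : ℂ) + (ω - 1) * (y : ℂ)) :=
    integral_integral_swap hF2
  rw [h5, h3, abs_of_pos (inv_pos.mpr him), Complex.real_smul, ← mul_assoc]
  have h6 : (ω.im : ℂ) * ((ω.im⁻¹ : ℝ) : ℂ) = 1 := by
    rw [← Complex.ofReal_mul, mul_inv_cancel₀ him.ne', Complex.ofReal_one]
  rw [h6, one_mul]

/-- the triangle with vertices `0,1,ω` -/
def Tri (ω : ℂ) : Set ℂ := {z | 0 < cX ω z ∧ 0 ≤ cY ω z ∧ cX ω z + cY ω z ≤ 1}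

theorem Tri_measurable (ω : ℂ) : MeasurableSet (Tri ω) := by
  have h1 : MeasurableSet {z | 0 < cX ω z} := (isOpen_lt continuous_const (cX_continuous ω)).measurableSet
  have h2 : MeasurableSet {z | 0 ≤ cY ω z} :=
    (isClosed_le continuous_const (cY_continuous ω)).measurableSet
  have h3 : MeasurableSet {z | cX ω z + cY ω z ≤ 1} :=
    (isClosed_le ((cX_continuous ω).add (cY_continuous ω)) continuous_const).measurableSet
  exact h1.inter (h2.inter h3)

theorem Tri_subset (ω : ℂ) (him : 0 < ω.im) : Tri ω ⊆ Metric.closedBall 0 (1 + ‖ω‖) := by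
  intro z hz
  obtain ⟨h1, h2, h3⟩ := hz
  rw [Metric.mem_closedBall, dist_zero_right, coord_eq ω him z]
  calc ‖(cX ω z : ℂ) + ω * (cY ω z : ℂ)‖ ≤ ‖(cX ω z : ℂ)‖ + ‖ω * (cY ω z : ℂ)‖ := norm_add_le _ _
    _ = |cX ω z| + ‖ω‖ * |cY ω z| := by
      rw [norm_mul, Complex.norm_real, Complex.norm_real, Real.norm_eq_abs, Real.norm_eq_abs]
    _ ≤ 1 + ‖ω‖ * 1 := by
      rw [abs_of_pos h1, abs_of_nonneg h2]
      have := norm_nonneg ω
      gcongr
      · linarith
      · linarith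
    _ = _ := by rw [mul_one]

theorem cone (ω : ℂ) (him : 0 < ω.im) (g : ℂ → ℂ) (hg : Continuous g) (d : ℕ)
    (hhom : ∀ (s : ℝ) (w : ℂ), g ((s : ℂ) * w) = (s : ℂ) ^ d * g w) :
    ∫ z in Tri ω, g z = (ω.im : ℂ) * ((1 / (d + 2 : ℂ)) *
      ∫ v in (0 : ℝ)..1, g (1 + (ω - 1) * (v : ℂ))) := by
  classical
  set C := ∫ v in (0 : ℝ)..1, g (1 + (ω - 1) * (v : ℂ)) with hC
  rw [← integral_indicator (Tri_measurable ω)]
  have hF : Integrable ((Tri ω).indicator g) := by
    rw [integrable_indicator_iff (Tri_measurable ω)]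
    exact (hg.continuousOn.integrableOn_compact (isCompact_closedBall 0 (1 + ‖ω‖))).mono_set
      (Tri_subset ω him)
  set S' : Set (ℝ × ℝ) := {p | p.2 < p.1 ∧ 0 ≤ p.2 ∧ p.1 ≤ 1} with hS'
  have hmem : ∀ σ y : ℝ, ((σ : ℂ) + (ω - 1) * (y : ℂ) ∈ Tri ω ↔ (y < σ ∧ 0 ≤ y ∧ σ ≤ 1)) := by
    intro σ y
    have h1 : (σ : ℂ) + (ω - 1) * (y : ℂ) = ((σ - y : ℝ) : ℂ) + ω * (y : ℂ) := by
      push_cast; ring
    have h2 := coord_add ω him (σ - y) y
    rw [h1]
    simp only [Tri, Set.mem_ofPred_eq, h2.1, h2.2]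
    constructor
    · rintro ⟨a, b, c⟩; exact ⟨by linarith, b, by linarith⟩
    · rintro ⟨a, b, c⟩; exact ⟨by linarith, b, by linarith⟩
  have hind : ∀ σ y : ℝ, (Tri ω).indicator g ((σ : ℂ) + (ω - 1) * (y : ℂ)) =
      S'.indicator (fun p : ℝ × ℝ => g ((p.1 : ℂ) + (ω - 1) * (p.2 : ℂ))) (σ, y) := by
    intro σ y
    by_cases h : (y < σ ∧ 0 ≤ y ∧ σ ≤ 1)
    · rw [Set.indicator_of_mem ((hmem σ y).mpr h), Set.indicator_of_mem (by exact h)]
    · rw [Set.indicator_of_notMem (fun hh => h ((hmem σ y).mp hh)),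
        Set.indicator_of_notMem (by exact h)]
  have hS'm : MeasurableSet S' := by
    have h1 : MeasurableSet {p : ℝ × ℝ | p.2 < p.1} :=
      (isOpen_lt continuous_snd continuous_fst).measurableSet
    have h2 : MeasurableSet {p : ℝ × ℝ | 0 ≤ p.2} :=
      (isClosed_le continuous_const continuous_snd).measurableSet
    have h3 : MeasurableSet {p : ℝ × ℝ | p.1 ≤ 1} :=
      (isClosed_le continuous_fst continuous_const).measurableSet
    exact h1.inter (h2.inter h3)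
  have hF2 : Integrable (fun p : ℝ × ℝ => (Tri ω).indicator g ((p.1 : ℂ) + (ω - 1) * (p.2 : ℂ))) := by
    have : (fun p : ℝ × ℝ => (Tri ω).indicator g ((p.1 : ℂ) + (ω - 1) * (p.2 : ℂ))) =
      S'.indicator (fun p : ℝ × ℝ => g ((p.1 : ℂ) + (ω - 1) * (p.2 : ℂ))) := by
      funext p
      exact hind p.1 p.2
    rw [this, integrable_indicator_iff hS'm]
    have hc : Continuous (fun p : ℝ × ℝ => g ((p.1 : ℂ) + (ω - 1) * (p.2 : ℂ))) :=
      hg.comp (by fun_prop)
    refine (hc.continuousOn.integrableOn_compact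
      (isCompact_Icc (a := ((0 : ℝ), (0 : ℝ))) (b := ((1 : ℝ), (1 : ℝ))))).mono_set ?_
    rintro ⟨p1, p2⟩ ⟨h1, h2, h3⟩
    simp only at h1 h2 h3
    exact ⟨⟨by simp only; linarith, h2⟩, ⟨h3, by simp only; linarith⟩⟩
  rw [int_coords ω him _ hF hF2]
  congr 1
  -- inner integral
  have hinner : ∀ σ : ℝ, ∫ y : ℝ, (Tri ω).indicator g ((σ : ℂ) + (ω - 1) * (y : ℂ)) =
      (Set.Ioc (0 : ℝ) 1).indicator (fun σ : ℝ => (σ : ℂ) ^ (d + 1) * C) σ := by
    intro σ
    by_cases hσ : σ ∈ Set.Ioc (0 : ℝ) 1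
    · rw [Set.indicator_of_mem hσ]
      have h1 : (fun y : ℝ => (Tri ω).indicator g ((σ : ℂ) + (ω - 1) * (y : ℂ))) =
        (Set.Ico (0 : ℝ) σ).indicator (fun y : ℝ => g ((σ : ℂ) + (ω - 1) * (y : ℂ))) := by
        funext y
        by_cases hy : y ∈ Set.Ico (0 : ℝ) σ
        · rw [Set.indicator_of_mem hy, Set.indicator_of_mem ((hmem σ y).mpr ⟨hy.2, hy.1, hσ.2⟩)]
        · rw [Set.indicator_of_notMem hy, Set.indicator_of_notMem]
          intro h
          have := (hmem σ y).mp h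
          exact hy ⟨this.2.1, this.1⟩
      rw [h1, integral_indicator measurableSet_Ico, integral_Ico_eq_integral_Ioo,
        ← integral_Ioc_eq_integral_Ioo, ← intervalIntegral.integral_of_le hσ.1.le]
      have h2 : ∫ y in (0 : ℝ)..σ, g ((σ : ℂ) + (ω - 1) * (y : ℂ)) =
          σ • ∫ v in (0 : ℝ)..1, g ((σ : ℂ) + (ω - 1) * ((σ * v : ℝ) : ℂ)) := by
        have := intervalIntegral.smul_integral_comp_mul_left (a := 0) (b := 1)
          (fun y : ℝ => g ((σ : ℂ) + (ω - 1) * (y : ℂ))) σ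
        rw [this]; simp
      rw [h2]
      have h3 : ∀ v : ℝ, g ((σ : ℂ) + (ω - 1) * ((σ * v : ℝ) : ℂ)) =
          (σ : ℂ) ^ d * g (1 + (ω - 1) * (v : ℂ)) := by
        intro v
        rw [← hhom]
        congr 1
        push_cast; ring
      simp_rw [h3]
      rw [intervalIntegral.integral_const_mul, ← hC, Complex.real_smul, pow_succ]
      ring
    · rw [Set.indicator_of_notMem hσ]
      have h1 : ∀ y : ℝ, (Tri ω).indicator g ((σ : ℂ) + (ω - 1) * (y : ℂ)) = 0 := by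
        intro y
        rw [Set.indicator_of_notMem]
        intro h
        have := (hmem σ y).mp h
        exact hσ ⟨by linarith [this.1, this.2.1], this.2.2⟩
      simp_rw [h1]
      simp
  simp_rw [hinner]
  rw [integral_indicator measurableSet_Ioc, ← intervalIntegral.integral_of_le zero_le_one,
    intervalIntegral.integral_mul_const]
  congr 1
  have h1 : ∀ x : ℝ, (x : ℂ) ^ (d + 1) = ((x ^ (d + 1) : ℝ) : ℂ) := by
    intro x; push_cast; ring
  simp_rw [h1]
  rw [intervalIntegral.integral_ofReal, integral_pow]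
  push_cast
  simp
  ring

end Pool.L5helper83.BP
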