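import Mathlib
import Pool.Agent.L5helper83.BPInt1
import Pool.Agent.L5helper83.BPInt2

set_option autoImplicit false
open MeasureTheory

namespace Pool.L5helper83.BP

structure Geo (N : ℕ) (ω : ℂ) : Prop where
  hN : 1 ≤ N
  him : 0 < ω.im
  hpow : ω ^ N = 1
  hnorm : ‖ω‖ = 1
  hprim : ∀ a m : ℕ, ω ^ a * ((starRingEnd ℂ) ω) ^ m = 1 ↔ a ≡ m [MOD N]
  hsec : ∀ z : ℂ, z ≠ 0 → ∑ l ∈ Finset.range N,
    (if 0 < cX ω (ω ^ l * z) ∧ 0 ≤ cY ω (ω ^ l * z) then (1 : ℂ) else 0) = 1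
  hhalf : ∀ w : ℂ, w ^ N = 1 → cX ω w + cY ω w ≤ 1
  h0 : (0 : ℂ) ∈ convexHull ℝ {w : ℂ | w ^ N = 1}

/-- the closed polygon -/
def KN (N : ℕ) : Set ℂ := convexHull ℝ {w : ℂ | w ^ N = 1}

theorem roots_finite (N : ℕ) (hN : 1 ≤ N) : {w : ℂ | w ^ N = 1}.Finite := by
  refine (Polynomial.nthRoots N (1 : ℂ)).toFinset.finite_toSet.subset ?_
  intro w hw
  simp only [Finset.mem_coe, Multiset.mem_toFinset]
  rw [Polynomial.mem_nthRoots (by omega)]
  exact hw

theorem KN_compact (N : ℕ) (hN : 1 ≤ N) : IsCompact (KN N) :=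
  (roots_finite N hN).isCompact_convexHull ℝ

theorem KN_measurable (N : ℕ) (hN : 1 ≤ N) : MeasurableSet (KN N) :=
  (KN_compact N hN).isClosed.measurableSet

theorem interior_ae (N : ℕ) : (interior (KN N) : Set ℂ) =ᵐ[volume] KN N :=
  interior_ae_eq_of_null_frontier ((convex_convexHull ℝ _).addHaar_frontier volume)

theorem KN_mul {N : ℕ} {ω : ℂ} (hpow : ω ^ N = 1) {z : ℂ} (hz : z ∈ KN N) : ω * z ∈ KN N := by
  have h1 : KN N ⊆ {z : ℂ | ω * z ∈ KN N} := by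
    apply convexHull_min
    · intro w hw
      apply subset_convexHull
      simp only [Set.mem_ofPred_eq] at hw ⊢
      rw [mul_pow, hpow, hw, one_mul]
    · have : Convex ℝ (KN N) := convex_convexHull ℝ _
      exact this.linear_preimage (LinearMap.mulLeft ℝ ω)
  exact h1 hz

theorem KN_mul_iff {N : ℕ} (hN : 1 ≤ N) {ω : ℂ} (hpow : ω ^ N = 1) (z : ℂ) :
    ω * z ∈ KN N ↔ z ∈ KN N := by
  constructor
  · intro h
    have h2 : ω ^ (N - 1) * (ω * z) ∈ KN N := by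
      apply KN_mul _ h
      rw [← pow_mul, mul_comm, pow_mul, hpow, one_pow]
    have h3 : ω ^ (N - 1) * (ω * z) = z := by
      rw [← mul_assoc, ← pow_succ, Nat.sub_add_cancel hN, hpow, one_mul]
    rwa [h3] at h2
  · exact KN_mul hpow

theorem KN_mul_pow_iff {N : ℕ} (hN : 1 ≤ N) {ω : ℂ} (hpow : ω ^ N = 1) (l : ℕ) (z : ℂ) :
    ω ^ l * z ∈ KN N ↔ z ∈ KN N :=
  KN_mul_iff hN (by rw [← pow_mul, mul_comm, pow_mul, hpow, one_pow]) z

theorem convex_halfplane (ω : ℂ) : Convex ℝ {z : ℂ | cX ω z + cY ω z ≤ 1} := by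
  have : {z : ℂ | cX ω z + cY ω z ≤ 1} =
      {z : ℂ | (Complex.reLm + ((1 - ω.re) / ω.im) • Complex.imLm : ℂ →ₗ[ℝ] ℝ) z ≤ 1} := by
    ext z
    simp only [Set.mem_ofPred_eq, LinearMap.add_apply, LinearMap.smul_apply, Complex.reLm_coe,
      Complex.imLm_coe, smul_eq_mul]
    have : cX ω z + cY ω z = z.re + (1 - ω.re) / ω.im * z.im := by
      unfold cX cY; ring
    rw [this]
  rw [this]
  exact convex_halfSpace_le (LinearMap.isLinear _) 1

theorem mem_Tri_iff {N : ℕ} {ω : ℂ} (h : Geo N ω) (z : ℂ) :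
    z ∈ Tri ω ↔ z ∈ KN N ∧ (0 < cX ω z ∧ 0 ≤ cY ω z) := by
  constructor
  · rintro ⟨h1, h2, h3⟩
    refine ⟨?_, h1, h2⟩
    have h1' : (1 : ℂ) ∈ KN N := subset_convexHull ℝ _ (by simp)
    have hω : ω ∈ KN N := subset_convexHull ℝ _ h.hpow
    have hconv : Convex ℝ (KN N) := convex_convexHull ℝ _
    have h0 : (0 : ℂ) ∈ KN N := h.h0
    rw [coord_eq ω h.him z]
    -- (1 - X - Y) • 0 + X • 1 + Y • ω
    rcases eq_or_lt_of_le (add_nonneg h1.le h2) with h4 | h4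
    · have hX : cX ω z = 0 := by linarith
      have hY : cY ω z = 0 := by linarith
      rw [hX, hY]; simpa using h0
    · have hpt : (cX ω z / (cX ω z + cY ω z)) • (1 : ℂ) + (cY ω z / (cX ω z + cY ω z)) • ω ∈ KN N := by
        apply hconv h1' hω (by positivity) (by positivity)
        rw [← add_div, div_self h4.ne']
      have h5 := hconv.smul_mem_of_zero_mem h0 hpt ⟨h4.le, h3⟩
      convert h5 using 1
      rw [smul_add, smul_smul, smul_smul, mul_div_cancel₀ _ h4.ne', mul_div_cancel₀ _ h4.ne',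
        Complex.real_smul, Complex.real_smul, mul_one, mul_comm (cY ω z : ℂ) ω]
  · rintro ⟨h1, h2, h3⟩
    refine ⟨h2, h3, ?_⟩
    have : KN N ⊆ {z : ℂ | cX ω z + cY ω z ≤ 1} :=
      convexHull_min (fun w hw => h.hhalf w hw) (convex_halfplane ω)
    exact this h1

theorem integral_rot (c : ℂ) (hc : ‖c‖ = 1) (F : ℂ → ℂ) : ∫ z, F (c * z) = ∫ z, F z := by
  set r := rotation (⟨c, mem_sphere_zero_iff_norm.mpr hc⟩ : Circle) with hr
  have h1 := (r.measurePreserving).integral_comp r.toHomeomorph.measurableEmbedding F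
  rw [← h1]
  rfl

theorem integrable_rot (c : ℂ) (hc : ‖c‖ = 1) (F : ℂ → ℂ) (hF : Integrable F) :
    Integrable (fun z => F (c * z)) := by
  set r := rotation (⟨c, mem_sphere_zero_iff_norm.mpr hc⟩ : Circle) with hr
  exact ((r.measurePreserving).integrable_comp_emb r.toHomeomorph.measurableEmbedding).mpr hF

theorem int_KN_sym {N : ℕ} {ω : ℂ} (h : Geo N ω) (g : ℂ → ℂ) (hg : Continuous g)
    (hsym : ∀ z, g (ω * z) = g z) : ∫ z in KN N, g z = (N : ℂ) * ∫ z in Tri ω, g z := by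
  classical
  rw [← integral_indicator (KN_measurable N h.hN), ← integral_indicator (Tri_measurable ω)]
  have hsymp : ∀ (l : ℕ) (z : ℂ), g (ω ^ l * z) = g z := by
    intro l
    induction l with
    | zero => intro z; simp
    | succ l ih => intro z; rw [pow_succ', mul_assoc, hsym, ih]
  have hTri : ∀ (l : ℕ) (z : ℂ), (Tri ω).indicator g (ω ^ l * z) =
      (if 0 < cX ω (ω ^ l * z) ∧ 0 ≤ cY ω (ω ^ l * z) then (1 : ℂ) else 0) *
        (KN N).indicator g z := by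
    intro l z
    by_cases h1 : z ∈ KN N
    · have h1' := (KN_mul_pow_iff h.hN h.hpow l z).mpr h1
      by_cases h2 : 0 < cX ω (ω ^ l * z) ∧ 0 ≤ cY ω (ω ^ l * z)
      · rw [if_pos h2, Set.indicator_of_mem ((mem_Tri_iff h _).mpr ⟨h1', h2⟩),
          Set.indicator_of_mem h1, hsymp, one_mul]
      · rw [if_neg h2, Set.indicator_of_notMem, zero_mul]
        intro h3
        exact h2 ((mem_Tri_iff h _).mp h3).2
    · rw [Set.indicator_of_notMem h1, mul_zero, Set.indicator_of_notMem]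
      intro h3
      exact h1 ((KN_mul_pow_iff h.hN h.hpow l z).mp ((mem_Tri_iff h _).mp h3).1)
  have hnl : ∀ l : ℕ, ‖ω ^ l‖ = 1 := by intro l; rw [norm_pow, h.hnorm, one_pow]
  have hF : Integrable ((Tri ω).indicator g) := by
    rw [integrable_indicator_iff (Tri_measurable ω)]
    exact (hg.continuousOn.integrableOn_compact (isCompact_closedBall 0 (1 + ‖ω‖))).mono_set
      (Tri_subset ω h.him)
  have h1 : ∀ᵐ z : ℂ, (KN N).indicator g z =
      ∑ l ∈ Finset.range N, (Tri ω).indicator g (ω ^ l * z) := by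
    have hz : ∀ᵐ z : ℂ, z ≠ 0 := by
      rw [ae_iff]
      simp
    filter_upwards [hz] with z hz
    simp_rw [hTri]
    rw [← Finset.sum_mul, h.hsec z hz, one_mul]
  rw [integral_congr_ae h1, integral_finsetSum]
  · have : ∀ l ∈ Finset.range N, ∫ z, (Tri ω).indicator g (ω ^ l * z) =
        ∫ z, (Tri ω).indicator g z := fun l _ => integral_rot (ω ^ l) (hnl l) _
    rw [Finset.sum_congr rfl this, Finset.sum_const, Finset.card_range, nsmul_eq_mul]
  · intro l _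
    exact integrable_rot (ω ^ l) (hnl l) _ hF

theorem int_KN_zero {N : ℕ} {ω : ℂ} (h : Geo N ω) (g : ℂ → ℂ) (lam : ℂ) (hlam : lam ≠ 1)
    (hsym : ∀ z, g (ω * z) = lam * g z) : ∫ z in KN N, g z = 0 := by
  classical
  rw [← integral_indicator (KN_measurable N h.hN)]
  have h1 := integral_rot ω h.hnorm ((KN N).indicator g)
  have h2 : ∀ z, (KN N).indicator g (ω * z) = lam * (KN N).indicator g z := by
    intro z
    by_cases hz : z ∈ KN N
    · rw [Set.indicator_of_mem hz, Set.indicator_of_mem ((KN_mul_iff h.hN h.hpow z).mpr hz), hsym]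
    · rw [Set.indicator_of_notMem hz, mul_zero, Set.indicator_of_notMem]
      intro h3
      exact hz ((KN_mul_iff h.hN h.hpow z).mp h3)
  simp_rw [h2] at h1
  rw [integral_const_mul] at h1
  have h3 : (lam - 1) * ∫ z, (KN N).indicator g z = 0 := by
    rw [sub_mul, h1, one_mul, sub_self]
  rcases mul_eq_zero.mp h3 with h4 | h4
  · exact absurd (sub_eq_zero.mp h4) hlam
  · exact h4

theorem conj_rot {ω : ℂ} (hn : ‖ω‖ = 1) : ω * (starRingEnd ℂ) ω = 1 := by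
  rw [Complex.mul_conj, Complex.normSq_eq_norm_sq, hn]; simp

theorem tri_monomial {N : ℕ} {ω : ℂ} (h : Geo N ω) (a m : ℕ) (ham : a ≡ m [MOD N]) :
    ∫ z in Tri ω, z ^ a * ((starRingEnd ℂ) z) ^ m =
      (1 / (m + 1 : ℂ)) * ((∫ x in (0 : ℝ)..1,
        x ^ a * ((1 + ω * ((1 - x : ℝ) : ℂ)) ^ (m + 1)).im : ℝ) : ℂ) := by
  have hg : Continuous (fun z : ℂ => z ^ a * ((starRingEnd ℂ) z) ^ m) :=
    (continuous_pow a).mul (Complex.continuous_conj.pow m)
  rw [cone ω h.him _ hg (a + m) (by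
    intro s w
    rw [map_mul, Complex.conj_ofReal]
    ring)]
  have h1 := one_dim ω ((starRingEnd ℂ) ω) (conj_rot h.hnorm) a m ((h.hprim a m).mpr ham)
  have h2 : ∀ v : ℝ, (starRingEnd ℂ) (1 + (ω - 1) * (v : ℂ)) =
      1 + ((starRingEnd ℂ) ω - 1) * (v : ℂ) := by
    intro v
    simp
  simp_rw [h2]
  set C := ∫ v in (0 : ℝ)..1, (1 + (ω - 1) * (v : ℂ)) ^ a *
    (1 + ((starRingEnd ℂ) ω - 1) * (v : ℂ)) ^ m with hC
  have h3 : ∀ x : ℝ, (x : ℂ) ^ a * ((1 + ω * ((1 - x : ℝ) : ℂ)) ^ (m + 1) -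
      (1 + (starRingEnd ℂ) ω * ((1 - x : ℝ) : ℂ)) ^ (m + 1)) =
      2 * Complex.I * ((x ^ a * ((1 + ω * ((1 - x : ℝ) : ℂ)) ^ (m + 1)).im : ℝ) : ℂ) := by
    intro x
    have h4 : (1 + (starRingEnd ℂ) ω * ((1 - x : ℝ) : ℂ)) ^ (m + 1) =
      (starRingEnd ℂ) ((1 + ω * ((1 - x : ℝ) : ℂ)) ^ (m + 1)) := by
      rw [map_pow, map_add, map_mul, Complex.conj_ofReal, map_one]
    rw [h4, Complex.sub_conj]
    push_cast
    ring
  simp_rw [h3] at h1
  rw [intervalIntegral.integral_const_mul, intervalIntegral.integral_ofReal, Complex.sub_conj] at h1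
  set J : ℝ := ∫ x in (0 : ℝ)..1, x ^ a * ((1 + ω * ((1 - x : ℝ) : ℂ)) ^ (m + 1)).im with hJ
  have hm : ((m : ℂ) + 1) ≠ 0 := by exact_mod_cast Nat.succ_ne_zero m
  have ham2 : ((a : ℂ) + m + 2) ≠ 0 := by
    have : ((a + m + 2 : ℕ) : ℂ) ≠ 0 := by exact_mod_cast Nat.succ_ne_zero (a + m + 1)
    push_cast at this; exact this
  have h5 : (ω.im : ℂ) * C = ((a : ℂ) + m + 2) / (m + 1) * (J : ℂ) := by
    have hI : (2 : ℂ) * Complex.I ≠ 0 := by simp
    apply mul_left_cancel₀ hI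
    push_cast at h1
    linear_combination h1
  push_cast
  have h6 : (ω.im : ℂ) * (1 / ((a : ℂ) + (m : ℂ) + 2) * C) =
    1 / ((a : ℂ) + (m : ℂ) + 2) * ((ω.im : ℂ) * C) := by ring
  rw [h6, h5]
  field_simp

theorem area_monomial {N : ℕ} {ω : ℂ} (h : Geo N ω) (a m : ℕ) :
    ∫ z in interior (convexHull ℝ {w : ℂ | w ^ N = 1}), z ^ a * ((starRingEnd ℂ) z) ^ m =
      if a ≡ m [MOD N] then ((N : ℂ) / (m + 1 : ℂ)) * ((∫ x in (0 : ℝ)..1,
        x ^ a * ((1 + ω * ((1 - x : ℝ) : ℂ)) ^ (m + 1)).im : ℝ) : ℂ) else 0 := by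
  have h0 : ∫ z in interior (convexHull ℝ {w : ℂ | w ^ N = 1}), z ^ a * ((starRingEnd ℂ) z) ^ m =
      ∫ z in KN N, z ^ a * ((starRingEnd ℂ) z) ^ m := setIntegral_congr_set (interior_ae N)
  rw [h0]
  have hg : Continuous (fun z : ℂ => z ^ a * ((starRingEnd ℂ) z) ^ m) :=
    (continuous_pow a).mul (Complex.continuous_conj.pow m)
  have hrot : ∀ z : ℂ, (ω * z) ^ a * ((starRingEnd ℂ) (ω * z)) ^ m =
      (ω ^ a * ((starRingEnd ℂ) ω) ^ m) * (z ^ a * ((starRingEnd ℂ) z) ^ m) := by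
    intro z
    rw [map_mul]; ring
  split_ifs with ham
  · rw [int_KN_sym h _ hg, tri_monomial h a m ham]
    · ring
    · intro z
      rw [hrot, (h.hprim a m).mpr ham, one_mul]
  · exact int_KN_zero h _ (ω ^ a * ((starRingEnd ℂ) ω) ^ m) (fun hh => ham ((h.hprim a m).mp hh)) hrot

end Pool.L5helper83.BP
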