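import Mathlib
import Pool.Agent.L5helper83.BPInt3

set_option autoImplicit false
open MeasureTheory

namespace Pool.L5helper83.BP

theorem prim_iff {N : ℕ} {ω : ℂ} (hord : orderOf ω = N) (hn : ‖ω‖ = 1) (a m : ℕ) :
    ω ^ a * ((starRingEnd ℂ) ω) ^ m = 1 ↔ a ≡ m [MOD N] := by
  have hc := conj_rot hn
  have hω : ω ≠ 0 := by
    intro h; rw [h] at hn; simp at hn
  have h1 : ω ^ m * ((starRingEnd ℂ) ω) ^ m = 1 := by rw [← mul_pow, hc, one_pow]
  have h2 : ((starRingEnd ℂ) ω) ^ m ≠ 0 := right_ne_zero_of_mul (by rw [h1]; exact one_ne_zero)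
  have hu : ω ^ a = ω ^ m ↔ a ≡ m [MOD N] := by
    have h3 : (Units.mk0 ω hω) ^ a = (Units.mk0 ω hω) ^ m ↔ a ≡ m [MOD orderOf (Units.mk0 ω hω)] :=
      pow_eq_pow_iff_modEq
    rw [← orderOf_units, Units.val_mk0, hord] at h3
    rw [← h3, Units.ext_iff]
    simp
  rw [← hu]
  constructor
  · intro h
    exact mul_right_cancel₀ h2 (h.trans h1.symm)
  · intro h
    rw [h, h1]

theorem geo4 : Geo 4 Complex.I where
  hN := by norm_num
  him := by simp
  hpow := by simp
  hnorm := by simp
  hprim := by
    apply prim_iff _ (by simp)
    have : orderOf Complex.I = 2 ^ (1 + 1) := by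
      apply orderOf_eq_prime_pow
      · simp
        intro h
        have := congrArg Complex.re h
        norm_num at this
      · simp
    rw [this]; norm_num
  hsec := by
    intro z hz
    have hX : ∀ w : ℂ, cX Complex.I w = w.re := by intro w; simp [cX, cY]
    have hY : ∀ w : ℂ, cY Complex.I w = w.im := by intro w; simp [cY]
    have hI3 : Complex.I ^ 3 = -Complex.I := by
      rw [pow_succ, Complex.I_sq]; ring
    simp only [hX, hY, Finset.sum_range_succ, Finset.sum_range_zero, zero_add, pow_zero, one_mul,
      pow_one, Complex.I_sq, hI3, Complex.mul_re, Complex.mul_im, Complex.I_re, Complex.I_im,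
      Complex.neg_re, Complex.neg_im, Complex.one_re, Complex.one_im]
    have hne : z.re ≠ 0 ∨ z.im ≠ 0 := by
      by_contra h
      push Not at h
      exact hz (Complex.ext h.1 h.2)
    set x := z.re
    set y := z.im
    have e0 : x - 0 * y = x := by ring
    have e0' : y + 0 * x = y := by ring
    have e1 : (0 * x - y) = -y := by ring
    have e2 : (0 * y + x) = x := by ring
    have e3 : (-1 * x - -0 * y) = -x := by ring
    have e4 : (-1 * y + -0 * x) = -y := by ring
    have e5 : (-0 * x - -1 * y) = y := by ring
    have e6 : (-0 * y + -1 * x) = -x := by ring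
    rw [e0, e0', e1, e2, e3, e4, e5, e6]
    rcases lt_trichotomy x 0 with hx | hx | hx
    · rcases lt_trichotomy y 0 with hy | hy | hy
      · rw [if_neg (fun h => by linarith [h.1]), if_neg (fun h => by linarith [h.2]),
          if_pos ⟨by linarith, by linarith⟩, if_neg (fun h => by linarith [h.1])]
        norm_num
      · rw [if_neg (fun h => by linarith [h.1]), if_neg (fun h => by linarith [h.2]),
          if_pos ⟨by linarith, by linarith⟩, if_neg (fun h => by linarith [h.1])]
        norm_num
      · rw [if_neg (fun h => by linarith [h.1]), if_neg (fun h => by linarith [h.2]),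
          if_neg (fun h => by linarith [h.2]), if_pos ⟨by linarith, by linarith⟩]
        norm_num
    · rcases lt_trichotomy y 0 with hy | hy | hy
      · rw [if_neg (fun h => by linarith [h.1]), if_pos ⟨by linarith, by linarith⟩,
          if_neg (fun h => by linarith [h.1]), if_neg (fun h => by linarith [h.1])]
        norm_num
      · rcases hne with h | h
        · exact absurd hx h
        · exact absurd hy h
      · rw [if_neg (fun h => by linarith [h.1]), if_neg (fun h => by linarith [h.1]),
          if_neg (fun h => by linarith [h.1]), if_pos ⟨by linarith, by linarith⟩]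
        norm_num
    · rcases lt_trichotomy y 0 with hy | hy | hy
      · rw [if_neg (fun h => by linarith [h.2]), if_pos ⟨by linarith, by linarith⟩,
          if_neg (fun h => by linarith [h.1]), if_neg (fun h => by linarith [h.1])]
        norm_num
      · rw [if_pos ⟨by linarith, by linarith⟩, if_neg (fun h => by linarith [h.1]),
          if_neg (fun h => by linarith [h.1]), if_neg (fun h => by linarith [h.1])]
        norm_num
      · rw [if_pos ⟨by linarith, by linarith⟩, if_neg (fun h => by linarith [h.1]),
          if_neg (fun h => by linarith [h.1]), if_neg (fun h => by linarith [h.2])]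
        norm_num
  hhalf := by
    intro w hw
    have hX : cX Complex.I w = w.re := by simp [cX, cY]
    have hY : cY Complex.I w = w.im := by simp [cY]
    rw [hX, hY]
    have h1 : (w - 1) * (w + 1) * ((w - Complex.I) * (w + Complex.I)) = 0 := by
      have : (w - Complex.I) * (w + Complex.I) = w ^ 2 + 1 := by
        linear_combination -Complex.I_sq
      rw [this]
      linear_combination hw
    rcases mul_eq_zero.mp h1 with h2 | h2
    · rcases mul_eq_zero.mp h2 with h3 | h3
      · rw [sub_eq_zero.mp h3]; simp
      · rw [eq_neg_of_add_eq_zero_left h3]; simp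
    · rcases mul_eq_zero.mp h2 with h3 | h3
      · rw [sub_eq_zero.mp h3]; simp
      · rw [eq_neg_of_add_eq_zero_left h3]; simp
  h0 := by
    have h1 : (1 : ℂ) ∈ convexHull ℝ {w : ℂ | w ^ 4 = 1} := subset_convexHull ℝ _ (by simp)
    have h2 : (-1 : ℂ) ∈ convexHull ℝ {w : ℂ | w ^ 4 = 1} :=
      subset_convexHull ℝ _ (by simp only [Set.mem_ofPred_eq]; norm_num)
    have h3 := (convex_convexHull ℝ {w : ℂ | w ^ 4 = 1}) h1 h2
      (by norm_num : (0 : ℝ) ≤ 1 / 2) (by norm_num : (0 : ℝ) ≤ 1 / 2) (by norm_num)
    convert h3 using 1
    simp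

theorem geo3 (ω : ℂ) (hω : ω ^ 2 + ω + 1 = 0) (him : 0 < ω.im) : Geo 3 ω where
  hN := by norm_num
  him := him
  hpow := by linear_combination (ω - 1) * hω
  hnorm := by
    have e1 := congrArg Complex.im hω
    have e2 := congrArg Complex.re hω
    simp [sq, Complex.mul_im, Complex.mul_re] at e1 e2
    have hre : ω.re = -1 / 2 := by
      have : ω.im * (2 * ω.re + 1) = 0 := by linarith
      rcases mul_eq_zero.mp this with h | h
      · exact absurd h him.ne'
      · linarith
    have hns : Complex.normSq ω = 1 := by
      rw [Complex.normSq_apply]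
      rw [hre] at e2 ⊢
      linarith
    rw [Complex.normSq_eq_norm_sq] at hns
    have := norm_nonneg ω
    nlinarith [hns, this]
  hprim := by
    have hn : ‖ω‖ = 1 := by
      have e1 := congrArg Complex.im hω
      have e2 := congrArg Complex.re hω
      simp [sq, Complex.mul_im, Complex.mul_re] at e1 e2
      have hre : ω.re = -1 / 2 := by
        have : ω.im * (2 * ω.re + 1) = 0 := by linarith
        rcases mul_eq_zero.mp this with h | h
        · exact absurd h him.ne'
        · linarith
      have hns : Complex.normSq ω = 1 := by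
        rw [Complex.normSq_apply]
        rw [hre] at e2 ⊢
        linarith
      rw [Complex.normSq_eq_norm_sq] at hns
      have := norm_nonneg ω
      nlinarith [hns, this]
    apply prim_iff _ hn
    apply orderOf_eq_prime
    · linear_combination (ω - 1) * hω
    · rintro rfl
      simp at him
  hsec := by
    intro z hz
    have hc1 : ∀ w : ℂ, cX ω (ω * w) = - cY ω w ∧ cY ω (ω * w) = cX ω w - cY ω w := by
      intro w
      have h1 : ω * w = ((- cY ω w : ℝ) : ℂ) + ω * ((cX ω w - cY ω w : ℝ) : ℂ) := by
        conv_lhs => rw [coord_eq ω him w]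
        push_cast
        linear_combination (cY ω w : ℂ) * hω
      have h2 := coord_add ω him (- cY ω w) (cX ω w - cY ω w)
      rw [← h1] at h2
      exact h2
    have hpow2 : ω ^ 2 * z = ω * (ω * z) := by ring
    simp only [Finset.sum_range_succ, Finset.sum_range_zero, zero_add, pow_zero, one_mul,
      pow_one, hpow2, (hc1 _).1, (hc1 _).2]
    have hne : cX ω z ≠ 0 ∨ cY ω z ≠ 0 := by
      by_contra h
      push Not at h
      apply hz
      rw [coord_eq ω him z, h.1, h.2]
      simp
    set x := cX ω z
    set y := cY ω z
    by_cases h1 : 0 < x ∧ 0 ≤ y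
    · rw [if_pos h1, if_neg (fun h => by linarith [h.1]), if_neg (fun h => by linarith [h.2, h1.1])]
      norm_num
    · rw [if_neg h1]
      by_cases h2 : 0 < -y ∧ 0 ≤ x - y
      · rw [if_pos h2, if_neg (fun h => by linarith [h.1, h2.2])]
        norm_num
      · rw [if_neg h2, if_pos]
        · norm_num
        · rcases le_or_gt 0 y with hy | hy
          · have hx : x ≤ 0 := by
              by_contra hx
              push Not at hx
              exact h1 ⟨hx, hy⟩
            rcases hne with h | h
            · have : x < 0 := lt_of_le_of_ne hx h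
              constructor <;> linarith
            · have : 0 < y := lt_of_le_of_ne hy (Ne.symm h)
              constructor <;> linarith
          · have hx : x - y < 0 := by
              by_contra hx
              push Not at hx
              exact h2 ⟨by linarith, hx⟩
            constructor <;> linarith
  hhalf := by
    intro w hw
    have h1 : (w - 1) * ((w - ω) * (w + 1 + ω)) = 0 := by
      linear_combination hw - (w - 1) * hω
    rcases mul_eq_zero.mp h1 with h2 | h2
    · have := coord_add ω him 1 0
      have hw1 : w = ((1 : ℝ) : ℂ) + ω * ((0 : ℝ) : ℂ) := by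
        rw [sub_eq_zero.mp h2]; simp
      rw [hw1, this.1, this.2]; norm_num
    · rcases mul_eq_zero.mp h2 with h3 | h3
      · have := coord_add ω him 0 1
        have hw1 : w = ((0 : ℝ) : ℂ) + ω * ((1 : ℝ) : ℂ) := by
          rw [sub_eq_zero.mp h3]; simp
        rw [hw1, this.1, this.2]; norm_num
      · have := coord_add ω him (-1) (-1)
        have hw1 : w = ((-1 : ℝ) : ℂ) + ω * ((-1 : ℝ) : ℂ) := by
          push_cast
          linear_combination h3
        rw [hw1, this.1, this.2]; norm_num
  h0 := by
    have hp : ω ^ 3 = 1 := by linear_combination (ω - 1) * hω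
    have h1 : (1 : ℂ) ∈ convexHull ℝ {w : ℂ | w ^ 3 = 1} := subset_convexHull ℝ _ (by simp)
    have h2 : ω ∈ convexHull ℝ {w : ℂ | w ^ 3 = 1} := subset_convexHull ℝ _ hp
    have h3 : ω ^ 2 ∈ convexHull ℝ {w : ℂ | w ^ 3 = 1} :=
      subset_convexHull ℝ _ (by
        simp only [Set.mem_ofPred_eq]
        rw [← pow_mul, mul_comm, pow_mul, hp, one_pow])
    have h4 := (convex_convexHull ℝ {w : ℂ | w ^ 3 = 1}) h1 h2
      (by norm_num : (0 : ℝ) ≤ 1 / 2) (by norm_num : (0 : ℝ) ≤ 1 / 2) (by norm_num)
    have h5 := (convex_convexHull ℝ {w : ℂ | w ^ 3 = 1}) h4 h3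
      (by norm_num : (0 : ℝ) ≤ 2 / 3) (by norm_num : (0 : ℝ) ≤ 1 / 3) (by norm_num)
    convert h5 using 1
    simp only [Complex.real_smul]
    push_cast
    linear_combination (-1 / 3) * hω

end Pool.L5helper83.BP
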