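import Mathlib

set_option autoImplicit false

namespace Pool.L5helper83.BP

/-- `f` admits a weakly alternating sequence of `n` points in `(0,1)`. -/
def WA (f : ℝ → ℝ) (n : ℕ) : Prop :=
  ∃ (x : ℕ → ℝ) (s : ℝ), (s = 1 ∨ s = -1) ∧ (∀ i, i < n → 0 < x i ∧ x i < 1) ∧
    (∀ i, i + 1 < n → x i < x (i + 1)) ∧ ∀ i, i < n → 0 ≤ s * (-1) ^ i * f (x i)

theorem WA_of_closed {f f' : ℝ → ℝ} (hf : ∀ x, HasDerivAt f (f' x) x) (n : ℕ) (x : ℕ → ℝ)
    (s : ℝ) (hs : s = 1 ∨ s = -1) (h01 : ∀ i, i < n + 1 → 0 ≤ x i ∧ x i ≤ 1)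
    (hx : ∀ i, i < n → x i < x (i + 1)) (hsgn : ∀ i, i < n + 1 → 0 ≤ s * (-1) ^ i * f (x i)) :
    WA f' n := by
  have key : ∀ i, ∃ ξ, i < n → (x i < ξ ∧ ξ < x (i + 1) ∧
      f' ξ = (f (x (i + 1)) - f (x i)) / (x (i + 1) - x i)) := by
    intro i
    by_cases hi : i < n
    · have hc : ContinuousOn f (Set.Icc (x i) (x (i + 1))) :=
        fun y _ => (hf y).continuousAt.continuousWithinAt
      obtain ⟨ξ, hξ, hξ'⟩ := exists_hasDerivAt_eq_slope f f' (hx i hi) hc (fun y _ => hf y)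
      exact ⟨ξ, fun _ => ⟨hξ.1, hξ.2, hξ'⟩⟩
    · exact ⟨0, fun h => absurd h hi⟩
  choose ξ hξ using key
  refine ⟨ξ, -s, ?_, ?_, ?_, ?_⟩
  · rcases hs with h | h <;> simp [h]
  · intro i hi
    obtain ⟨h1, h2, _⟩ := hξ i hi
    exact ⟨lt_of_le_of_lt (h01 i (by omega)).1 h1, lt_of_lt_of_le h2 (h01 (i + 1) (by omega)).2⟩
  · intro i hi
    exact lt_trans (hξ i (by omega)).2.1 (hξ (i + 1) hi).1
  · intro i hi
    obtain ⟨_, _, h3⟩ := hξ i hi
    have ha := hsgn i (by omega)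
    have hb := hsgn (i + 1) (by omega)
    have hpos : 0 < x (i + 1) - x i := sub_pos.mpr (hx i hi)
    rw [h3]
    have : -s * (-1) ^ i * ((f (x (i + 1)) - f (x i)) / (x (i + 1) - x i)) =
      (s * (-1) ^ (i + 1) * f (x (i + 1)) + s * (-1) ^ i * f (x i)) / (x (i + 1) - x i) := by
      rw [pow_succ]; ring
    rw [this]
    positivity

theorem WA.deriv {f f' : ℝ → ℝ} (hf : ∀ x, HasDerivAt f (f' x) x) {n : ℕ} (h : WA f (n + 1)) :
    WA f' n := by
  obtain ⟨x, s, hs, h01, hx, hsgn⟩ := h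
  exact WA_of_closed hf n x s hs (fun i hi => ⟨(h01 i hi).1.le, (h01 i hi).2.le⟩)
    (fun i hi => hx i (by omega)) hsgn

theorem WA.deriv0 {f f' : ℝ → ℝ} (hf : ∀ x, HasDerivAt f (f' x) x) {n : ℕ} (h0 : f 0 = 0)
    (h : WA f n) : WA f' n := by
  obtain ⟨x, s, hs, h01, hx, hsgn⟩ := h
  refine WA_of_closed hf n (fun i => if i = 0 then 0 else x (i - 1)) (-s) ?_ ?_ ?_ ?_
  · rcases hs with h | h <;> simp [h]
  · intro i hi
    rcases i with _ | i
    · simp
    · have := h01 i (by omega)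
      simp only [Nat.add_eq_zero_iff, one_ne_zero, and_false, if_false, Nat.add_sub_cancel]
      exact ⟨this.1.le, this.2.le⟩
  · intro i hi
    rcases i with _ | i
    · simpa using (h01 0 (by omega)).1
    · simpa using hx i (by omega)
  · intro i hi
    rcases i with _ | i
    · simp [h0]
    · have := hsgn i (by omega)
      simp only [Nat.add_eq_zero_iff, one_ne_zero, and_false, if_false, Nat.add_sub_cancel]
      rw [pow_succ]
      nlinarith [this]

theorem WA.deriv1 {f f' : ℝ → ℝ} (hf : ∀ x, HasDerivAt f (f' x) x) {n : ℕ} (h1 : f 1 = 0)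
    (h : WA f n) : WA f' n := by
  obtain ⟨x, s, hs, h01, hx, hsgn⟩ := h
  refine WA_of_closed hf n (fun i => if i < n then x i else 1) s hs ?_ ?_ ?_
  · intro i hi
    by_cases hin : i < n
    · simp only [hin, if_true]; exact ⟨(h01 i hin).1.le, (h01 i hin).2.le⟩
    · simp [hin]
  · intro i hi
    by_cases hin : i + 1 < n
    · simp only [hi, hin, if_true]; exact hx i hin
    · simp only [hi, hin, if_true, if_false]; exact (h01 i hi).2
  · intro i hi
    by_cases hin : i < n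
    · simp only [hin, if_true]; exact hsgn i hin
    · simp [hin, h1]

theorem WA.deriv01 {f f' : ℝ → ℝ} (hf : ∀ x, HasDerivAt f (f' x) x) {n : ℕ} (h0 : f 0 = 0)
    (h1 : f 1 = 0) (h : WA f n) : WA f' (n + 1) := by
  obtain ⟨x, s, hs, h01, hx, hsgn⟩ := h
  refine WA_of_closed hf (n + 1) (fun i => if i = 0 then 0 else if i - 1 < n then x (i - 1) else 1)
    (-s) ?_ ?_ ?_ ?_
  · rcases hs with h | h <;> simp [h]
  · intro i hi
    rcases i with _ | i
    · simp
    · simp only [Nat.add_eq_zero_iff, one_ne_zero, and_false, if_false, Nat.add_sub_cancel]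
      by_cases hin : i < n
      · have := h01 i hin
        simp only [hin, if_true]
        exact ⟨this.1.le, this.2.le⟩
      · simp [hin]
  · intro i hi
    rcases i with _ | i
    · simp only [Nat.add_eq_zero_iff, one_ne_zero, and_false, if_false, if_true,
        Nat.add_sub_cancel]
      by_cases hin : 0 < n
      · simp only [hin, if_true]; exact (h01 0 hin).1
      · simp [hin]
    · simp only [Nat.add_eq_zero_iff, one_ne_zero, and_false, if_false, Nat.add_sub_cancel]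
      have hin : i < n := by omega
      simp only [hin, if_true]
      by_cases hin2 : i + 1 < n
      · simp only [hin2, if_true]; exact hx i hin2
      · simp only [hin2, if_false]; exact (h01 i hin).2
  · intro i hi
    rcases i with _ | i
    · simp [h0]
    · simp only [Nat.add_eq_zero_iff, one_ne_zero, and_false, if_false, Nat.add_sub_cancel]
      by_cases hin : i < n
      · have := hsgn i hin
        simp only [hin, if_true]
        rw [pow_succ]
        nlinarith [this]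
      · simp [hin, h1]

/-- the `l`-th derivative of `t ↦ Im ∑ cᵢ (1+ωt)^(M+Ni)` -/
noncomputable def gf (N : ℕ) (ω : ℂ) (M j : ℕ) (c : ℕ → ℝ) (l : ℕ) (t : ℝ) : ℝ :=
  (∑ i ∈ Finset.range j, (c i : ℂ) * ((M + N * i).descFactorial l : ℂ) *
    (ω ^ l * (1 + ω * (t : ℂ)) ^ (M + N * i - l))).im

theorem gf_hasDerivAt (N : ℕ) (ω : ℂ) (M j : ℕ) (c : ℕ → ℝ) (l : ℕ) (t : ℝ) :
    HasDerivAt (gf N ω M j c l) (gf N ω M j c (l + 1) t) t := by
  have hterm : ∀ n : ℕ, HasDerivAt (fun t : ℝ => (1 + ω * (t : ℂ)) ^ n)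
      ((n : ℂ) * (1 + ω * (t : ℂ)) ^ (n - 1) * ω) t := by
    intro n
    have h1 : HasDerivAt (fun t : ℝ => 1 + ω * (t : ℂ)) ω t := by
      have h2 : HasDerivAt (fun t : ℝ => (t : ℂ)) 1 t := by
        simpa using (hasDerivAt_id t).ofReal_comp
      simpa using (h2.const_mul ω).const_add 1
    exact h1.fun_pow n
  have hsum : HasDerivAt (fun t : ℝ => ∑ i ∈ Finset.range j, (c i : ℂ) *
      ((M + N * i).descFactorial l : ℂ) * (ω ^ l * (1 + ω * (t : ℂ)) ^ (M + N * i - l)))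
      (∑ i ∈ Finset.range j, (c i : ℂ) * ((M + N * i).descFactorial (l + 1) : ℂ) *
        (ω ^ (l + 1) * (1 + ω * (t : ℂ)) ^ (M + N * i - (l + 1)))) t := by
    apply HasDerivAt.fun_sum
    intro i _
    have := ((hterm (M + N * i - l)).const_mul (ω ^ l)).const_mul
      ((c i : ℂ) * ((M + N * i).descFactorial l : ℂ))
    refine this.congr_deriv ?_
    rw [Nat.descFactorial_succ, Nat.sub_sub]
    push_cast
    ring
  have := (Complex.imCLM.hasFDerivAt (x := _)).comp_hasDerivAt t hsum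
  exact this

theorem gf_zero (N : ℕ) (ω : ℂ) (M j : ℕ) (c : ℕ → ℝ) (l : ℕ) (h : (ω ^ l).im = 0) :
    gf N ω M j c l 0 = 0 := by
  unfold gf
  rw [Complex.im_sum]
  apply Finset.sum_eq_zero
  intro i _
  have : (c i : ℂ) * ((M + N * i).descFactorial l : ℂ) *
    (ω ^ l * (1 + ω * ((0 : ℝ) : ℂ)) ^ (M + N * i - l)) =
    ((c i * ((M + N * i).descFactorial l : ℝ) : ℝ) : ℂ) * ω ^ l := by
    push_cast; simp
  rw [this, Complex.im_ofReal_mul, h, mul_zero]

theorem gf_one (N : ℕ) (ω : ℂ) (M j : ℕ) (c : ℕ → ℝ) (l : ℕ)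
    (h : ∀ i, l ≤ M + N * i → (ω ^ l * (1 + ω) ^ (M + N * i - l)).im = 0) :
    gf N ω M j c l 1 = 0 := by
  unfold gf
  rw [Complex.im_sum]
  apply Finset.sum_eq_zero
  intro i _
  by_cases hl : l ≤ M + N * i
  · have : (c i : ℂ) * ((M + N * i).descFactorial l : ℂ) *
      (ω ^ l * (1 + ω * ((1 : ℝ) : ℂ)) ^ (M + N * i - l)) =
      ((c i * ((M + N * i).descFactorial l : ℝ) : ℝ) : ℂ) *
        (ω ^ l * (1 + ω) ^ (M + N * i - l)) := by
      push_cast; simp
    rw [this, Complex.im_ofReal_mul, h i hl, mul_zero]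
  · rw [Nat.descFactorial_of_lt (by omega)]
    simp

theorem gf_shift (N : ℕ) (ω : ℂ) (M j : ℕ) (c : ℕ → ℝ) (hω : ω ^ N = 1) (hM : M ≤ N) (t : ℝ) :
    gf N ω M (j + 1) c N t =
      gf N ω M j (fun i => c (i + 1) * ((M + N * (i + 1)).descFactorial N : ℝ)) 0 t := by
  unfold gf
  rw [Finset.sum_range_succ']
  have h0 : ((c 0 : ℂ) * ((M + N * 0).descFactorial N : ℂ) *
      (ω ^ N * (1 + ω * (t : ℂ)) ^ (M + N * 0 - N))).im = 0 := by
    rcases Nat.lt_or_ge M N with h | h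
    · rw [Nat.descFactorial_of_lt (by omega)]; simp
    · have : M + N * 0 - N = 0 := by omega
      rw [this, hω, pow_zero, mul_one, mul_one]
      have : (c 0 : ℂ) * ((M + N * 0).descFactorial N : ℂ) =
        ((c 0 * ((M + N * 0).descFactorial N : ℝ) : ℝ) : ℂ) := by push_cast; ring
      rw [this, Complex.ofReal_im]
  rw [Complex.add_im, h0, add_zero]
  congr 1
  apply Finset.sum_congr rfl
  intro i _
  have : M + N * (i + 1) - N = M + N * i - 0 := by
    rw [mul_add, mul_one]; omega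
  rw [this, hω]
  push_cast
  simp

theorem WA_congr {f g : ℝ → ℝ} (h : ∀ t, f t = g t) {n : ℕ} (hf : WA f n) : WA g n := by
  have : f = g := funext h
  rwa [← this]

/-- the Rolle chain over a full period -/
def Chain (N : ℕ) (ω : ℂ) (M : ℕ) : Prop :=
  ∀ (j : ℕ) (c : ℕ → ℝ) (n : ℕ), WA (gf N ω M j c 0) (n + 1) → WA (gf N ω M j c N) n

theorem TSys (N : ℕ) (ω : ℂ) (M : ℕ) (hω : ω ^ N = 1) (hM : M ≤ N) (hM0 : 1 ≤ M)
    (hch : Chain N ω M) (hpos : ∀ t : ℝ, 0 < t → t < 1 → 0 < ((1 + ω * (t : ℂ)) ^ M).im) :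
    ∀ (j : ℕ) (c : ℕ → ℝ), WA (gf N ω M j c 0) (j + 1) → ∀ i, i < j → c i = 0 := by
  intro j
  induction j with
  | zero => intro c _ i hi; omega
  | succ j ih =>
    intro c hc
    have h1 := hch (j + 1) c (j + 1) hc
    have h2 := ih _ (WA_congr (gf_shift N ω M j c hω hM) h1)
    have h3 : ∀ i, 1 ≤ i → i < j + 1 → c i = 0 := by
      intro i hi1 hi2
      obtain ⟨i', rfl⟩ : ∃ i', i = i' + 1 := ⟨i - 1, by omega⟩
      have := h2 i' (by omega)
      rcases mul_eq_zero.mp this with h | h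
      · exact h
      · exfalso
        have h' : (M + N * (i' + 1)).descFactorial N = 0 := by exact_mod_cast h
        rw [Nat.descFactorial_eq_zero_iff_lt] at h'
        have : N ≤ N * (i' + 1) := Nat.le_mul_of_pos_right N (by omega)
        omega
    have h4 : c 0 = 0 := by
      have hg : ∀ t, gf N ω M (j + 1) c 0 t = c 0 * ((1 + ω * (t : ℂ)) ^ M).im := by
        intro t
        unfold gf
        rw [Finset.sum_range_succ', Finset.sum_eq_zero]
        · simp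
        · intro i hi
          rw [h3 (i + 1) (by omega) (by have := Finset.mem_range.mp hi; omega)]
          simp
      obtain ⟨x, s, hs, h01, hx, hsgn⟩ := hc
      have ha := hsgn 0 (by omega)
      have hb := hsgn 1 (by omega)
      rw [hg] at ha hb
      have pa := hpos (x 0) (h01 0 (by omega)).1 (h01 0 (by omega)).2
      have pb := hpos (x 1) (h01 1 (by omega)).1 (h01 1 (by omega)).2
      set A := ((1 + ω * (x 0 : ℂ)) ^ M).im
      set B := ((1 + ω * (x 1 : ℂ)) ^ M).im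
      have e1 : 0 ≤ s * c 0 := by
        by_contra hneg
        push Not at hneg
        have : s * c 0 * A < 0 := mul_neg_of_neg_of_pos hneg pa
        simp only [pow_zero, mul_one] at ha
        nlinarith
      have e2 : s * c 0 ≤ 0 := by
        by_contra hneg
        push Not at hneg
        have : 0 < s * c 0 * B := mul_pos hneg pb
        simp only [pow_one] at hb
        nlinarith
      have e3 : s * c 0 = 0 := le_antisymm e2 e1
      rcases mul_eq_zero.mp e3 with h | h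
      · rcases hs with h' | h' <;> rw [h'] at h <;> norm_num at h
      · exact h
    intro i hi
    rcases Nat.eq_zero_or_pos i with h | h
    · rw [h]; exact h4
    · exact h3 i h hi

theorem gf_one' (N : ℕ) (ω : ℂ) (κ v : ℝ) (hκ : ω = κ * (1 + ω) ^ 2) (hv : (1 + ω) ^ N = v)
    (M j : ℕ) (c : ℕ → ℝ) (l : ℕ) (hl : M + l = N) : gf N ω M j c l 1 = 0 := by
  apply gf_one
  intro i hi
  have h1 : ω ^ l * (1 + ω) ^ (M + N * i - l) = ((κ ^ l * v ^ (i + 1) : ℝ) : ℂ) := by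
    have h2 : ω ^ l = (κ : ℂ) ^ l * (1 + ω) ^ (2 * l) := by
      rw [pow_mul, ← mul_pow, ← hκ]
    rw [h2, mul_assoc, ← pow_add]
    have h3 : 2 * l + (M + N * i - l) = N * (i + 1) := by
      rw [mul_add, mul_one]; omega
    rw [h3, pow_mul, hv]
    push_cast
    ring
  rw [h1, Complex.ofReal_im]

theorem chain4 (M : ℕ) (hM0 : 1 ≤ M) (hM : M ≤ 4) : Chain 4 Complex.I M := by
  intro j c n h
  have hκ : Complex.I = ((1 / 2 : ℝ) : ℂ) * (1 + Complex.I) ^ 2 := by
    push_cast; ring_nf; rw [Complex.I_sq]; ring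
  have hv : (1 + Complex.I) ^ 4 = ((-4 : ℝ) : ℂ) := by
    have : (1 + Complex.I) ^ 2 = 2 * Complex.I := by
      ring_nf; rw [Complex.I_sq]; ring
    calc (1 + Complex.I) ^ 4 = ((1 + Complex.I) ^ 2) ^ 2 := by ring
      _ = _ := by rw [this]; push_cast; rw [mul_pow, Complex.I_sq]; norm_num
  have hd := fun l t => gf_hasDerivAt 4 Complex.I M j c l t
  have h0 : gf 4 Complex.I M j c 0 0 = 0 := gf_zero _ _ _ _ _ _ (by simp)
  have h2 : gf 4 Complex.I M j c 2 0 = 0 := gf_zero _ _ _ _ _ _ (by simp)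
  have h1 := fun l hl => gf_one' 4 Complex.I (1 / 2) (-4) hκ hv M j c l hl
  interval_cases M
  · exact WA.deriv1 (hd 3) (h1 3 rfl) (WA.deriv0 (hd 2) h2 (WA.deriv (hd 1)
      (WA.deriv0 (hd 0) h0 h)))
  · exact WA.deriv (hd 3) (WA.deriv01 (hd 2) h2 (h1 2 rfl) (WA.deriv (hd 1)
      (WA.deriv0 (hd 0) h0 h)))
  · exact WA.deriv (hd 3) (WA.deriv0 (hd 2) h2 (WA.deriv1 (hd 1) (h1 1 rfl)
      (WA.deriv0 (hd 0) h0 h)))
  · exact WA.deriv (hd 3) (WA.deriv0 (hd 2) h2 (WA.deriv (hd 1)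
      (WA.deriv01 (hd 0) h0 (h1 0 rfl) h)))

theorem chain3 (ω : ℂ) (hω : ω ^ 2 + ω + 1 = 0) (M : ℕ) (hM0 : 1 ≤ M) (hM : M ≤ 3) :
    Chain 3 ω M := by
  intro j c n h
  have hκ : ω = ((1 : ℝ) : ℂ) * (1 + ω) ^ 2 := by
    push_cast; linear_combination -hω
  have hv : (1 + ω) ^ 3 = ((-1 : ℝ) : ℂ) := by
    push_cast
    linear_combination (ω + 2) * hω
  have hd := fun l t => gf_hasDerivAt 3 ω M j c l t
  have h0 : gf 3 ω M j c 0 0 = 0 := gf_zero _ _ _ _ _ _ (by simp)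
  have h1 := fun l hl => gf_one' 3 ω 1 (-1) hκ hv M j c l hl
  interval_cases M
  · exact WA.deriv1 (hd 2) (h1 2 rfl) (WA.deriv (hd 1) (WA.deriv0 (hd 0) h0 h))
  · exact WA.deriv (hd 2) (WA.deriv1 (hd 1) (h1 1 rfl) (WA.deriv0 (hd 0) h0 h))
  · exact WA.deriv (hd 2) (WA.deriv (hd 1) (WA.deriv01 (hd 0) h0 (h1 0 rfl) h))

theorem pos4 (M : ℕ) (hM0 : 1 ≤ M) (hM : M ≤ 4) (t : ℝ) (h0 : 0 < t) (h1 : t < 1) :
    0 < ((1 + Complex.I * (t : ℂ)) ^ M).im := by
  have e2 : (1 + Complex.I * (t : ℂ)) ^ 2 = ((1 - t ^ 2 : ℝ) : ℂ) + ((2 * t : ℝ) : ℂ) * Complex.I := by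
    push_cast; linear_combination (t : ℂ) ^ 2 * Complex.I_sq
  interval_cases M
  · simpa using h0
  · rw [e2, Complex.add_im, Complex.ofReal_im, Complex.im_ofReal_mul, Complex.I_im]
    linarith
  · rw [pow_succ, e2]
    have : ((((1 - t ^ 2 : ℝ) : ℂ) + ((2 * t : ℝ) : ℂ) * Complex.I) *
      (1 + Complex.I * (t : ℂ))).im = (1 - t ^ 2) * t + 2 * t := by
      simp [Complex.mul_im, Complex.mul_re, -Complex.ofReal_pow]
    rw [this]
    have : t ^ 2 < 1 := by nlinarith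
    nlinarith
  · have : (1 + Complex.I * (t : ℂ)) ^ 4 = ((1 + Complex.I * (t : ℂ)) ^ 2) ^ 2 := by ring
    rw [this, e2]
    have : ((((1 - t ^ 2 : ℝ) : ℂ) + ((2 * t : ℝ) : ℂ) * Complex.I) ^ 2).im =
      4 * t * (1 - t ^ 2) := by
      rw [sq]
      simp [Complex.mul_im, Complex.mul_re, -Complex.ofReal_pow]
      ring
    rw [this]
    have : t ^ 2 < 1 := by nlinarith
    have : 0 < t * (1 - t ^ 2) := mul_pos h0 (by linarith)
    linarith

theorem pos3 (ω : ℂ) (hω : ω ^ 2 + ω + 1 = 0) (him : 0 < ω.im) (M : ℕ) (hM0 : 1 ≤ M)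
    (hM : M ≤ 3) (t : ℝ) (h0 : 0 < t) (h1 : t < 1) :
    0 < ((1 + ω * (t : ℂ)) ^ M).im := by
  have e2 : (1 + ω * (t : ℂ)) ^ 2 = ((1 - t ^ 2 : ℝ) : ℂ) + ((2 * t - t ^ 2 : ℝ) : ℂ) * ω := by
    push_cast; linear_combination (t : ℂ) ^ 2 * hω
  interval_cases M
  · have : ((1 + ω * (t : ℂ)) ^ 1).im = t * ω.im := by
      simp [Complex.mul_im]; ring
    rw [this]; positivity
  · rw [e2]
    have : (((1 - t ^ 2 : ℝ) : ℂ) + ((2 * t - t ^ 2 : ℝ) : ℂ) * ω).im = (2 * t - t ^ 2) * ω.im := by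
      rw [Complex.add_im, Complex.ofReal_im, Complex.im_ofReal_mul, zero_add]
    rw [this]
    apply mul_pos _ him
    nlinarith
  · have e3 : (1 + ω * (t : ℂ)) ^ 3 = ((1 + t ^ 3 - 3 * t ^ 2 : ℝ) : ℂ) +
      ((3 * t - 3 * t ^ 2 : ℝ) : ℂ) * ω := by
      push_cast; linear_combination ((t : ℂ) ^ 3 * (ω - 1) + 3 * (t : ℂ) ^ 2) * hω
    rw [e3, Complex.add_im, Complex.ofReal_im, Complex.im_ofReal_mul, zero_add]
    apply mul_pos _ him
    nlinarith

end Pool.L5helper83.BP
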