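import Mathlib
import Pool.Agent.L5helper83.BPRolle

set_option autoImplicit false
open Polynomial

namespace Pool.L5helper83.BP

theorem prod_sign (R : Finset ℝ) (x : ℝ) (hx : x ∉ R) :
    0 < (-1 : ℝ) ^ (R.filter (· < x)).card * ∏ ρ ∈ R, (ρ - x) := by
  have : (-1 : ℝ) ^ (R.filter (· < x)).card = ∏ ρ ∈ R, (if ρ < x then (-1 : ℝ) else 1) := by
    rw [Finset.prod_ite]; simp
  rw [this, ← Finset.prod_mul_distrib]
  apply Finset.prod_pos
  intro ρ hρ
  have hne : ρ ≠ x := fun h => hx (h ▸ hρ)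
  split_ifs with h
  · linarith
  · have := lt_of_le_of_ne (not_lt.mp h) (Ne.symm hne)
    linarith

theorem WA_of_finset (f : ℝ → ℝ) (S : Finset ℝ) (hS : ∀ x ∈ S, 0 < x ∧ x < 1) (s : ℝ)
    (hs : s = 1 ∨ s = -1)
    (hsgn : ∀ x ∈ S, 0 ≤ s * (-1) ^ (S.filter (· < x)).card * f x) : WA f S.card := by
  classical
  set e := S.orderEmbOfFin rfl with he
  have hcard : ∀ i : Fin S.card, (S.filter (· < e i)).card = i := by
    intro i
    have : S.filter (· < e i) = (Finset.univ.filter (· < i)).map e.toEmbedding := by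
      ext x
      simp only [Finset.mem_filter, Finset.mem_map, Finset.mem_univ, true_and]
      constructor
      · rintro ⟨hx, hlt⟩
        obtain ⟨i', rfl⟩ : ∃ i', e i' = x := by
          have : x ∈ Set.range e := by rw [he, Finset.range_orderEmbOfFin]; exact hx
          exact this
        exact ⟨i', e.lt_iff_lt.mp hlt, rfl⟩
      · rintro ⟨i', hi', rfl⟩
        exact ⟨Finset.orderEmbOfFin_mem _ _ _, e.lt_iff_lt.mpr hi'⟩
    rw [this, Finset.card_map]
    have h2 : (Finset.univ.filter (· < i)) = Finset.Iio i := by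
      ext x; simp only [Finset.mem_filter, Finset.mem_univ, true_and, Finset.mem_Iio]
    rw [h2, Fin.card_Iio]
  refine ⟨fun i => if h : i < S.card then e ⟨i, h⟩ else 0, s, hs, ?_, ?_, ?_⟩
  · intro i hi
    simp only [hi, dif_pos]
    exact hS _ (Finset.orderEmbOfFin_mem _ _ _)
  · intro i hi
    have hi' : i < S.card := by omega
    simp only [hi, hi', dif_pos]
    exact e.lt_iff_lt.mpr (by simp [Fin.lt_def])
  · intro i hi
    simp only [hi, dif_pos]
    have := hsgn (e ⟨i, hi⟩) (Finset.orderEmbOfFin_mem _ _ _)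
    rw [hcard] at this
    exact this

theorem const_sign_aux (f : ℝ → ℝ) (R : Finset ℝ) (hR : ∀ x ∈ R, 0 < x ∧ x < 1)
    (hf0 : ∀ x ∈ R, f x = 0) (hWA : ¬ WA f (R.card + 2)) (a b : ℝ) (ha : 0 < a ∧ a < 1)
    (hb : 0 < b ∧ b < 1) (hab : a < b) :
    0 ≤ (f a * ∏ ρ ∈ R, (ρ - a)) * (f b * ∏ ρ ∈ R, (ρ - b)) := by
  classical
  by_contra hneg
  push Not at hneg
  have haR : a ∉ R := by
    intro h
    rw [hf0 a h] at hneg
    simp at hneg
  have hbR : b ∉ R := by
    intro h
    rw [hf0 b h] at hneg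
    simp at hneg
  apply hWA
  have pa := prod_sign R a haR
  have pb := prod_sign R b hbR
  set A := ∏ ρ ∈ R, (ρ - a)
  set B := ∏ ρ ∈ R, (ρ - b)
  set p := (R.filter (· < a)).card with hp
  set p' := (R.filter (· < b)).card with hp'
  have hS : (insert a (insert b R)).card = R.card + 2 := by
    rw [Finset.card_insert_of_notMem, Finset.card_insert_of_notMem hbR]
    rw [Finset.mem_insert]
    push Not
    exact ⟨hab.ne, haR⟩
  rw [← hS]
  have fa : (insert a (insert b R)).filter (· < a) = R.filter (· < a) := by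
    rw [Finset.filter_insert, if_neg (lt_irrefl a), Finset.filter_insert, if_neg (not_lt.mpr hab.le)]
  have fb : ((insert a (insert b R)).filter (· < b)).card = p' + 1 := by
    rw [Finset.filter_insert, if_pos hab, Finset.filter_insert, if_neg (lt_irrefl b),
      Finset.card_insert_of_notMem]
    intro h
    exact haR (Finset.mem_filter.mp h).1
  -- sign bookkeeping
  have hsq : ∀ n : ℕ, ((-1 : ℝ) ^ n) * (-1) ^ n = 1 := by
    intro n; rw [← mul_pow]; simp
  have hopp : ((-1) ^ p * f a) * ((-1) ^ p' * f b) < 0 := by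
    have h1 : ((-1) ^ p * f a) * ((-1) ^ p' * f b) * (((-1) ^ p * A) * ((-1) ^ p' * B)) =
      (f a * A) * (f b * B) * (((-1) ^ p * (-1) ^ p) * ((-1) ^ p' * (-1) ^ p')) := by ring
    rw [hsq, hsq, mul_one, mul_one] at h1
    have h2 : 0 < ((-1) ^ p * A) * ((-1) ^ p' * B) := mul_pos pa pb
    by_contra h3
    push Not at h3
    have : 0 ≤ (f a * A) * (f b * B) := by
      rw [← h1]; exact mul_nonneg h3 h2.le
    linarith
  have hmem : ∀ x ∈ insert a (insert b R), 0 < x ∧ x < 1 := by
    intro x hx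
    rw [Finset.mem_insert, Finset.mem_insert] at hx
    rcases hx with rfl | rfl | hx
    · exact ha
    · exact hb
    · exact hR x hx
  have main : ∀ s : ℝ, (s = 1 ∨ s = -1) → 0 ≤ s * ((-1) ^ p * f a) →
      s * ((-1) ^ p' * f b) ≤ 0 → WA f (insert a (insert b R)).card := by
    intro s hs h1 h2
    refine WA_of_finset f _ hmem s hs ?_
    intro x hx
    rw [Finset.mem_insert, Finset.mem_insert] at hx
    rcases hx with rfl | rfl | hx
    · rw [fa]; linarith
    · rw [fb, pow_succ]; linarith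
    · rw [hf0 x hx]; simp
  rcases le_or_gt 0 ((-1) ^ p * f a) with h | h
  · refine main 1 (Or.inl rfl) (by linarith) ?_
    rw [one_mul]
    by_contra h'
    push Not at h'
    exact absurd hopp (not_lt.mpr (mul_nonneg h h'.le))
  · refine main (-1) (Or.inr rfl) (by linarith) ?_
    by_contra h'
    push Not at h'
    have h'' : (-1) ^ p' * f b < 0 := by linarith
    exact absurd hopp (not_lt.mpr (mul_pos_of_neg_of_neg h h'').le)

theorem const_sign (f : ℝ → ℝ) (R : Finset ℝ) (hR : ∀ x ∈ R, 0 < x ∧ x < 1)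
    (hf0 : ∀ x ∈ R, f x = 0) (hWA : ¬ WA f (R.card + 2)) (a b : ℝ) (ha : 0 < a ∧ a < 1)
    (hb : 0 < b ∧ b < 1) :
    0 ≤ (f a * ∏ ρ ∈ R, (ρ - a)) * (f b * ∏ ρ ∈ R, (ρ - b)) := by
  rcases lt_trichotomy a b with h | h | h
  · exact const_sign_aux f R hR hf0 hWA a b ha hb h
  · rw [h]; exact mul_self_nonneg _
  · rw [mul_comm]; exact const_sign_aux f R hR hf0 hWA b a hb ha h

/-- every nonzero real polynomial becomes of constant sign on `(0,1)` after multiplication by a
product of distinct linear factors vanishing in `(0,1)`. -/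
theorem poly_const_sign : ∀ (n : ℕ) (q : ℝ[X]), q ≠ 0 → q.natDegree ≤ n →
    ∃ R : Finset ℝ, (∀ x ∈ R, 0 < x ∧ x < 1) ∧ (∀ x ∈ R, q.eval x = 0) ∧
      ((∀ y, 0 < y → y < 1 → 0 ≤ q.eval y * ∏ ρ ∈ R, (y - ρ)) ∨
       (∀ y, 0 < y → y < 1 → q.eval y * ∏ ρ ∈ R, (y - ρ) ≤ 0)) := by
  classical
  intro n
  induction n with
  | zero =>
    intro q hq hdeg
    refine ⟨∅, by simp, by simp, ?_⟩
    obtain ⟨c, rfl⟩ : ∃ c, q = C c := ⟨q.coeff 0, eq_C_of_natDegree_le_zero hdeg⟩
    rcases le_total 0 c with h | h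
    · left; intro y _ _; simpa using h
    · right; intro y _ _; simpa using h
  | succ n ih =>
    intro q hq hdeg
    by_cases hroot : ∃ ρ, 0 < ρ ∧ ρ < 1 ∧ q.eval ρ = 0
    · obtain ⟨ρ, h0, h1, hρ⟩ := hroot
      obtain ⟨q1, rfl⟩ : (X - C ρ) ∣ q := dvd_iff_isRoot.mpr hρ
      have hq1 : q1 ≠ 0 := right_ne_zero_of_mul hq
      have hdeg1 : q1.natDegree ≤ n := by
        rw [natDegree_mul (X_sub_C_ne_zero ρ) hq1, natDegree_X_sub_C] at hdeg
        omega
      obtain ⟨R1, hR1, hR1r, hs⟩ := ih q1 hq1 hdeg1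
      by_cases hmem : ρ ∈ R1
      · refine ⟨R1.erase ρ, fun x hx => hR1 x (Finset.mem_of_mem_erase hx),
          fun x hx => by rw [eval_mul, hR1r x (Finset.mem_of_mem_erase hx), mul_zero], ?_⟩
        have hprod : ∀ y, (eval y ((X - C ρ) * q1)) * ∏ r ∈ R1.erase ρ, (y - r) =
            q1.eval y * ∏ r ∈ R1, (y - r) := by
          intro y
          rw [← Finset.mul_prod_erase R1 (fun r => y - r) hmem]
          simp
          ring
        rcases hs with hs | hs
        · left; intro y hy0 hy1; rw [hprod]; exact hs y hy0 hy1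
        · right; intro y hy0 hy1; rw [hprod]; exact hs y hy0 hy1
      · refine ⟨insert ρ R1, ?_, ?_, ?_⟩
        · intro x hx
          rcases Finset.mem_insert.mp hx with rfl | hx
          · exact ⟨h0, h1⟩
          · exact hR1 x hx
        · intro x hx
          rcases Finset.mem_insert.mp hx with rfl | hx
          · exact hρ
          · rw [eval_mul, hR1r x hx, mul_zero]
        · have hprod : ∀ y, (eval y ((X - C ρ) * q1)) * ∏ r ∈ insert ρ R1, (y - r) =
            (y - ρ) ^ 2 * (q1.eval y * ∏ r ∈ R1, (y - r)) := by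
            intro y
            rw [Finset.prod_insert hmem]
            simp
            ring
          rcases hs with hs | hs
          · left; intro y hy0 hy1; rw [hprod]; exact mul_nonneg (sq_nonneg _) (hs y hy0 hy1)
          · right; intro y hy0 hy1; rw [hprod]
            exact mul_nonpos_of_nonneg_of_nonpos (sq_nonneg _) (hs y hy0 hy1)
    · push Not at hroot
      refine ⟨∅, by simp, by simp, ?_⟩
      simp only [Finset.prod_empty, mul_one]
      by_contra hcon
      push Not at hcon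
      obtain ⟨⟨a, ha0, ha1, ha⟩, ⟨b, hb0, hb1, hb⟩⟩ := hcon
      have hivt : (0 : ℝ) ∈ (fun y => q.eval y) '' Set.uIcc a b := by
        apply intermediate_value_uIcc (q.continuous.continuousOn)
        rw [Set.mem_uIcc]
        left
        exact ⟨ha.le, hb.le⟩
      obtain ⟨y, hy, hy0⟩ := hivt
      rw [Set.mem_uIcc] at hy
      have : 0 < y ∧ y < 1 := by
        rcases hy with hy | hy <;> constructor <;> linarith
      exact hroot y this.1 this.2 hy0

end Pool.L5helper83.BP
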