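import Mathlib
import Pool.Agent.L5helper83.BPSign

set_option autoImplicit false
open Polynomial

namespace Pool.L5helper83.BP

/-- basis functions -/
noncomputable def phi (N : ℕ) (ω : ℂ) (M i : ℕ) (t : ℝ) : ℝ :=
  ((1 + ω * (t : ℂ)) ^ (M + N * i)).im

theorem gf_eq (N : ℕ) (ω : ℂ) (M j : ℕ) (c : ℕ → ℝ) (t : ℝ) :
    gf N ω M j c 0 t = ∑ i ∈ Finset.range j, c i * phi N ω M i t := by
  unfold gf phi
  rw [Complex.im_sum]
  apply Finset.sum_congr rfl
  intro i _
  rw [Nat.descFactorial_zero, pow_zero, Nat.sub_zero, one_mul, Nat.cast_one, mul_one,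
    Complex.im_ofReal_mul]

theorem phi_continuous (N : ℕ) (ω : ℂ) (M i : ℕ) : Continuous (phi N ω M i) := by
  unfold phi
  fun_prop

theorem phi_zero (N : ℕ) (ω : ℂ) (M i : ℕ) : phi N ω M i 0 = 0 := by
  unfold phi; simp

/-- the T-system property -/
def TS (N : ℕ) (ω : ℂ) (M : ℕ) : Prop :=
  ∀ (j : ℕ) (c : ℕ → ℝ), WA (gf N ω M j c 0) (j + 1) → ∀ i, i < j → c i = 0

/-- the linear functionals -/
noncomputable def Lf (N : ℕ) (ω : ℂ) (k i : ℕ) (q : ℝ[X]) : ℝ :=
  ∫ x in (0 : ℝ)..1, x ^ k * q.eval (x ^ N) * phi N ω (k + 1) i (1 - x)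

theorem Lf_integrable (N : ℕ) (ω : ℂ) (k i : ℕ) (q : ℝ[X]) :
    IntervalIntegrable (fun x => x ^ k * q.eval (x ^ N) * phi N ω (k + 1) i (1 - x))
      MeasureTheory.volume 0 1 := by
  apply Continuous.intervalIntegrable
  have h1 : Continuous (fun x : ℝ => q.eval (x ^ N)) := q.continuous.comp (continuous_pow N)
  have h2 : Continuous (fun x : ℝ => phi N ω (k + 1) i (1 - x)) :=
    (phi_continuous N ω (k + 1) i).comp (continuous_const.sub continuous_id)
  exact ((continuous_pow k).mul h1).mul h2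

theorem exists_vanishing (N : ℕ) (ω : ℂ) (M : ℕ) (T : Finset ℝ) :
    ∃ c : ℕ → ℝ, (∃ i, i < T.card + 1 ∧ c i ≠ 0) ∧
      ∀ t ∈ T, gf N ω M (T.card + 1) c 0 t = 0 := by
  classical
  let F : (Fin (T.card + 1) → ℝ) →ₗ[ℝ] (T → ℝ) :=
    { toFun := fun c t => ∑ i, c i * phi N ω M i t
      map_add' := by
        intro a b; ext t; simp [add_mul, Finset.sum_add_distrib]
      map_smul' := by
        intro a b; ext t; simp [Finset.mul_sum, mul_assoc] }
  have hF : LinearMap.ker F ≠ ⊥ := by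
    apply LinearMap.ker_ne_bot_of_finrank_lt
    simp
  obtain ⟨c, hc, hc0⟩ := Submodule.exists_mem_ne_zero_of_ne_bot hF
  rw [LinearMap.mem_ker] at hc
  refine ⟨fun i => if h : i < T.card + 1 then c ⟨i, h⟩ else 0, ?_, ?_⟩
  · obtain ⟨i, hi⟩ := Function.ne_iff.mp hc0
    refine ⟨i, i.2, ?_⟩
    simp only [Fin.is_lt, dif_pos]
    exact hi
  · intro t ht
    rw [gf_eq, Finset.sum_range]
    have := congrFun hc ⟨t, ht⟩
    simp only [Pi.zero_apply] at this
    rw [← this]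
    apply Finset.sum_congr rfl
    intro i _
    rw [dif_pos i.2]

theorem many_roots (N : ℕ) (hN : 1 ≤ N) (ω : ℂ) (k : ℕ) (hTS : TS N ω (k + 1)) (j : ℕ)
    (q : ℝ[X]) (hq : q ≠ 0) (horth : ∀ i, i < j → Lf N ω k i q = 0) :
    ∃ R : Finset ℝ, (∀ x ∈ R, 0 < x ∧ x < 1) ∧ (∀ x ∈ R, q.eval x = 0) ∧ j ≤ R.card ∧
      ((∀ y, 0 < y → y < 1 → 0 ≤ q.eval y * ∏ ρ ∈ R, (y - ρ)) ∨
       (∀ y, 0 < y → y < 1 → q.eval y * ∏ ρ ∈ R, (y - ρ) ≤ 0)) := by
  classical
  obtain ⟨R, hR, hRr, hsg⟩ := poly_const_sign q.natDegree q hq le_rfl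
  refine ⟨R, hR, hRr, ?_, hsg⟩
  by_contra hcard
  push Not at hcard
  have hN0 : N ≠ 0 := by omega
  -- roots
  set rt : ℝ → ℝ := fun ρ => ρ ^ ((N : ℝ)⁻¹) with hrt
  have hrtpow : ∀ ρ ∈ R, (rt ρ) ^ N = ρ := fun ρ hρ =>
    Real.rpow_inv_natCast_pow (hR ρ hρ).1.le hN0
  have hrt0 : ∀ ρ ∈ R, 0 < rt ρ := fun ρ hρ => Real.rpow_pos_of_pos (hR ρ hρ).1 _
  have hrt1 : ∀ ρ ∈ R, rt ρ < 1 := fun ρ hρ =>
    Real.rpow_lt_one (hR ρ hρ).1.le (hR ρ hρ).2 (by positivity)
  set T : Finset ℝ := R.image (fun ρ => 1 - rt ρ) with hT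
  have hinj : Set.InjOn (fun ρ => 1 - rt ρ) (R : Set ℝ) := by
    intro a ha b hb hab
    have h1 : rt a = rt b := by
      have : 1 - rt a = 1 - rt b := hab
      linarith
    rw [← hrtpow a ha, ← hrtpow b hb, h1]
  have hTcard : T.card = R.card := Finset.card_image_of_injOn hinj
  have hT01 : ∀ t ∈ T, 0 < t ∧ t < 1 := by
    intro t ht
    obtain ⟨ρ, hρ, rfl⟩ := Finset.mem_image.mp ht
    have h1 := hrt0 ρ hρ
    have h2 := hrt1 ρ hρ
    constructor <;> linarith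
  obtain ⟨c, ⟨i0, hi0, hci0⟩, hc⟩ := exists_vanishing N ω (k + 1) T
  set h : ℝ → ℝ := gf N ω (k + 1) (T.card + 1) c 0 with hh
  have hnWA : ¬ WA h (T.card + 2) := fun hw => hci0 (hTS (T.card + 1) c hw i0 hi0)
  have hB := const_sign h T hT01 hc hnWA
  have hprodT : ∀ x : ℝ, ∏ τ ∈ T, (τ - (1 - x)) = ∏ ρ ∈ R, (x - rt ρ) := by
    intro x
    rw [hT, Finset.prod_image hinj]
    apply Finset.prod_congr rfl
    intro ρ _
    ring
  have hD : ∀ x : ℝ, 0 < x → x < 1 → 0 ≤ (∏ ρ ∈ R, (x ^ N - ρ)) * ∏ ρ ∈ R, (x - rt ρ) := by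
    intro x hx0 hx1
    rw [← Finset.prod_mul_distrib]
    apply Finset.prod_nonneg
    intro ρ hρ
    have h1 := hrtpow ρ hρ
    have h2 := hrt0 ρ hρ
    rcases le_total x (rt ρ) with hle | hle
    · have : x ^ N ≤ ρ := by rw [← h1]; exact pow_le_pow_left₀ hx0.le hle N
      exact mul_nonneg_of_nonpos_of_nonpos (by linarith) (by linarith)
    · have : ρ ≤ x ^ N := by rw [← h1]; exact pow_le_pow_left₀ h2.le hle N
      exact mul_nonneg (by linarith) (by linarith)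
  have hD0 : ∀ x : ℝ, 0 < x → x < 1 →
      (∏ ρ ∈ R, (x ^ N - ρ)) * ∏ ρ ∈ R, (x - rt ρ) = 0 → h (1 - x) = 0 := by
    intro x hx0 hx1 hz
    have : ∃ ρ ∈ R, x = rt ρ := by
      rcases mul_eq_zero.mp hz with hz | hz
      · obtain ⟨ρ, hρ, hz'⟩ := Finset.prod_eq_zero_iff.mp hz
        refine ⟨ρ, hρ, ?_⟩
        have h1 : x ^ N = (rt ρ) ^ N := by rw [hrtpow ρ hρ]; linarith
        exact (pow_left_inj₀ hx0.le (hrt0 ρ hρ).le hN0).mp h1
      · obtain ⟨ρ, hρ, hz'⟩ := Finset.prod_eq_zero_iff.mp hz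
        exact ⟨ρ, hρ, by linarith⟩
    obtain ⟨ρ, hρ, hx⟩ := this
    apply hc
    rw [hx]
    exact Finset.mem_image.mpr ⟨ρ, hρ, rfl⟩
  have hA : ∀ x y : ℝ, 0 < x → x < 1 → 0 < y → y < 1 →
      0 ≤ (q.eval (x ^ N) * ∏ ρ ∈ R, (x ^ N - ρ)) * (q.eval (y ^ N) * ∏ ρ ∈ R, (y ^ N - ρ)) := by
    intro x y hx0 hx1 hy0 hy1
    have p1 : 0 < x ^ N := pow_pos hx0 N
    have p2 : x ^ N < 1 := pow_lt_one₀ hx0.le hx1 hN0
    have p3 : 0 < y ^ N := pow_pos hy0 N
    have p4 : y ^ N < 1 := pow_lt_one₀ hy0.le hy1 hN0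
    rcases hsg with hs | hs
    · exact mul_nonneg (hs _ p1 p2) (hs _ p3 p4)
    · exact mul_nonneg_of_nonpos_of_nonpos (hs _ p1 p2) (hs _ p3 p4)
  have hI : ∀ x y : ℝ, 0 < x → x < 1 → 0 < y → y < 1 →
      0 ≤ (q.eval (x ^ N) * h (1 - x)) * (q.eval (y ^ N) * h (1 - y)) := by
    intro x y hx0 hx1 hy0 hy1
    have e1 := hA x y hx0 hx1 hy0 hy1
    have e2 := hB (1 - x) (1 - y) ⟨by linarith, by linarith⟩ ⟨by linarith, by linarith⟩
    rw [hprodT, hprodT] at e2
    have dx := hD x hx0 hx1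
    have dy := hD y hy0 hy1
    rcases dx.eq_or_lt with dx0 | dx0
    · rw [hD0 x hx0 hx1 dx0.symm]; simp
    rcases dy.eq_or_lt with dy0 | dy0
    · rw [hD0 y hy0 hy1 dy0.symm]; simp
    have e3 := mul_nonneg e1 e2
    have e4 := mul_pos dx0 dy0
    set P1 := ∏ ρ ∈ R, (x ^ N - ρ)
    set P2 := ∏ ρ ∈ R, (x - rt ρ)
    set P3 := ∏ ρ ∈ R, (y ^ N - ρ)
    set P4 := ∏ ρ ∈ R, (y - rt ρ)
    have e5 : (eval (x ^ N) q * P1 * (eval (y ^ N) q * P3)) * (h (1 - x) * P2 * (h (1 - y) * P4)) =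
      ((q.eval (x ^ N) * h (1 - x)) * (q.eval (y ^ N) * h (1 - y))) * (P1 * P2 * (P3 * P4)) := by
      ring
    rw [e5] at e3
    by_contra hneg
    push Not at hneg
    have := mul_neg_of_neg_of_pos hneg e4
    linarith
  -- nonvanishing point
  have hex : ∃ x0, 0 < x0 ∧ x0 < 1 ∧ q.eval (x0 ^ N) * h (1 - x0) ≠ 0 := by
    by_contra hcon
    push Not at hcon
    apply hnWA
    have hcomp : q.comp (X ^ N) ≠ 0 := by
      intro h0
      have : q.comp (X ^ N) = 0 ↔ q = 0 ∨ q.eval ((X ^ N : ℝ[X]).coeff 0) = 0 ∧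
        (X ^ N : ℝ[X]) = C ((X ^ N : ℝ[X]).coeff 0) := comp_eq_zero_iff
      rcases this.mp h0 with h1 | ⟨_, h1⟩
      · exact hq h1
      · have := congrArg natDegree h1
        rw [natDegree_X_pow, natDegree_C] at this
        omega
    have hfin : Set.Finite {x : ℝ | (q.comp (X ^ N)).eval x = 0} := by
      have := (q.comp (X ^ N)).roots.toFinset.finite_toSet
      refine this.subset ?_
      intro x hx
      simp only [Finset.mem_coe, Multiset.mem_toFinset]
      rw [mem_roots hcomp]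
      exact hx
    have hinf : Set.Infinite (Set.Ioo (0 : ℝ) 1 \ {x : ℝ | (q.comp (X ^ N)).eval x = 0}) :=
      (Set.Ioo_infinite one_pos).sdiff hfin
    have hinf2 : Set.Infinite ((fun x : ℝ => 1 - x) ''
        (Set.Ioo (0 : ℝ) 1 \ {x : ℝ | (q.comp (X ^ N)).eval x = 0})) := by
      apply hinf.image
      intro a _ b _ hab
      have : 1 - a = 1 - b := hab
      linarith
    obtain ⟨S, hS, hScard⟩ := hinf2.exists_subset_card_eq (T.card + 2)
    have hS' : ∀ x ∈ S, (0 < x ∧ x < 1) ∧ h x = 0 := by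
      intro x hx
      obtain ⟨y, ⟨⟨hy0, hy1⟩, hy2⟩, rfl⟩ := hS hx
      refine ⟨⟨by simp only; linarith, by simp only; linarith⟩, ?_⟩
      have := hcon y hy0 hy1
      rcases mul_eq_zero.mp this with h1 | h1
      · exact absurd (by simpa using h1) hy2
      · exact h1
    rw [← hScard]
    exact WA_of_finset h S (fun x hx => (hS' x hx).1) 1 (Or.inl rfl)
      (fun x hx => by rw [(hS' x hx).2]; simp)
  obtain ⟨x0, hx00, hx01, hx0⟩ := hex
  -- the integral vanishes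
  have hint : ∫ x in (0 : ℝ)..1, x ^ k * q.eval (x ^ N) * h (1 - x) = 0 := by
    have : ∀ x : ℝ, x ^ k * q.eval (x ^ N) * h (1 - x) =
        ∑ i ∈ Finset.range (T.card + 1), c i *
          (x ^ k * q.eval (x ^ N) * phi N ω (k + 1) i (1 - x)) := by
      intro x
      rw [hh, gf_eq, Finset.mul_sum]
      apply Finset.sum_congr rfl
      intro i _
      ring
    simp_rw [this]
    rw [intervalIntegral.integral_finsetSum]
    · apply Finset.sum_eq_zero
      intro i hi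
      rw [intervalIntegral.integral_const_mul]
      have := horth i (by have := Finset.mem_range.mp hi; omega)
      unfold Lf at this
      rw [this, mul_zero]
    · intro i _
      exact (Lf_integrable N ω k i q).const_mul _
  have hcont : Continuous (fun x : ℝ => x ^ k * q.eval (x ^ N) * h (1 - x)) := by
    have h1 : Continuous (fun x : ℝ => q.eval (x ^ N)) := q.continuous.comp (continuous_pow N)
    have h2 : Continuous h := by
      have : h = fun t => ∑ i ∈ Finset.range (T.card + 1), c i * phi N ω (k + 1) i t := by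
        funext t; exact gf_eq _ _ _ _ _ _
      rw [this]
      exact continuous_finsetSum _ (fun i _ => continuous_const.mul (phi_continuous _ _ _ _))
    exact ((continuous_pow k).mul h1).mul (h2.comp (continuous_const.sub continuous_id))
  have hend : h (1 - 1) = 0 := by
    rw [sub_self, hh, gf_eq]
    apply Finset.sum_eq_zero
    intro i _
    rw [phi_zero, mul_zero]
  set s := q.eval (x0 ^ N) * h (1 - x0) with hs
  have hpos : 0 < ∫ x in (0 : ℝ)..1, s * (x ^ k * q.eval (x ^ N) * h (1 - x)) := by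
    have hc2 : Continuous (fun x : ℝ => s * (x ^ k * q.eval (x ^ N) * h (1 - x))) :=
      continuous_const.mul hcont
    apply intervalIntegral.integral_pos one_pos hc2.continuousOn
    · intro x hx
      rcases eq_or_lt_of_le hx.2 with h1 | h1
      · rw [h1, hend]; simp
      · have := hI x0 x hx00 hx01 hx.1 h1
        have h3 : s * (x ^ k * q.eval (x ^ N) * h (1 - x)) =
          x ^ k * (s * (q.eval (x ^ N) * h (1 - x))) := by ring
        rw [h3]
        exact mul_nonneg (pow_nonneg hx.1.le _) this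
    · refine ⟨x0, ⟨hx00.le, hx01.le⟩, ?_⟩
      have h3 : s * (x0 ^ k * q.eval (x0 ^ N) * h (1 - x0)) = x0 ^ k * (s * s) := by
        rw [hs]; ring
      rw [h3]
      exact mul_pos (pow_pos hx00 _) (mul_self_pos.mpr hx0)
  rw [intervalIntegral.integral_const_mul, hint, mul_zero] at hpos
  exact lt_irrefl _ hpos

end Pool.L5helper83.BP
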