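import Mathlib
import Pool.Agent.L5helper83.BPOrth

set_option autoImplicit false
open Polynomial

namespace Pool.L5helper83.BP

/-- `Lf` as a linear map -/
noncomputable def LfL (N : ℕ) (ω : ℂ) (k i : ℕ) : ℝ[X] →ₗ[ℝ] ℝ where
  toFun := Lf N ω k i
  map_add' p q := by
    unfold Lf
    rw [← intervalIntegral.integral_add (Lf_integrable N ω k i p) (Lf_integrable N ω k i q)]
    congr 1
    funext x
    rw [eval_add]; ring
  map_smul' a p := by
    unfold Lf
    rw [RingHom.id_apply, smul_eq_mul, ← intervalIntegral.integral_const_mul]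
    congr 1
    funext x
    rw [eval_smul, smul_eq_mul]; ring

theorem LfL_apply (N : ℕ) (ω : ℂ) (k i : ℕ) (q : ℝ[X]) : LfL N ω k i q = Lf N ω k i q := rfl

theorem card_le_natDegree (q : ℝ[X]) (hq : q ≠ 0) (R : Finset ℝ) (h : ∀ x ∈ R, q.eval x = 0) :
    R.card ≤ q.natDegree := by
  have h1 : R ⊆ q.roots.toFinset := by
    intro x hx
    rw [Multiset.mem_toFinset, mem_roots hq]
    exact h x hx
  calc R.card ≤ q.roots.toFinset.card := Finset.card_le_card h1
    _ ≤ Multiset.card q.roots := Multiset.toFinset_card_le _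
    _ ≤ q.natDegree := card_roots' q

theorem exists_orth (N : ℕ) (hN : 1 ≤ N) (ω : ℂ) (k : ℕ) (hTS : TS N ω (k + 1)) (j : ℕ) :
    ∃ q : ℝ[X], q.Monic ∧ q.natDegree = j ∧ ∀ i, i < j → Lf N ω k i q = 0 := by
  let B : degreeLT ℝ j →ₗ[ℝ] (Fin j → ℝ) :=
    LinearMap.pi (fun l => (LfL N ω k l).comp (degreeLT ℝ j).subtype)
  have hfr : Module.finrank ℝ (degreeLT ℝ j) = Module.finrank ℝ (Fin j → ℝ) :=
    LinearEquiv.finrank_eq (degreeLTEquiv ℝ j)
  have : FiniteDimensional ℝ (degreeLT ℝ j) :=
    LinearEquiv.finiteDimensional (degreeLTEquiv ℝ j).symm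
  have hinj : Function.Injective B := by
    rw [← LinearMap.ker_eq_bot, LinearMap.ker_eq_bot']
    intro p hp
    by_contra hne
    have hp0 : (p : ℝ[X]) ≠ 0 := fun h => hne (Subtype.ext h)
    have horth : ∀ i, i < j → Lf N ω k i (p : ℝ[X]) = 0 := by
      intro i hi
      exact congrFun hp ⟨i, hi⟩
    obtain ⟨R, _, hRr, hcard, _⟩ := many_roots N hN ω k hTS j p hp0 horth
    have h1 := card_le_natDegree p hp0 R hRr
    have h2 := mem_degreeLT.mp p.2
    rw [degree_eq_natDegree hp0] at h2
    have h3 : (p : ℝ[X]).natDegree < j := by exact_mod_cast h2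
    omega
  have hsurj : Function.Surjective B :=
    (LinearMap.injective_iff_surjective_of_finrank_eq_finrank hfr).mp hinj
  obtain ⟨p, hp⟩ := hsurj (fun l => - Lf N ω k l (X ^ j))
  have hdeg := mem_degreeLT.mp p.2
  refine ⟨X ^ j + (p : ℝ[X]), monic_X_pow_add hdeg, ?_, ?_⟩
  · have hd1 : (X ^ j + (p : ℝ[X]) : ℝ[X]).degree = (j : WithBot ℕ) := by
      rw [degree_add_eq_left_of_degree_lt (by rwa [degree_X_pow]), degree_X_pow]
    exact natDegree_eq_of_degree_eq_some hd1
  · intro i hi
    have h1 : Lf N ω k i (p : ℝ[X]) = - Lf N ω k i (X ^ j) := congrFun hp ⟨i, hi⟩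
    have h2 := map_add (LfL N ω k i) (X ^ j) (p : ℝ[X])
    rw [LfL_apply, LfL_apply, LfL_apply, h1] at h2
    rw [h2]; ring

theorem no_double_root (j : ℕ) (Q : ℝ[X]) (hQ : Q ≠ 0) (hdeg : Q.natDegree ≤ j + 1)
    (R : Finset ℝ) (hR : ∀ x ∈ R, 0 < x ∧ x < 1) (hRr : ∀ x ∈ R, Q.eval x = 0) (hcard : j ≤ R.card)
    (hsg : (∀ y, 0 < y → y < 1 → 0 ≤ Q.eval y * ∏ ρ ∈ R, (y - ρ)) ∨
       (∀ y, 0 < y → y < 1 → Q.eval y * ∏ ρ ∈ R, (y - ρ) ≤ 0)) (x : ℝ)
    (h0 : Q.eval x = 0) (h1 : (derivative Q).eval x = 0) : False := by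
  classical
  have hmult : 1 < rootMultiplicity x Q :=
    (one_lt_rootMultiplicity_iff_isRoot hQ).mpr ⟨h0, h1⟩
  have hle : (R.erase x).val + {x, x} ≤ Q.roots := by
    rw [Multiset.le_iff_count]
    intro a
    rw [Multiset.count_add, count_roots]
    by_cases ha : a = x
    · subst ha
      have e1 : Multiset.count a (R.erase a).val = 0 := by
        rw [Multiset.count_eq_zero]
        exact Finset.notMem_erase a R
      have e2 : Multiset.count a ({a, a} : Multiset ℝ) = 2 := by simp
      rw [e1, e2]; omega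
    · have e2 : Multiset.count a ({x, x} : Multiset ℝ) = 0 := by
        rw [Multiset.count_eq_zero]
        simp [ha]
      rw [e2, add_zero]
      by_cases haR : a ∈ R.erase x
      · have e1 : Multiset.count a (R.erase x).val ≤ 1 :=
          Multiset.nodup_iff_count_le_one.mp (R.erase x).nodup a
        have e3 : 0 < rootMultiplicity a Q :=
          (rootMultiplicity_pos hQ).mpr (hRr a (Finset.mem_of_mem_erase haR))
        omega
      · have e1 : Multiset.count a (R.erase x).val = 0 := by
          rw [Multiset.count_eq_zero]; exact haR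
        omega
  have hcardle := Multiset.card_le_card hle
  have hcr := card_roots' Q
  rw [Multiset.card_add] at hcardle
  have e0 : Multiset.card ({x, x} : Multiset ℝ) = 2 := rfl
  have e1 : Multiset.card (R.erase x).val = (R.erase x).card := rfl
  rw [e0, e1] at hcardle
  by_cases hx : x ∈ R
  · have e2 := Finset.card_erase_of_mem hx
    have e3 : 0 < R.card := Finset.card_pos.mpr ⟨x, hx⟩
    have hRc : R.card = j := by omega
    -- factorization
    have hdvd := (Multiset.prod_X_sub_C_dvd_iff_le_roots hQ _).mpr hle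
    obtain ⟨Q3, hQ3⟩ := hdvd
    have hprod : (((R.erase x).val + {x, x}).map (fun a => X - C a)).prod =
        (∏ ρ ∈ R, (X - C ρ)) * (X - C x) := by
      rw [Multiset.map_add, Multiset.prod_add]
      have : (Multiset.map (fun a : ℝ => X - C a) (R.erase x).val).prod =
        ∏ ρ ∈ R.erase x, (X - C ρ) := rfl
      rw [this, ← Finset.mul_prod_erase R (fun ρ => X - C ρ) hx]
      simp
      ring
    rw [hprod] at hQ3
    have hmon : ((∏ ρ ∈ R, (X - C ρ)) * (X - C x)).Monic :=
      (monic_prod_of_monic _ _ (fun ρ _ => monic_X_sub_C ρ)).mul (monic_X_sub_C x)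
    have hQ30 : Q3 ≠ 0 := by
      rintro rfl
      exact hQ (by rw [hQ3, mul_zero])
    have hnd : ((∏ ρ ∈ R, (X - C ρ)) * (X - C x)).natDegree = R.card + 1 := by
      rw [natDegree_mul (monic_prod_of_monic _ _ (fun ρ _ => monic_X_sub_C ρ)).ne_zero
        (X_sub_C_ne_zero x), natDegree_X_sub_C, natDegree_prod_of_monic _ _
        (fun ρ _ => monic_X_sub_C ρ)]
      simp
    have hQ3d : Q3.natDegree = 0 := by
      have := congrArg natDegree hQ3
      rw [natDegree_mul hmon.ne_zero hQ30, hnd] at this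
      omega
    obtain ⟨c, hc⟩ : ∃ c, Q3 = C c := ⟨Q3.coeff 0, eq_C_of_natDegree_eq_zero hQ3d⟩
    have hc0 : c ≠ 0 := by
      rintro rfl
      exact hQ30 (by rw [hc, C_0])
    have heval : ∀ y, Q.eval y * ∏ ρ ∈ R, (y - ρ) = c * (y - x) * (∏ ρ ∈ R, (y - ρ)) ^ 2 := by
      intro y
      rw [hQ3, hc]
      simp only [eval_mul, eval_prod, eval_sub, eval_X, eval_C]
      ring
    have hx01 := hR x hx
    obtain ⟨y1, hy1, hy1R⟩ : ∃ y ∈ Set.Ioo 0 x, y ∉ (R : Set ℝ) := by
      have : (Set.Ioo 0 x \ (R : Set ℝ)).Nonempty :=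
        ((Set.Ioo_infinite hx01.1).sdiff R.finite_toSet).nonempty
      obtain ⟨y, hy, hy'⟩ := this
      exact ⟨y, hy, hy'⟩
    obtain ⟨y2, hy2, hy2R⟩ : ∃ y ∈ Set.Ioo x 1, y ∉ (R : Set ℝ) := by
      have : (Set.Ioo x 1 \ (R : Set ℝ)).Nonempty :=
        ((Set.Ioo_infinite hx01.2).sdiff R.finite_toSet).nonempty
      obtain ⟨y, hy, hy'⟩ := this
      exact ⟨y, hy, hy'⟩
    have hp : ∀ y, y ∉ (R : Set ℝ) → 0 < (∏ ρ ∈ R, (y - ρ)) ^ 2 := by
      intro y hy
      have : ∏ ρ ∈ R, (y - ρ) ≠ 0 := by
        rw [Finset.prod_ne_zero_iff]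
        intro ρ hρ h
        apply hy
        have : y = ρ := by linarith
        rw [this]; exact hρ
      positivity
    have p1 := hp y1 hy1R
    have p2 := hp y2 hy2R
    have q1 : y1 - x < 0 := by linarith [hy1.2]
    have q2 : 0 < y2 - x := by linarith [hy2.1]
    rcases hsg with hs | hs
    · have a1 := hs y1 hy1.1 (by linarith [hy1.2, hx01.2])
      have a2 := hs y2 (by linarith [hy2.1, hx01.1]) hy2.2
      rw [heval] at a1 a2
      have b1 : 0 ≤ c * (y1 - x) := by
        by_contra h; push Not at h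
        have := mul_neg_of_neg_of_pos h p1; linarith
      have b2 : 0 ≤ c * (y2 - x) := by
        by_contra h; push Not at h
        have := mul_neg_of_neg_of_pos h p2; linarith
      have c1 : c ≤ 0 := by
        by_contra h; push Not at h
        have := mul_neg_of_pos_of_neg h q1; linarith
      have c2 : 0 ≤ c := by
        by_contra h; push Not at h
        have := mul_neg_of_neg_of_pos h q2; linarith
      exact hc0 (le_antisymm c1 c2)
    · have a1 := hs y1 hy1.1 (by linarith [hy1.2, hx01.2])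
      have a2 := hs y2 (by linarith [hy2.1, hx01.1]) hy2.2
      rw [heval] at a1 a2
      have b1 : c * (y1 - x) ≤ 0 := by
        by_contra h; push Not at h
        have := mul_pos h p1; linarith
      have b2 : c * (y2 - x) ≤ 0 := by
        by_contra h; push Not at h
        have := mul_pos h p2; linarith
      have c1 : c ≤ 0 := by
        by_contra h; push Not at h
        have := mul_pos h q2; linarith
      have c2 : 0 ≤ c := by
        by_contra h; push Not at h
        have := mul_pos_of_neg_of_neg h q1; linarith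
      exact hc0 (le_antisymm c1 c2)
  · rw [Finset.erase_eq_of_notMem hx] at hcardle
    omega

theorem pencil (N : ℕ) (hN : 1 ≤ N) (ω : ℂ) (k : ℕ) (hTS : TS N ω (k + 1)) (j : ℕ)
    (q q' : ℝ[X]) (hq : q.Monic) (hqd : q.natDegree = j) (hq' : q'.Monic)
    (hqd' : q'.natDegree = j + 1) (ho : ∀ i, i < j → Lf N ω k i q = 0)
    (ho' : ∀ i, i < j + 1 → Lf N ω k i q' = 0) (α β : ℝ) (hαβ : α ≠ 0 ∨ β ≠ 0) (x : ℝ)
    (h0 : α * q.eval x + β * q'.eval x = 0)
    (h1 : α * (derivative q).eval x + β * (derivative q').eval x = 0) : False := by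
  set Q : ℝ[X] := α • q + β • q' with hQdef
  have hQ : Q ≠ 0 := by
    intro h
    have c1 := congrArg (fun p => coeff p (j + 1)) h
    simp only [hQdef, coeff_add, coeff_smul, smul_eq_mul, coeff_zero] at c1
    have c2 : q'.coeff (j + 1) = 1 := by
      have := hq'.coeff_natDegree; rwa [hqd'] at this
    have c3 : q.coeff (j + 1) = 0 := coeff_eq_zero_of_natDegree_lt (by omega)
    rw [c2, c3] at c1
    have hβ : β = 0 := by linarith
    have c4 := congrArg (fun p => coeff p j) h
    simp only [hQdef, coeff_add, coeff_smul, smul_eq_mul, coeff_zero, hβ] at c4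
    have c5 : q.coeff j = 1 := by
      have := hq.coeff_natDegree; rwa [hqd] at this
    rw [c5] at c4
    have hα : α = 0 := by linarith
    rcases hαβ with h | h
    · exact h hα
    · exact h hβ
  have hdeg : Q.natDegree ≤ j + 1 := by
    apply natDegree_add_le_of_degree_le
    · exact (natDegree_smul_le _ _).trans (by omega)
    · exact (natDegree_smul_le _ _).trans (by omega)
  have horth : ∀ i, i < j → Lf N ω k i Q = 0 := by
    intro i hi
    have : LfL N ω k i Q = α * LfL N ω k i q + β * LfL N ω k i q' := by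
      rw [hQdef, map_add, map_smul, map_smul, smul_eq_mul, smul_eq_mul]
    rw [LfL_apply, LfL_apply, LfL_apply, ho i hi, ho' i (by omega)] at this
    rw [this]; ring
  obtain ⟨R, hR, hRr, hcard, hsg⟩ := many_roots N hN ω k hTS j Q hQ horth
  refine no_double_root j Q hQ hdeg R hR hRr hcard hsg x ?_ ?_
  · rw [hQdef, eval_add, eval_smul, eval_smul, smul_eq_mul, smul_eq_mul]; exact h0
  · rw [hQdef, derivative_add, derivative_smul, derivative_smul, eval_add, eval_smul, eval_smul,
      smul_eq_mul, smul_eq_mul]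
    exact h1

theorem eq_prod_of_roots (n : ℕ) (q : ℝ[X]) (hq : q.Monic) (hd : q.natDegree = n) (s : ℕ → ℝ)
    (hs : ∀ i, i < n → q.eval (s i) = 0) (hinj : ∀ a b, a < n → b < n → s a = s b → a = b) :
    q = ∏ ν ∈ Finset.range n, (X - C (s ν)) := by
  have hmon : (∏ ν ∈ Finset.range n, (X - C (s ν))).Monic :=
    monic_prod_of_monic _ _ (fun ρ _ => monic_X_sub_C _)
  have hdvd : (∏ ν ∈ Finset.range n, (X - C (s ν))) ∣ q := by
    apply Finset.prod_dvd_of_coprime
    · intro a ha b hb hab
      have ha' : a < n := Finset.mem_range.mp ha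
      have hb' : b < n := Finset.mem_range.mp hb
      apply isCoprime_X_sub_C_of_isUnit_sub
      rw [isUnit_iff_ne_zero]
      intro h
      exact hab (hinj a b ha' hb' (by linarith))
    · intro i hi
      exact dvd_iff_isRoot.mpr (hs i (Finset.mem_range.mp hi))
  have hnd : (∏ ν ∈ Finset.range n, (X - C (s ν))).natDegree = n := by
    rw [natDegree_prod_of_monic _ _ (fun ρ _ => monic_X_sub_C _)]
    simp
  exact eq_of_monic_of_dvd_of_natDegree_le hmon hq hdvd (by omega)

theorem interlace (N : ℕ) (hN : 1 ≤ N) (ω : ℂ) (k : ℕ) (hTS : TS N ω (k + 1)) (j : ℕ)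
    (q q' : ℝ[X]) (hq : q.Monic) (hqd : q.natDegree = j) (hq' : q'.Monic)
    (hqd' : q'.natDegree = j + 1) (ho : ∀ i, i < j → Lf N ω k i q = 0)
    (ho' : ∀ i, i < j + 1 → Lf N ω k i q' = 0) :
    ∃ t s : ℕ → ℝ, q = ∏ ν ∈ Finset.range j, (X - C (t ν)) ∧
      q' = ∏ ν ∈ Finset.range (j + 1), (X - C (s ν)) ∧ 0 < s 0 ∧ s j < 1 ∧
      ∀ ν, ν < j → s ν < t ν ∧ t ν < s (ν + 1) := by
  classical
  have hpen := pencil N hN ω k hTS j q q' hq hqd hq' hqd' ho ho'
  obtain ⟨R, hR, hRr, hcard, _⟩ := many_roots N hN ω k hTS (j + 1) q' hq'.ne_zero ho'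
  have hcle := card_le_natDegree q' hq'.ne_zero R hRr
  have hRc : R.card = j + 1 := by omega
  set e := R.orderEmbOfFin hRc with he
  set s : ℕ → ℝ := fun i => if h : i < j + 1 then e ⟨i, h⟩ else 0 with hs
  have hsmem : ∀ i, i < j + 1 → s i ∈ R := by
    intro i hi
    simp only [hs, hi, dif_pos]
    exact Finset.orderEmbOfFin_mem _ _ _
  have hsmono : ∀ a b, a < j + 1 → b < j + 1 → a < b → s a < s b := by
    intro a b ha hb hab
    simp only [hs, ha, hb, dif_pos]
    exact e.lt_iff_lt.mpr (by simpa [Fin.lt_def] using hab)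
  have hsinj : ∀ a b, a < j + 1 → b < j + 1 → s a = s b → a = b := by
    intro a b ha hb hab
    rcases lt_trichotomy a b with h | h | h
    · exact absurd hab (hsmono a b ha hb h).ne
    · exact h
    · exact absurd hab (hsmono b a hb ha h).ne'
  have hq'prod := eq_prod_of_roots (j + 1) q' hq' hqd' s (fun i hi => hRr _ (hsmem i hi)) hsinj
  -- no common zeros
  have hnc : ∀ i, i < j + 1 → q.eval (s i) ≠ 0 := by
    intro i hi h0
    have h0' : q'.eval (s i) = 0 := hRr _ (hsmem i hi)
    by_cases hz : (derivative q).eval (s i) = 0 ∧ (derivative q').eval (s i) = 0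
    · exact hpen 1 0 (Or.inl one_ne_zero) (s i) (by rw [h0]; ring) (by rw [hz.1]; ring)
    · refine hpen ((derivative q').eval (s i)) (-(derivative q).eval (s i)) ?_ (s i)
        (by rw [h0, h0']; ring) (by ring)
      by_contra hcon
      push Not at hcon
      exact hz ⟨by linarith [hcon.2], hcon.1⟩
  have hex : ∀ ν, ∃ t, ν < j → s ν < t ∧ t < s (ν + 1) ∧ q.eval t = 0 := by
    intro ν
    by_cases hν : ν < j
    · by_contra hcon
      push Not at hcon
      have hcon' : ∀ t, s ν < t → t < s (ν + 1) → q.eval t ≠ 0 := fun t h1 h2 => (hcon t).2 h1 h2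
      have hne : ∀ t ∈ Set.Icc (s ν) (s (ν + 1)), q.eval t ≠ 0 := by
        intro t ht
        rcases eq_or_lt_of_le ht.1 with h | h
        · rw [← h]; exact hnc ν (by omega)
        · rcases eq_or_lt_of_le ht.2 with h' | h'
          · rw [h']; exact hnc (ν + 1) (by omega)
          · exact hcon' t h h'
      have hlt := hsmono ν (ν + 1) (by omega) (by omega) (by omega)
      have hder : ∀ t ∈ Set.Ioo (s ν) (s (ν + 1)), HasDerivAt (fun y => q'.eval y / q.eval y)
          (((derivative q').eval t * q.eval t - q'.eval t * (derivative q).eval t) /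
            (q.eval t) ^ 2) t := by
        intro t ht
        exact (q'.hasDerivAt t).div (q.hasDerivAt t) (hne t (Set.Ioo_subset_Icc_self ht))
      have hcont : ContinuousOn (fun y => q'.eval y / q.eval y) (Set.Icc (s ν) (s (ν + 1))) :=
        q'.continuous.continuousOn.div q.continuous.continuousOn hne
      obtain ⟨x, hx, hx0⟩ := exists_hasDerivAt_eq_zero hlt hcont (by
        rw [hRr _ (hsmem ν (by omega)), hRr _ (hsmem (ν + 1) (by omega))]
        simp) hder
      have hqx := hne x (Set.Ioo_subset_Icc_self hx)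
      have hx1 : (derivative q').eval x * q.eval x - q'.eval x * (derivative q).eval x = 0 := by
        rcases div_eq_zero_iff.mp hx0 with h | h
        · exact h
        · exact absurd h (pow_ne_zero 2 hqx)
      refine hpen (q'.eval x) (-q.eval x) (Or.inr (neg_ne_zero.mpr hqx)) x (by ring) ?_
      linarith
    · exact ⟨0, fun h => absurd h hν⟩
  choose t ht using hex
  have htmono : ∀ a b, a < j → b < j → a < b → t a < t b := by
    intro a b ha hb hab
    have h1 := (ht a ha).2.1
    have h2 := (ht b hb).1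
    have h3 : s (a + 1) ≤ s b := by
      rcases Nat.eq_or_lt_of_le (Nat.succ_le_of_lt hab) with h | h
      · rw [← h]
      · exact (hsmono (a + 1) b (by omega) (by omega) h).le
    linarith
  have htinj : ∀ a b, a < j → b < j → t a = t b → a = b := by
    intro a b ha hb hab
    rcases lt_trichotomy a b with h | h | h
    · exact absurd hab (htmono a b ha hb h).ne
    · exact h
    · exact absurd hab (htmono b a hb ha h).ne'
  refine ⟨t, s, eq_prod_of_roots j q hq hqd t (fun i hi => (ht i hi).2.2) htinj, hq'prod, ?_, ?_, ?_⟩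
  · exact (hR _ (hsmem 0 (by omega))).1
  · exact (hR _ (hsmem j (by omega))).2
  · intro ν hν
    exact ⟨(ht ν hν).1, (ht ν hν).2.1⟩

end Pool.L5helper83.BP
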