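import Mathlib
import Pool.Agent.L5helper83.BPGeo
import Pool.Agent.L5helper83.BPInter

set_option autoImplicit false
open Polynomial MeasureTheory

namespace Pool.L5helper83.BP

/-- the open polygon -/
def GN (N : ℕ) : Set ℂ := interior (convexHull ℝ {w : ℂ | w ^ N = 1})

theorem GN_integrable (N : ℕ) (hN : 1 ≤ N) (f : ℂ → ℂ) (hf : Continuous f) :
    IntegrableOn f (GN N) := by
  have h1 : IntegrableOn f (KN N) := hf.continuousOn.integrableOn_compact (KN_compact N hN)
  exact h1.mono_set interior_subset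

/-- the candidate polynomial -/
noncomputable def cand (N k : ℕ) (q : ℝ[X]) : ℂ[X] :=
  X ^ k * (q.map (algebraMap ℝ ℂ)).comp (X ^ N)

theorem cand_eval (N k : ℕ) (q : ℝ[X]) (z : ℂ) :
    (cand N k q).eval z = ∑ i ∈ Finset.range (q.natDegree + 1), (q.coeff i : ℂ) * z ^ (k + N * i) := by
  unfold cand
  rw [eval_mul, eval_pow, eval_X, eval_comp, eval_pow, eval_X, eval_map, eval₂_eq_sum_range,
    Finset.mul_sum]
  apply Finset.sum_congr rfl
  intro i _
  rw [pow_add, pow_mul]
  simp only [Complex.coe_algebraMap]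
  ring

theorem cand_monic (N k : ℕ) (hN : 1 ≤ N) (q : ℝ[X]) (hq : q.Monic) : (cand N k q).Monic := by
  unfold cand
  apply (monic_X_pow k).mul
  apply (hq.map _).comp (monic_X_pow N)
  rw [natDegree_X_pow]; omega

theorem cand_natDegree (N k : ℕ) (hN : 1 ≤ N) (q : ℝ[X]) (hq : q.Monic) :
    (cand N k q).natDegree = q.natDegree * N + k := by
  unfold cand
  have h1 : ((q.map (algebraMap ℝ ℂ)).comp (X ^ N)).Monic := by
    apply (hq.map _).comp (monic_X_pow N)
    rw [natDegree_X_pow]; omega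
  rw [(monic_X_pow k).natDegree_mul h1, natDegree_X_pow, natDegree_comp, natDegree_X_pow,
    natDegree_map]
  ring

theorem cand_orth_monomial {N : ℕ} {ω : ℂ} (h : Geo N ω) (k j : ℕ) (hk : k < N) (q : ℝ[X])
    (ho : ∀ i, i < j → Lf N ω k i q = 0) (m : ℕ) (hm : m < j * N + k) :
    ∫ z in GN N, (cand N k q).eval z * ((starRingEnd ℂ) z) ^ m = 0 := by
  have h1 : ∀ z : ℂ, (cand N k q).eval z * ((starRingEnd ℂ) z) ^ m =
      ∑ i ∈ Finset.range (q.natDegree + 1), (q.coeff i : ℂ) *
        (z ^ (k + N * i) * ((starRingEnd ℂ) z) ^ m) := by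
    intro z
    rw [cand_eval, Finset.sum_mul]
    apply Finset.sum_congr rfl
    intro i _
    ring
  simp_rw [h1]
  rw [integral_finsetSum]
  swap
  · intro i _
    apply GN_integrable N h.hN
    exact continuous_const.mul ((continuous_pow _).mul (Complex.continuous_conj.pow m))
  simp_rw [integral_const_mul]
  have h2 : ∀ i : ℕ, ∫ z in GN N, z ^ (k + N * i) * ((starRingEnd ℂ) z) ^ m =
      if k ≡ m [MOD N] then ((N : ℂ) / (m + 1 : ℂ)) * ((∫ x in (0 : ℝ)..1,
        x ^ (k + N * i) * ((1 + ω * ((1 - x : ℝ) : ℂ)) ^ (m + 1)).im : ℝ) : ℂ) else 0 := by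
    intro i
    have h3 := area_monomial h (k + N * i) m
    have h4 : (k + N * i ≡ m [MOD N]) ↔ (k ≡ m [MOD N]) := by
      unfold Nat.ModEq
      rw [Nat.add_mul_mod_self_left]
    simp only [h4] at h3
    exact h3
  simp_rw [h2]
  split_ifs with hkm
  · -- m = k + N l
    obtain ⟨l, hl, rfl⟩ : ∃ l, l < j ∧ m = k + N * l := by
      have h5 : m % N = k := by
        have : k % N = m % N := hkm
        rw [← this, Nat.mod_eq_of_lt hk]
      refine ⟨m / N, ?_, ?_⟩
      · rw [Nat.div_lt_iff_lt_mul (by omega)]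
        have h6 := Nat.div_add_mod m N
        rw [h5] at h6
        by_contra hcon
        push Not at hcon
        have : j ≤ m / N := (Nat.le_div_iff_mul_le (by omega)).mpr hcon
        have : N * j ≤ N * (m / N) := Nat.mul_le_mul_left N this
        rw [mul_comm] at hm
        omega
      · have h6 := Nat.div_add_mod m N
        rw [h5] at h6
        omega
    have h7 := ho l hl
    unfold Lf phi at h7
    have h8 : ∀ x : ℝ, x ^ k * q.eval (x ^ N) *
        ((1 + ω * ((1 - x : ℝ) : ℂ)) ^ (k + 1 + N * l)).im =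
        ∑ i ∈ Finset.range (q.natDegree + 1), q.coeff i *
          (x ^ (k + N * i) * ((1 + ω * ((1 - x : ℝ) : ℂ)) ^ (k + N * l + 1)).im) := by
      intro x
      rw [eval_eq_sum_range, Finset.mul_sum, Finset.sum_mul]
      apply Finset.sum_congr rfl
      intro i _
      have : k + 1 + N * l = k + N * l + 1 := by ring
      rw [this, pow_add x k (N * i), pow_mul x N i]
      ring
    simp_rw [h8] at h7
    rw [intervalIntegral.integral_finsetSum] at h7
    swap
    · intro i _
      apply Continuous.intervalIntegrable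
      fun_prop
    simp_rw [intervalIntegral.integral_const_mul] at h7
    have h9 : ∑ i ∈ Finset.range (q.natDegree + 1), (q.coeff i : ℂ) *
        (((N : ℂ) / (((k + N * l : ℕ) : ℂ) + 1)) * ((∫ x in (0 : ℝ)..1,
        x ^ (k + N * i) * ((1 + ω * ((1 - x : ℝ) : ℂ)) ^ (k + N * l + 1)).im : ℝ) : ℂ)) =
        ((N : ℂ) / (((k + N * l : ℕ) : ℂ) + 1)) *
        ((∑ i ∈ Finset.range (q.natDegree + 1), q.coeff i * ∫ x in (0 : ℝ)..1,
        x ^ (k + N * i) * ((1 + ω * ((1 - x : ℝ) : ℂ)) ^ (k + N * l + 1)).im : ℝ) : ℂ) := by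
      rw [Complex.ofReal_sum, Finset.mul_sum]
      apply Finset.sum_congr rfl
      intro i _
      rw [Complex.ofReal_mul]
      ring
    rw [h9, h7]
    simp
  · simp

theorem cand_orth {N : ℕ} {ω : ℂ} (h : Geo N ω) (k j : ℕ) (hk : k < N) (q : ℝ[X])
    (ho : ∀ i, i < j → Lf N ω k i q = 0) (r : ℂ[X]) (hr : r.natDegree < j * N + k) :
    ∫ z in GN N, (cand N k q).eval z * (starRingEnd ℂ) (r.eval z) = 0 := by
  have h1 : ∀ z : ℂ, (cand N k q).eval z * (starRingEnd ℂ) (r.eval z) =
      ∑ m ∈ Finset.range (r.natDegree + 1), (starRingEnd ℂ) (r.coeff m) *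
        ((cand N k q).eval z * ((starRingEnd ℂ) z) ^ m) := by
    intro z
    rw [eval_eq_sum_range (p := r), map_sum, Finset.mul_sum]
    apply Finset.sum_congr rfl
    intro m _
    rw [map_mul, map_pow]
    ring
  simp_rw [h1]
  rw [integral_finsetSum]
  swap
  · intro m _
    apply GN_integrable N h.hN
    exact continuous_const.mul ((cand N k q).continuous.mul (Complex.continuous_conj.pow m))
  apply Finset.sum_eq_zero
  intro m hm
  rw [integral_const_mul, cand_orth_monomial h k j hk q ho m (by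
    have := Finset.mem_range.mp hm; omega), mul_zero]

theorem GN_infinite {N : ℕ} {ω : ℂ} (h : Geo N ω) : (GN N).Infinite := by
  set U : Set ℂ := {z | 0 < cX ω z ∧ 0 < cY ω z ∧ cX ω z + cY ω z < 1} with hU
  have hUo : IsOpen U := by
    have h1 : IsOpen {z | 0 < cX ω z} := isOpen_lt continuous_const (cX_continuous ω)
    have h2 : IsOpen {z | 0 < cY ω z} := isOpen_lt continuous_const (cY_continuous ω)
    have h3 : IsOpen {z | cX ω z + cY ω z < 1} :=
      isOpen_lt ((cX_continuous ω).add (cY_continuous ω)) continuous_const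
    exact h1.inter (h2.inter h3)
  have hUK : U ⊆ KN N := by
    rintro z ⟨h1, h2, h3⟩
    exact ((mem_Tri_iff h z).mp ⟨h1, h2.le, h3.le⟩).1
  have hUG : U ⊆ GN N := interior_maximal hUK hUo
  have hUi : U.Infinite := by
    have hinj : Function.Injective (fun s : ℝ => ((1 / 2 : ℝ) : ℂ) + ω * (s : ℂ)) := by
      intro a b hab
      have h1 := (coord_add ω h.him (1 / 2) a).2
      have h2 := (coord_add ω h.him (1 / 2) b).2
      rw [← h1, ← h2]
      exact congrArg (cY ω) hab
    have h1 : ((fun s : ℝ => ((1 / 2 : ℝ) : ℂ) + ω * (s : ℂ)) '' (Set.Ioo (0 : ℝ) (1 / 2))).Infinite :=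
      (Set.Ioo_infinite (by norm_num)).image hinj.injOn
    refine h1.mono ?_
    rintro _ ⟨s, hs, rfl⟩
    have h2 := coord_add ω h.him (1 / 2) s
    simp only [hU, Set.mem_ofPred_eq, h2.1, h2.2]
    exact ⟨by norm_num, hs.1, by linarith [hs.2]⟩
  exact hUi.mono hUG

theorem uniq {N : ℕ} {ω : ℂ} (h : Geo N ω) (n : ℕ) (hn : 1 ≤ n) (p p' : ℂ[X]) (hp : p.Monic)
    (hpd : p.natDegree = n) (hp' : p'.Monic) (hpd' : p'.natDegree = n)
    (ho : ∀ r : ℂ[X], r.natDegree < n → ∫ z in GN N, p.eval z * (starRingEnd ℂ) (r.eval z) = 0)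
    (ho' : ∀ r : ℂ[X], r.natDegree < n → ∫ z in GN N, p'.eval z * (starRingEnd ℂ) (r.eval z) = 0) :
    p = p' := by
  by_contra hne
  set d := p - p' with hd
  have hd0 : d ≠ 0 := sub_ne_zero.mpr hne
  have hdeg : d.natDegree < n := by
    have h1 : p.degree = p'.degree := by
      rw [degree_eq_natDegree hp.ne_zero, degree_eq_natDegree hp'.ne_zero, hpd, hpd']
    have h2 : d.degree < p.degree :=
      degree_sub_lt_left h1 hp.ne_zero (by rw [hp.leadingCoeff, hp'.leadingCoeff])
    rw [degree_eq_natDegree hp.ne_zero, hpd, degree_eq_natDegree hd0] at h2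
    exact_mod_cast h2
  have h3 : ∫ z in GN N, d.eval z * (starRingEnd ℂ) (d.eval z) = 0 := by
    have h4 : ∀ z, d.eval z * (starRingEnd ℂ) (d.eval z) =
        p.eval z * (starRingEnd ℂ) (d.eval z) - p'.eval z * (starRingEnd ℂ) (d.eval z) := by
      intro z
      rw [← sub_mul, hd, eval_sub]
    simp_rw [h4]
    rw [integral_sub, ho d hdeg, ho' d hdeg, sub_zero]
    · exact GN_integrable N h.hN _ (p.continuous.mul (Complex.continuous_conj.comp d.continuous))
    · exact GN_integrable N h.hN _ (p'.continuous.mul (Complex.continuous_conj.comp d.continuous))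
  have h5 : ∀ z, d.eval z * (starRingEnd ℂ) (d.eval z) = ((‖d.eval z‖ ^ 2 : ℝ) : ℂ) := by
    intro z
    rw [Complex.mul_conj, Complex.normSq_eq_norm_sq]
  simp_rw [h5] at h3
  rw [integral_complex_ofReal] at h3
  have h6 : ∫ z in GN N, ‖d.eval z‖ ^ 2 = 0 := by exact_mod_cast h3
  have hcont : Continuous (fun z : ℂ => ‖d.eval z‖ ^ 2) := (d.continuous.norm).pow 2
  have hint : IntegrableOn (fun z : ℂ => ‖d.eval z‖ ^ 2) (GN N) := by
    have h7 : IntegrableOn (fun z : ℂ => ‖d.eval z‖ ^ 2) (KN N) :=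
      hcont.continuousOn.integrableOn_compact (KN_compact N h.hN)
    exact h7.mono_set interior_subset
  rw [integral_eq_zero_iff_of_nonneg (fun z => by positivity) hint] at h6
  have hopen : IsOpen (GN N) := isOpen_interior
  have h8 : Set.EqOn (fun z : ℂ => ‖d.eval z‖ ^ 2) 0 (GN N) :=
    Measure.eqOn_open_of_ae_eq h6 hopen hcont.continuousOn continuousOn_const
  apply hd0
  apply eq_zero_of_infinite_isRoot
  refine (GN_infinite h).mono ?_
  intro z hz
  have h9 := h8 hz
  simp only [Pi.zero_apply] at h9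
  have h10 : ‖d.eval z‖ = 0 := by
    rcases pow_eq_zero_iff (n := 2) (by norm_num) |>.mp h9 with h
    exact h
  exact norm_eq_zero.mp h10

theorem main {N : ℕ} {ω : ℂ} (h : Geo N ω) (k : ℕ) (hk : k < N) (hTS : TS N ω (k + 1)) (j : ℕ)
    (hj : 1 ≤ j) (p p' : ℂ[X]) (hp : p.Monic) (hpd : p.natDegree = j * N + k)
    (ho : ∀ r : ℂ[X], r.natDegree < j * N + k →
      ∫ z in GN N, p.eval z * (starRingEnd ℂ) (r.eval z) = 0)
    (hp' : p'.Monic) (hpd' : p'.natDegree = (j + 1) * N + k)
    (ho' : ∀ r : ℂ[X], r.natDegree < (j + 1) * N + k →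
      ∫ z in GN N, p'.eval z * (starRingEnd ℂ) (r.eval z) = 0) :
    ∃ t s : ℕ → ℝ,
      p = X ^ k * (∏ ν ∈ Finset.range j, (X - C ((t ν : ℝ) : ℂ))).comp (X ^ N) ∧
      p' = X ^ k * (∏ ν ∈ Finset.range (j + 1), (X - C ((s ν : ℝ) : ℂ))).comp (X ^ N) ∧
      0 < s 0 ∧ s j < 1 ∧ ∀ ν, ν < j → s ν < t ν ∧ t ν < s (ν + 1) := by
  obtain ⟨q, hq, hqd, hqo⟩ := exists_orth N h.hN ω k hTS j
  obtain ⟨q', hq', hqd', hqo'⟩ := exists_orth N h.hN ω k hTS (j + 1)
  obtain ⟨t, s, ht, hs, h1, h2, h3⟩ := interlace N h.hN ω k hTS j q q' hq hqd hq' hqd' hqo hqo'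
  have hN := h.hN
  have e1 : p = cand N k q := by
    apply uniq h (j * N + k) (by nlinarith) p _ hp hpd (cand_monic N k h.hN q hq)
      (by rw [cand_natDegree N k h.hN q hq, hqd]) ho
    intro r hr
    exact cand_orth h k j hk q hqo r hr
  have e2 : p' = cand N k q' := by
    apply uniq h ((j + 1) * N + k) (by nlinarith) p' _ hp' hpd' (cand_monic N k h.hN q' hq')
      (by rw [cand_natDegree N k h.hN q' hq', hqd']) ho'
    intro r hr
    exact cand_orth h k (j + 1) hk q' hqo' r hr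
  refine ⟨t, s, ?_, ?_, h1, h2, h3⟩
  · rw [e1]
    unfold cand
    rw [ht, Polynomial.map_prod]
    simp
  · rw [e2]
    unfold cand
    rw [hs, Polynomial.map_prod]
    simp

theorem exists_omega3 : ∃ ω : ℂ, ω ^ 2 + ω + 1 = 0 ∧ 0 < ω.im := by
  refine ⟨⟨-1 / 2, Real.sqrt 3 / 2⟩, ?_, ?_⟩
  · have h3 : Real.sqrt 3 * Real.sqrt 3 = 3 := Real.mul_self_sqrt (by norm_num)
    apply Complex.ext
    · simp [sq]
      nlinarith
    · simp [sq]
      ring
  · simp

end Pool.L5helper83.BP
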