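import Mathlib

set_option autoImplicit false

open Matrix
open scoped ComplexOrder MatrixOrder

namespace Pool.Agent.L5helper83

variable {n : ℕ}

/-- If `A` is Hermitian and `A - 1` is positive semidefinite, then `1 ≤ det A`. -/
theorem one_le_det {A : Matrix (Fin n) (Fin n) ℂ} (hA : A.IsHermitian) (h : (A - 1).PosSemidef) :
    1 ≤ A.det.re := by
  have h1 : ∀ i, 1 ≤ hA.eigenvalues i := by
    intro i
    have h2 := h.re_dotProduct_nonneg (hA.eigenvectorBasis i : Fin n → ℂ)
    rw [Matrix.sub_mulVec, Matrix.one_mulVec, hA.mulVec_eigenvectorBasis] at h2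
    have h3 : star (hA.eigenvectorBasis i : Fin n → ℂ) ⬝ᵥ (hA.eigenvectorBasis i : Fin n → ℂ) = 1 := by
      have := hA.eigenvectorBasis.orthonormal.1 i
      have h4 := EuclideanSpace.inner_eq_star_dotProduct (𝕜 := ℂ) (hA.eigenvectorBasis i) (hA.eigenvectorBasis i)
      rw [inner_self_eq_norm_sq_to_K, this] at h4
      rw [dotProduct_comm]
      simpa using h4.symm
    rw [dotProduct_sub, dotProduct_smul, h3] at h2
    simpa using h2
  have h6 : A.det.re = ∏ i, hA.eigenvalues i := by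
    rw [hA.det_eq_prod_eigenvalues]
    change (∏ i, ((hA.eigenvalues i : ℝ) : ℂ)).re = _
    rw [← Complex.ofReal_prod, Complex.ofReal_re]
  rw [h6]
  exact Finset.prod_induction _ (fun x => (1:ℝ) ≤ x)
    (fun a b ha hb => one_le_mul_of_one_le_of_one_le ha hb) le_rfl (fun i _ => h1 i)

theorem posDef_det_im {A : Matrix (Fin n) (Fin n) ℂ} (hA : A.PosDef) : A.det.im = 0 ∧ 0 < A.det.re := by
  have := hA.det_pos
  rw [Complex.lt_def] at this
  exact ⟨this.2.symm, by simpa using this.1⟩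

/-- Monotonicity of the determinant on positive definite matrices. -/
theorem det_re_le_of_sub_posSemidef {A B : Matrix (Fin n) (Fin n) ℂ} (hA : A.PosDef)
    (h : (B - A).PosSemidef) : A.det.re ≤ B.det.re := by
  have hA0 : (0 : Matrix (Fin n) (Fin n) ℂ) ≤ A := hA.posSemidef.nonneg
  set S := CFC.sqrt A with hSd
  have hSS : S * S = A := CFC.sqrt_mul_sqrt_self A hA0
  have hS0 : (0 : Matrix (Fin n) (Fin n) ℂ) ≤ S := CFC.sqrt_nonneg A
  have hSH : Sᴴ = S := (Matrix.nonneg_iff_posSemidef.mp hS0).isHermitian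
  have hdA : S.det * S.det = A.det := by rw [← Matrix.det_mul, hSS]
  have hAd : A.det ≠ 0 := hA.det_pos.ne'
  have hSd0 : S.det ≠ 0 := by
    intro h0; rw [h0, zero_mul] at hdA; exact hAd hdA.symm
  have hSu : IsUnit S.det := isUnit_iff_ne_zero.mpr hSd0
  have hCH : (S⁻¹)ᴴ = S⁻¹ := by rw [Matrix.conjTranspose_nonsing_inv, hSH]
  have h1 : (S⁻¹ * A * S⁻¹) = 1 := by
    rw [← hSS, ← Matrix.mul_assoc, Matrix.nonsing_inv_mul _ hSu, Matrix.one_mul,
      Matrix.mul_nonsing_inv _ hSu]
  have h2 : (S⁻¹ * B * S⁻¹ - 1).PosSemidef := by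
    have h3 := h.conjTranspose_mul_mul_same (S⁻¹)
    rw [hCH, Matrix.mul_sub, Matrix.sub_mul, h1] at h3
    exact h3
  have hBH : B.IsHermitian := by
    have := h.isHermitian.add hA.isHermitian
    simpa using this
  have h4 : (S⁻¹ * B * S⁻¹).IsHermitian := by
    have := Matrix.isHermitian_conjTranspose_mul_mul (S⁻¹) hBH
    rwa [hCH] at this
  have h5 := one_le_det h4 h2
  have hSim : S.det.im = 0 := by
    have h6 : star S.det = S.det := by
      rw [← Matrix.det_conjTranspose, hSH]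
    exact Complex.conj_eq_iff_im.mp h6
  have hSre : S.det = (S.det.re : ℂ) := Complex.ext (by simp) (by simpa using hSim)
  have hdetB : (S⁻¹ * B * S⁻¹).det = (((S.det.re)⁻¹ ^ 2 : ℝ) : ℂ) * B.det := by
    rw [Matrix.det_mul, Matrix.det_mul, Matrix.det_nonsing_inv, Ring.inverse_eq_inv', hSre]
    push_cast
    simp only [Complex.ofReal_re]
    ring
  rw [hdetB, Complex.re_ofReal_mul] at h5
  have hAre : A.det.re = S.det.re ^ 2 := by
    rw [← hdA, Complex.mul_re, hSim]; ring
  have hpos : 0 < S.det.re ^ 2 := by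
    rw [← hAre]; exact (posDef_det_im hA).2
  rw [hAre]
  have h7 : S.det.re ^ 2 * ((S.det.re)⁻¹ ^ 2 * B.det.re) = B.det.re := by
    have : S.det.re ≠ 0 := by
      intro h0; rw [h0] at hpos; simp at hpos
    field_simp
  calc S.det.re ^ 2 = S.det.re ^ 2 * 1 := by ring
    _ ≤ S.det.re ^ 2 * ((S.det.re)⁻¹ ^ 2 * B.det.re) := by gcongr
    _ = B.det.re := h7

end Pool.Agent.L5helper83
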