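import Pool.Agent.L5helper13.KM.Defs

/-!
# Polynomials which agree on the coordinate axes

Two polynomials in two variables with the same values at all points of `x * y = 0` have the same
coefficients at the powers of `x` and at the powers of `y`.
-/

set_option autoImplicit false

namespace Pool.Agent.L5helper13.KM

open MvPolynomial Finset

private theorem ex_ext (i j : Fin 2) (hij : i ≠ j) (d e : Ex) (h1 : d i = e i) (h2 : d j = e j) :
    d = e := by
  ext k
  have hk : k = i ∨ k = j := by omega
  rcases hk with rfl | rfl
  · exact h1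
  · exact h2

private theorem cross_aux (D : MvPolynomial (Fin 2) ℂ) (i j : Fin 2) (hij : i ≠ j)
    (h : ∀ t : ℂ, eval (fun k => if k = i then t else 0) D = 0) (e : Ex) (he : e j = 0) :
    coeff e D = 0 := by
  classical
  have hprod : ∀ (R : Type) [CommRing R] (t : R) (d : Ex),
      ∏ k, (if k = i then t else 0) ^ d k = t ^ d i * 0 ^ d j := by
    intro R _ t d
    rw [Fin.prod_univ_two]
    fin_cases i <;> fin_cases j <;> simp_all [mul_comm]
  set A : Polynomial ℂ := ∑ d ∈ D.support,
    Polynomial.C (coeff d D) * (Polynomial.X ^ d i * 0 ^ d j) with hA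
  have hA0 : A = 0 := by
    apply Polynomial.funext
    intro t
    have h1 := h t
    rw [eval_eq'] at h1
    rw [hA, Polynomial.eval_finsetSum, Polynomial.eval_zero, ← h1]
    refine Finset.sum_congr rfl fun d _ => ?_
    rw [hprod ℂ t d]
    simp
  have hc : A.coeff (e i) = coeff e D := by
    rw [hA, Polynomial.finsetSum_coeff]
    rw [Finset.sum_eq_single e]
    · rw [he]
      simp
    · intro d _ hde
      by_cases hd : d j = 0
      · have hdi : e i ≠ d i := fun h3 => hde (ex_ext i j hij d e h3.symm (by rw [hd, he]))
        rw [hd]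
        simp [Polynomial.coeff_X_pow, hdi]
      · simp [zero_pow hd]
    · intro h3
      rw [MvPolynomial.notMem_support_iff.1 h3]
      simp
  rw [← hc, hA0, Polynomial.coeff_zero]

/-- KM5 (Cross.lean) -/
theorem cross (F G : MvPolynomial (Fin 2) ℂ)
    (h : ∀ v : Fin 2 → ℂ, v 0 * v 1 = 0 → eval v F = eval v G) (e : Ex) (he : e 0 = 0 ∨ e 1 = 0) :
    coeff e F = coeff e G := by
  have key : ∀ i j : Fin 2, i ≠ j → e j = 0 → coeff e (F - G) = 0 := by
    intro i j hij hj
    refine cross_aux (F - G) i j hij (fun t => ?_) e hj
    rw [map_sub, h _ ?_, sub_self]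
    fin_cases i <;> simp
  have h0 : coeff e (F - G) = 0 := by
    rcases he with h1 | h1
    · exact key 1 0 (by decide) h1
    · exact key 0 1 (by decide) h1
  rwa [coeff_sub, sub_eq_zero] at h0

end Pool.Agent.L5helper13.KM
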