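import Mathlib

/-!
# The complex Monge-Ampere flow on a domain: definitions
-/

set_option autoImplicit false

open Set Filter Topology Metric
open scoped ContDiff ComplexOrder

namespace Pool.Agent.L5helper83.MA

/-- `ℂⁿ` with the Euclidean norm. -/
abbrev Cn (n : ℕ) : Type := EuclideanSpace ℂ (Fin n)

/-- The vector `c e_j` of `ℂⁿ`. -/
noncomputable def vec {n : ℕ} (j : Fin n) (c : ℂ) : Cn n := EuclideanSpace.single j c

/-- The second real derivative `D²g(z)(x, y)`. -/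
noncomputable def secondDeriv {n : ℕ} (g : Cn n → ℝ) (z x y : Cn n) : ℝ := iteratedFDeriv ℝ 2 g z ![x, y]

/-- The complex Hessian `(∂²g/∂z_j∂z̄_k (z))_{j,k}` of `g : ℂⁿ → ℝ` at `z`: the entry `(j, k)` has the real part
`1/4 (D²g(e_j, e_k) + D²g(i e_j, i e_k))` and the imaginary part `1/4 (D²g(e_j, i e_k) - D²g(i e_j, e_k))`. -/
noncomputable def complexHessian {n : ℕ} (g : Cn n → ℝ) (z : Cn n) : Matrix (Fin n) (Fin n) ℂ :=
  fun j k => ⟨(secondDeriv g z (vec j 1) (vec k 1) + secondDeriv g z (vec j Complex.I) (vec k Complex.I)) / 4,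
    (secondDeriv g z (vec j 1) (vec k Complex.I) - secondDeriv g z (vec j Complex.I) (vec k 1)) / 4⟩

/-- `ρ` is a smooth strictly plurisubharmonic defining function of `Ω` on the neighbourhood `V` of the boundary,
with `dρ ≠ 0` on the boundary. -/
def IsDefiningFunction {n : ℕ} (Ω V : Set (Cn n)) (ρ : Cn n → ℝ) : Prop :=
  IsOpen V ∧ frontier Ω ⊆ V ∧ ContDiffOn ℝ ∞ ρ V ∧ (∀ z ∈ V, (complexHessian ρ z).PosDef) ∧
    (∀ z ∈ frontier Ω, ∃ v, fderiv ℝ ρ z v ≠ 0) ∧ ∀ z ∈ V, (z ∈ Ω ↔ ρ z < 0)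

/-- `Ω` is a bounded strictly pseudoconvex domain with smooth boundary: a bounded connected open set with a smooth
strictly plurisubharmonic defining function near its boundary. -/
def IsStrictlyPseudoconvexDomain {n : ℕ} (Ω : Set (Cn n)) : Prop :=
  IsOpen Ω ∧ IsConnected Ω ∧ Bornology.IsBounded Ω ∧
    ∃ (V : Set (Cn n)) (ρ : Cn n → ℝ), IsDefiningFunction Ω V ρ

/-- `u : ℂⁿ → [-∞, ∞)` is plurisubharmonic on the open set `U`: it is upper semicontinuous on `U`, `< ∞` there, not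
identically `-∞` on any ball centred in `U`, and for every closed complex disc `{c + l b : |l| ≤ 1}` in `U` and every
continuous majorant `h` of `u` on the boundary of the disc, `u c` is at most the mean of `h`. -/
def IsPlurisubharmonicOn {n : ℕ} (U : Set (Cn n)) (u : Cn n → EReal) : Prop :=
  UpperSemicontinuousOn u U ∧ (∀ z ∈ U, u z < ⊤) ∧
    (∀ z ∈ U, ∀ r : ℝ, 0 < r → ∃ w ∈ ball z r, u w ≠ ⊥) ∧
    ∀ c b : Cn n, (∀ l : ℂ, ‖l‖ ≤ 1 → c + l • b ∈ U) → ∀ h : ℂ → ℝ, ContinuousOn h (sphere 0 1) →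
      (∀ l : ℂ, ‖l‖ = 1 → u (c + l • b) ≤ ((h l : ℝ) : EReal)) → u c ≤ ((Real.circleAverage h 0 1 : ℝ) : EReal)

/-- The data of the problem: a bounded strictly pseudoconvex domain `Ω ⊂ ℂⁿ` with smooth boundary, `T > 0`, a
plurisubharmonic function `u₀` on a neighbourhood of the closure of `Ω`, and `φ ∈ C^∞(closure Ω × [0,T))` with
`φ(z,t) = u₀(z)` for `z ∈ ∂Ω`, `t ∈ [0,T)`. -/
structure IsFlowData {n : ℕ} (Ω : Set (Cn n)) (T : ℝ) (u₀ : Cn n → EReal) (φ : Cn n → ℝ → ℝ) : Prop where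
  domain : IsStrictlyPseudoconvexDomain Ω
  pos : 0 < T
  psh : ∃ U : Set (Cn n), IsOpen U ∧ closure Ω ⊆ U ∧ IsPlurisubharmonicOn U u₀
  smooth : ContDiffOn ℝ ∞ (fun p : Cn n × ℝ => φ p.1 p.2) (closure Ω ×ˢ Ico 0 T)
  compat : ∀ z ∈ frontier Ω, ∀ t ∈ Ico 0 T, ((φ z t : ℝ) : EReal) = u₀ z

/-- `u` is a solution of the flow with initial datum `u₀` and boundary data `φ`: `u ∈ C^∞(closure Ω × (0,T))`,
1. `u(·,t)` is strictly plurisubharmonic in `Ω`, 2. `∂_t u = log det (u_{j k̄})` on `Ω × (0,T)`, 3. `u = φ` on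
`∂Ω × (0,T)`, 4. `u(z,t) → u₀(z)` in `[-∞,∞)` as `t → 0+`, for every `z` in the closure of `Ω`. -/
structure IsFlowSolution {n : ℕ} (Ω : Set (Cn n)) (T : ℝ) (u₀ : Cn n → EReal) (φ : Cn n → ℝ → ℝ)
    (u : Cn n → ℝ → ℝ) : Prop where
  smooth : ContDiffOn ℝ ∞ (fun p : Cn n × ℝ => u p.1 p.2) (closure Ω ×ˢ Ioo 0 T)
  strict : ∀ t ∈ Ioo 0 T, ∀ z ∈ Ω, (complexHessian (fun w => u w t) z).PosDef
  flow : ∀ z ∈ Ω, ∀ t ∈ Ioo 0 T,
    deriv (fun s => u z s) t = Real.log (complexHessian (fun w => u w t) z).det.re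
  boundary : ∀ z ∈ frontier Ω, ∀ t ∈ Ioo 0 T, u z t = φ z t
  initial : ∀ z ∈ closure Ω, Tendsto (fun t => ((u z t : ℝ) : EReal)) (𝓝[>] 0) (𝓝 (u₀ z))

/-- The Lelong number of `u₀` at `a` is positive: `u₀(z) ≤ γ log |z - a| + C` near `a`, for some `γ > 0` and `C`. -/
def HasPositiveLelongNumber {n : ℕ} (u₀ : Cn n → EReal) (a : Cn n) : Prop :=
  ∃ γ C : ℝ, 0 < γ ∧ ∀ᶠ z in 𝓝[≠] a, u₀ z ≤ ((γ * Real.log ‖z - a‖ + C : ℝ) : EReal)

end Pool.Agent.L5helper83.MA
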