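import Pool.Agent.L5helper83.MAMain

set_option autoImplicit false

open Set Filter Topology Metric Matrix MeasureTheory
open scoped ContDiff ComplexOrder ComplexConjugate ENNReal

namespace Pool.Agent.L5helper83.MA

variable {n : ℕ}

/-- the logarithmic pole `log |z - a|` -/
noncomputable def logPole (a : Cn n) (z : Cn n) : EReal := ENNReal.log ‖z - a‖ₑ

theorem logPole_eq {a z : Cn n} (h : z ≠ a) : logPole a z = ((Real.log ‖z - a‖ : ℝ) : EReal) := by
  unfold logPole
  have hpos : 0 < ‖z - a‖ := norm_pos_iff.mpr (sub_ne_zero.mpr h)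
  rw [← ofReal_norm_eq_enorm, ENNReal.log_ofReal_of_pos hpos]

theorem logPole_self (a : Cn n) : logPole a a = ⊥ := by
  unfold logPole; simp

theorem logPole_continuous (a : Cn n) : Continuous (logPole a) := by
  unfold logPole
  exact ENNReal.continuous_log.comp (continuous_enorm.comp (continuous_id.sub continuous_const))

/-- the mean of `log |α + l β|` over the unit circle is at least `log |α|` -/
theorem log_le_mean {α β : ℂ} (hα : α ≠ 0) {h : ℂ → ℝ} (hc : ContinuousOn h (sphere 0 1))
    (hle : ∀ l : ℂ, ‖l‖ = 1 → α + l * β ≠ 0 → Real.log ‖α + l * β‖ ≤ h l) :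
    Real.log ‖α‖ ≤ Real.circleAverage h 0 1 := by
  have hci : CircleIntegrable h 0 1 := by
    apply ContinuousOn.circleIntegrable (by norm_num) hc
  by_cases hβ : β = 0
  · have h1 : ∀ l ∈ sphere (0:ℂ) |1|, Real.log ‖α‖ ≤ h l := by
      intro l hl
      rw [abs_one, mem_sphere_zero_iff_norm] at hl
      have := hle l hl (by rw [hβ, mul_zero, add_zero]; exact hα)
      rwa [hβ, mul_zero, add_zero] at this
    calc Real.log ‖α‖ = Real.circleAverage (fun _ => Real.log ‖α‖) 0 1 := by
          rw [Real.circleAverage_const]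
      _ ≤ Real.circleAverage h 0 1 := Real.circleAverage_mono (circleIntegrable_const _ _ _) hci h1
  · set l0 : ℂ := -α / β with hl0
    set f : ℂ → ℝ := fun l => Real.log ‖β‖ + Real.log ‖l - l0‖ with hf
    have hff : ∀ l, l ≠ l0 → f l = Real.log ‖α + l * β‖ := by
      intro l hl
      rw [hf]
      simp only
      rw [← Real.log_mul (norm_ne_zero_iff.mpr hβ) (norm_ne_zero_iff.mpr (sub_ne_zero.mpr hl)), ← norm_mul]
      congr 2
      rw [hl0]
      field_simp
      ring
    set f' : ℂ → ℝ := fun l => if l = l0 then h l0 else f l with hf'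
    have hcong : f =ᶠ[codiscreteWithin (sphere (0:ℂ) |1|)] f' := by
      have : {l : ℂ | l ≠ l0} ∈ codiscreteWithin (sphere (0:ℂ) |1|) := by
        rw [mem_codiscreteWithin]
        intro x _
        rw [Filter.disjoint_principal_right]
        have h1 : {l : ℂ | l ≠ l0 ∨ l = x} ∈ 𝓝 x := by
          by_cases hx : x = l0
          · apply mem_of_superset univ_mem
            intro l _
            by_cases h2 : l = l0
            · right; rw [h2, hx]
            · left; exact h2
          · apply mem_of_superset ((_root_.isOpen_ne (x := l0)).mem_nhds hx)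
            intro l hl; left; exact hl
        have h2 : {l : ℂ | l ≠ l0} ∈ 𝓝[≠] x := by
          rw [mem_nhdsWithin_iff_exists_mem_nhds_inter]
          refine ⟨_, h1, ?_⟩
          rintro l ⟨h3 | h3, h4⟩
          · exact h3
          · exact absurd h3 h4
        apply mem_of_superset h2
        intro l hl h3
        exact h3.2 hl
      filter_upwards [this] with l hl
      simp only [hf']
      rw [if_neg hl]
    have hfi : CircleIntegrable f 0 1 := by
      apply CircleIntegrable.add (circleIntegrable_const _ _ _)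
      exact circleIntegrable_log_norm_sub_const 1
    have hfi' : CircleIntegrable f' 0 1 := (circleIntegrable_congr_codiscreteWithin hcong).mp hfi
    have e1 : Real.circleAverage f 0 1 = Real.circleAverage f' 0 1 :=
      Real.circleAverage_congr_codiscreteWithin hcong (by norm_num)
    have e2 : Real.circleAverage f' 0 1 ≤ Real.circleAverage h 0 1 := by
      apply Real.circleAverage_mono hfi' hci
      intro l hl
      rw [abs_one, mem_sphere_zero_iff_norm] at hl
      simp only [hf']
      split_ifs with h1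
      · rw [h1]
      · rw [hff l h1]
        apply hle l hl
        intro h2
        apply h1
        rw [hl0]
        field_simp
        linear_combination h2
    have e3 : Real.circleAverage f 0 1 = Real.log ‖β‖ + Real.posLog ‖l0‖ := by
      have h1 : Real.circleAverage f 0 1 = Real.circleAverage (fun _ : ℂ => Real.log ‖β‖) 0 1 +
          Real.circleAverage (fun l : ℂ => Real.log ‖l - l0‖) 0 1 := by
        apply Real.circleAverage_fun_add (circleIntegrable_const _ _ _)
        exact circleIntegrable_log_norm_sub_const 1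
      rw [h1, Real.circleAverage_const, circleAverage_log_norm_sub_const_eq_posLog]
    have e4 : Real.log ‖α‖ = Real.log ‖β‖ + Real.log ‖l0‖ := by
      rw [← Real.log_mul (norm_ne_zero_iff.mpr hβ) (by
        rw [hl0]; exact norm_ne_zero_iff.mpr (div_ne_zero (neg_ne_zero.mpr hα) hβ)), ← norm_mul]
      congr 1
      rw [hl0, ← norm_neg]
      congr 1
      field_simp
    have e5 : Real.log ‖l0‖ ≤ Real.posLog ‖l0‖ := by
      rw [Real.posLog_def]; exact le_max_right _ _
    linarith

theorem logPole_psh (hn : 0 < n) (a : Cn n) : IsPlurisubharmonicOn univ (logPole a) := by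
  refine ⟨(logPole_continuous a).upperSemicontinuous.upperSemicontinuousOn _, ?_, ?_, ?_⟩
  · intro z _
    by_cases h : z = a
    · rw [h, logPole_self]; exact bot_lt_top
    · rw [logPole_eq h]; exact EReal.coe_lt_top _
  · intro z _ r hr
    have : Nonempty (Fin n) := ⟨⟨0, hn⟩⟩
    have : Nontrivial (Cn n) := inferInstance
    obtain ⟨w, hw1, hw2⟩ : ∃ w ∈ ball z r, w ≠ a := by
      by_contra hcon
      push Not at hcon
      have h1 : ball z r ⊆ {a} := fun w hw => hcon w hw
      have h2 : (ball z r).Subsingleton := subsingleton_singleton.anti h1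
      have h3 : (ball z r).Nontrivial := by
        have : (𝓝[≠] z).NeBot := inferInstance
        obtain ⟨w, hw1, hw2⟩ := (this.nonempty_of_mem (inter_mem_nhdsWithin _ (ball_mem_nhds z hr)))
        exact ⟨z, mem_ball_self hr, w, hw2, Ne.symm hw1⟩
      exact not_subsingleton_iff.mpr h3 h2
    exact ⟨w, hw1, by rw [logPole_eq hw2]; exact EReal.coe_ne_bot _⟩
  · intro c b _ h hc hle
    by_cases hca : c = a
    · rw [hca, logPole_self]; exact bot_le
    · rw [logPole_eq hca, EReal.coe_le_coe_iff]
      set ζ := c - a with hζ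
      have hζ0 : ζ ≠ 0 := sub_ne_zero.mpr hca
      have hζn : (‖ζ‖ : ℂ) ≠ 0 := by
        rw [Ne, Complex.ofReal_eq_zero, norm_eq_zero]; exact hζ0
      set e : Cn n := (‖ζ‖ : ℂ)⁻¹ • ζ with he
      have hen : ‖e‖ = 1 := by
        rw [he, norm_smul, norm_inv, Complex.norm_real, norm_norm, inv_mul_cancel₀]
        exact norm_ne_zero_iff.mpr hζ0
      have heζ : inner ℂ e ζ = (‖ζ‖ : ℂ) := by
        rw [he, inner_smul_left, inner_self_eq_norm_sq_to_K]
        simp only [map_inv₀, Complex.conj_ofReal]
        change (‖ζ‖ : ℂ)⁻¹ * ((‖ζ‖ : ℂ) ^ 2) = ‖ζ‖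
        field_simp
      have key := log_le_mean (α := (‖ζ‖ : ℂ)) (β := inner ℂ e b) hζn hc (by
        intro l hl hne
        have h1 : (‖ζ‖ : ℂ) + l * inner ℂ e b = inner ℂ e (c + l • b - a) := by
          have : c + l • b - a = ζ + l • b := by rw [hζ]; abel
          rw [this, inner_add_right, inner_smul_right, heζ]
        have h2 : ‖(‖ζ‖ : ℂ) + l * inner ℂ e b‖ ≤ ‖c + l • b - a‖ := by
          rw [h1]
          calc ‖inner ℂ e (c + l • b - a)‖ ≤ ‖e‖ * ‖c + l • b - a‖ := norm_inner_le_norm _ _
            _ = ‖c + l • b - a‖ := by rw [hen, one_mul]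
        have h3 : 0 < ‖(‖ζ‖ : ℂ) + l * inner ℂ e b‖ := norm_pos_iff.mpr hne
        have h4 : c + l • b ≠ a := by
          intro h5
          rw [h5, sub_self, norm_zero] at h2
          linarith
        have h5 := hle l hl
        rw [logPole_eq h4, EReal.coe_le_coe_iff] at h5
        exact (Real.log_le_log h3 h2).trans h5)
      rw [Complex.norm_real, norm_norm] at key
      exact key

theorem logPole_lelong (a : Cn n) : HasPositiveLelongNumber (logPole a) a := by
  refine ⟨1, 0, one_pos, ?_⟩
  filter_upwards [self_mem_nhdsWithin] with z hz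
  rw [logPole_eq hz]
  simp

/-- smooth boundary data equal to `log |z - a|` on the boundary -/
theorem exists_data (hn : 0 < n) {Ω : Set (Cn n)} (hΩ : IsStrictlyPseudoconvexDomain Ω) {T : ℝ} (hT : 0 < T) :
    ∃ (u₀ : Cn n → EReal) (φ : Cn n → ℝ → ℝ), IsFlowData Ω T u₀ φ ∧ ∃ a ∈ Ω, HasPositiveLelongNumber u₀ a := by
  obtain ⟨hΩo, hΩc, hΩb, hrest⟩ := hΩ
  obtain ⟨a, ha⟩ := hΩc.nonempty
  obtain ⟨r, hr, hrΩ⟩ := Metric.isOpen_iff.mp hΩo a ha
  let f : ContDiffBump a := ⟨r / 4, r / 2, by positivity, by linarith⟩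
  set φ : Cn n → ℝ → ℝ := fun z _ => (1 - f z) * (1 / 2 * Lg a 0 z) with hφ
  have hsm : ContDiff ℝ ∞ (fun z : Cn n => (1 - f z) * (1 / 2 * Lg a 0 z)) := by
    rw [contDiff_iff_contDiffAt]
    intro z
    by_cases hz : z = a
    · have h1 : (fun z : Cn n => (1 - f z) * (1 / 2 * Lg a 0 z)) =ᶠ[𝓝 z] fun _ => 0 := by
        rw [hz]
        filter_upwards [f.eventuallyEq_one] with w hw
        have : f w = 1 := hw
        rw [this]; ring
      exact (contDiffAt_const (c := (0:ℝ))).congr_of_eventuallyEq h1
    · have hz0 : ‖z - a‖ ^ 2 + 0 ≠ 0 := by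
        have : 0 < ‖z - a‖ := norm_pos_iff.mpr (sub_ne_zero.mpr hz)
        positivity
      exact (contDiffAt_const.sub f.contDiffAt).mul (contDiffAt_const.mul (contDiffAt_Lg a 0 z hz0 ∞))
  refine ⟨logPole a, φ, ⟨⟨hΩo, hΩc, hΩb, hrest⟩, hT, ⟨univ, isOpen_univ, subset_univ _, logPole_psh hn a⟩, ?_, ?_⟩,
    a, ha, logPole_lelong a⟩
  · exact (hsm.comp contDiff_fst).contDiffOn
  · intro z hz t _
    have hzn : z ∉ Ω := by
      rw [frontier, hΩo.interior_eq] at hz
      exact hz.2
    have hzr : r ≤ dist z a := by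
      by_contra h
      exact hzn (hrΩ (by rw [mem_ball]; exact not_le.mp h))
    have hza : z ≠ a := by
      intro h
      rw [h, dist_self] at hzr; linarith
    have hf0 : f z = 0 := by
      apply f.zero_of_le_dist
      show r / 2 ≤ dist z a
      linarith
    rw [logPole_eq hza]
    simp only [hφ]
    rw [hf0]
    congr 1
    unfold Lg
    rw [add_zero, Real.log_pow]
    push_cast
    ring

theorem unitBall_isStrictlyPseudoconvexDomain (n : ℕ) (hn : 0 < n) :
    IsStrictlyPseudoconvexDomain (ball (0 : Cn n) 1) := by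
  refine ⟨isOpen_ball, ?_, isBounded_ball, univ, fun z => ‖z - 0‖ ^ 2 + (-1), isOpen_univ, subset_univ _, ?_, ?_, ?_, ?_⟩
  · exact (convex_ball (0 : Cn n) 1).isConnected ⟨0, mem_ball_self one_pos⟩
  · apply ContDiff.contDiffOn
    exact ((contDiff_id.sub contDiff_const).norm_sq ℝ).add contDiff_const
  · intro z _
    have h1 : fderiv ℝ (fun z : Cn n => ‖z - 0‖ ^ 2 + (-1)) = fun z => (2:ℝ) • IP (z - 0) := by
      funext w
      exact (hasFDerivAt_normSq 0 w (-1)).fderiv
    have h2 : fderiv ℝ (fderiv ℝ (fun z : Cn n => ‖z - 0‖ ^ 2 + (-1))) z = (2:ℝ) • IP := by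
      rw [h1]
      have h3 : HasFDerivAt (fun w : Cn n => (2:ℝ) • IP (w - 0)) ((2:ℝ) • (IP : Cn n →L[ℝ] Cn n →L[ℝ] ℝ)) z := by
        have h6 : HasFDerivAt (fun z : Cn n => z - 0) (ContinuousLinearMap.id ℝ (Cn n)) z :=
          (hasFDerivAt_id z).sub_const 0
        have h7 := ((2:ℝ) • (IP : Cn n →L[ℝ] Cn n →L[ℝ] ℝ)).hasFDerivAt.comp z h6
        exact h7
      exact h3.fderiv
    rw [complexHessian_eq, h2]
    apply posDef_of
    · intro v w
      simp only [_root_.smul_apply, IP_apply]
      rw [real_inner_comm]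
    · intro ξ hξ
      simp only [_root_.smul_apply, IP_apply, real_inner_self_eq_norm_sq]
      have : 0 < ‖ξ‖ := norm_pos_iff.mpr hξ
      rw [norm_smul, Complex.norm_I, one_mul]
      positivity
  · intro z hz
    rw [frontier_ball (0 : Cn n) one_ne_zero, mem_sphere_zero_iff_norm] at hz
    refine ⟨z, ?_⟩
    rw [(hasFDerivAt_normSq 0 z (-1)).fderiv]
    intro h1
    simp only [_root_.smul_apply, IP_apply, sub_zero, real_inner_self_eq_norm_sq, hz] at h1
    norm_num at h1
  · intro z _
    rw [mem_ball_zero_iff]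
    simp only [sub_zero]
    constructor
    · intro h
      have : ‖z‖ ^ 2 < 1 := by nlinarith [norm_nonneg z]
      linarith
    · intro h
      by_contra h2
      push Not at h2
      nlinarith

end Pool.Agent.L5helper83.MA
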