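import Pool.Agent.L5helper83.MASub

set_option autoImplicit false

open Set Filter Topology Metric Matrix MeasureTheory
open scoped ContDiff ComplexOrder ComplexConjugate ENNReal

namespace Pool.Agent.L5helper83.MA

variable {n : ℕ}

/-- The constant lost in the passage from pointwise to uniform upper bounds. -/
noncomputable def cst (n : ℕ) : ℝ := (2 / 3 : ℝ) ^ (Module.finrank ℝ (Cn n))

theorem cst_pos (n : ℕ) : 0 < cst n := by unfold cst; positivity

theorem fatou_step {Ω : Set (Cn n)} {u : Cn n → ℝ → ℝ} {t₁ M γ C R : ℝ} {a : Cn n} {u₀ : Cn n → EReal}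
    (hg : ∀ t ∈ Ioc 0 t₁, ∀ z ∈ Ω, ContDiffAt ℝ 2 (fun w => u w t) z)
    (hl : ∀ t ∈ Ioc 0 t₁, ∀ z ∈ Ω, ∀ ξ, 0 ≤ fderiv ℝ (fderiv ℝ (fun w => u w t)) z ξ ξ +
      fderiv ℝ (fderiv ℝ (fun w => u w t)) z (Complex.I • ξ) (Complex.I • ξ))
    (hM : ∀ t ∈ Ioc 0 t₁, ∀ z ∈ Ω, u z t ≤ M) (hR : ball a R ⊆ Ω)
    (hlim : ∀ w ∈ ball a R, w ≠ a → Tendsto (fun t => ((u w t : ℝ) : EReal)) (𝓝[>] 0) (𝓝 (u₀ w)))
    (hu₀ : ∀ w ∈ ball a R, w ≠ a → u₀ w ≤ ((γ * Real.log ‖w - a‖ + C : ℝ) : EReal)) (hγ : 0 < γ)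
    {ε : ℝ} (hε : 0 < ε) (hεR : 4 * ε ≤ R) {τ₀ : ℝ} (hτ₀ : 0 < τ₀) (hτ₁ : τ₀ ≤ t₁)
    (hH : 2 < M - γ * Real.log (2 * ε) - C) (hn : 0 < n) :
    ∃ τ ∈ Ioo 0 τ₀, ∀ z ∈ closedBall a ε,
      u z τ ≤ M - cst n * (M - γ * Real.log (2 * ε) - C - 2) := by
  classical
  haveI : Nontrivial (Cn n) := by
    haveI : Nonempty (Fin n) := ⟨⟨0, hn⟩⟩
    infer_instance
  set H : ℝ := M - γ * Real.log (2 * ε) - C with hHd
  set B : Set (Cn n) := ball a (2 * ε) with hB
  have hBR : B ⊆ ball a R := ball_subset_ball (by linarith)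
  have hBΩ : B ⊆ Ω := hBR.trans hR
  set s : ℕ → ℝ := fun k => τ₀ / (k + 2) with hs
  have hs0 : ∀ k, s k ∈ Ioo 0 τ₀ := by
    intro k
    have hk : (0:ℝ) < (k:ℝ) + 2 := by positivity
    refine ⟨by positivity, ?_⟩
    rw [hs]
    simp only
    rw [div_lt_iff₀ hk]
    nlinarith [show (0:ℝ) ≤ k from Nat.cast_nonneg k]
  have hs1 : ∀ k, s k ∈ Ioc 0 t₁ := fun k => ⟨(hs0 k).1, (hs0 k).2.le.trans hτ₁⟩
  have hst : Tendsto s atTop (𝓝[>] 0) := by
    apply tendsto_nhdsWithin_of_tendsto_nhds_of_eventually_within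
    · have h1 : Tendsto (fun k : ℕ => (k:ℝ) + 2) atTop atTop :=
        tendsto_atTop_add_const_right _ _ tendsto_natCast_atTop_atTop
      exact tendsto_const_nhds.div_atTop h1
    · exact Eventually.of_forall fun k => (hs0 k).1
  have hvolB : volume B ≠ 0 := by
    rw [hB]
    exact (measure_ball_pos volume a (by linarith)).ne'
  have hvolB' : volume B ≠ ⊤ := by
    rw [hB]; exact measure_ball_lt_top.ne
  -- Fatou
  have hfat : ∃ k, ENNReal.ofReal (H - 2) * volume B ≤ ∫⁻ w in B, ENNReal.ofReal (M - u w (s k)) := by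
    by_contra hcon
    push Not at hcon
    have h1 : ∫⁻ w in B, liminf (fun k => ENNReal.ofReal (M - u w (s k))) atTop ≤
        liminf (fun k => ∫⁻ w in B, ENNReal.ofReal (M - u w (s k))) atTop := by
      apply lintegral_liminf_le'
      intro k
      apply ContinuousOn.aemeasurable _ measurableSet_ball
      apply ENNReal.continuous_ofReal.comp_continuousOn
      apply continuousOn_const.sub
      intro w hw
      exact (hg (s k) (hs1 k) w (hBΩ hw)).continuousAt.continuousWithinAt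
    have h2 : liminf (fun k => ∫⁻ w in B, ENNReal.ofReal (M - u w (s k))) atTop ≤
        ENNReal.ofReal (H - 2) * volume B := by
      apply liminf_le_of_le
      · isBoundedDefault
      · intro b hb
        obtain ⟨k, hk⟩ := hb.exists
        exact hk.trans (hcon k).le
    have h3 : ENNReal.ofReal (H - 1) * volume B ≤
        ∫⁻ w in B, liminf (fun k => ENNReal.ofReal (M - u w (s k))) atTop := by
      rw [← setLIntegral_const]
      apply lintegral_mono_ae
      have hae : ∀ᵐ w ∂(volume : Measure (Cn n)), w ≠ a := by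
        rw [ae_iff]
        simp
      filter_upwards [ae_restrict_mem measurableSet_ball, ae_restrict_of_ae hae] with w hw hwa
      apply le_liminf_of_le
      · isBoundedDefault
      · have h4 : u₀ w < ((γ * Real.log (2 * ε) + C + 1 : ℝ) : EReal) := by
          refine (hu₀ w (hBR hw) hwa).trans_lt ?_
          rw [EReal.coe_lt_coe_iff]
          have hpos : 0 < ‖w - a‖ := norm_pos_iff.mpr (sub_ne_zero.mpr hwa)
          have hlt : ‖w - a‖ < 2 * ε := by rw [← dist_eq_norm]; exact hw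
          have h5 : Real.log ‖w - a‖ ≤ Real.log (2 * ε) := Real.log_le_log hpos hlt.le
          have h6 : γ * Real.log ‖w - a‖ ≤ γ * Real.log (2 * ε) := by gcongr
          linarith
        have h5 := ((hlim w (hBR hw) hwa).comp hst).eventually (eventually_lt_nhds h4)
        filter_upwards [h5] with k hk
        simp only [Function.comp_apply] at hk
        rw [EReal.coe_lt_coe_iff] at hk
        apply ENNReal.ofReal_le_ofReal
        rw [hHd]
        linarith
    have h4 := (h3.trans h1).trans h2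
    rw [ENNReal.mul_le_mul_iff_left hvolB hvolB', ENNReal.ofReal_le_ofReal_iff (by linarith)] at h4
    linarith
  obtain ⟨k, hk⟩ := hfat
  refine ⟨s k, hs0 k, ?_⟩
  intro z hz
  have hzd : dist z a ≤ ε := hz
  have hb1 : B ⊆ ball z (3 * ε) := by
    intro w hw
    rw [hB, mem_ball] at hw
    rw [mem_ball]
    calc dist w z ≤ dist w a + dist a z := dist_triangle _ _ _
      _ < 2 * ε + ε := by rw [dist_comm a z]; linarith
      _ = 3 * ε := by ring
  have hb2 : ball z (3 * ε) ⊆ Ω := by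
    refine Subset.trans ?_ hR
    intro w hw
    rw [mem_ball] at hw ⊢
    calc dist w a ≤ dist w z + dist z a := dist_triangle _ _ _
      _ < 3 * ε + ε := by linarith
      _ ≤ R := by linarith
  have hzΩ : z ∈ Ω := hb2 (mem_ball_self (by linarith))
  have h1 := ball_submean (hg (s k) (hs1 k)) (hl (s k) (hs1 k)) (hM (s k) (hs1 k)) hb2
  have h2 : ENNReal.ofReal (H - 2) * volume B ≤
      ENNReal.ofReal (M - u z (s k)) * volume (ball z (3 * ε)) :=
    (hk.trans (lintegral_mono_set hb1)).trans h1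
  have hv0 : volume (ball (0 : Cn n) 1) ≠ 0 := (measure_ball_pos volume _ one_pos).ne'
  have hv1 : volume (ball (0 : Cn n) 1) ≠ ⊤ := measure_ball_lt_top.ne
  rw [hB, Measure.addHaar_ball volume a (by linarith : 0 ≤ 2 * ε),
    Measure.addHaar_ball volume z (by linarith : 0 ≤ 3 * ε), ← mul_assoc, ← mul_assoc,
    ENNReal.mul_le_mul_iff_left hv0 hv1, ← ENNReal.ofReal_mul (by linarith),
    ← ENNReal.ofReal_mul (by linarith [hM (s k) (hs1 k) z hzΩ]),
    ENNReal.ofReal_le_ofReal_iff (by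
      have := hM (s k) (hs1 k) z hzΩ
      exact mul_nonneg (by linarith) (by positivity))] at h2
  have h3 : cst n * (3 * ε) ^ Module.finrank ℝ (Cn n) = (2 * ε) ^ Module.finrank ℝ (Cn n) := by
    unfold cst
    rw [← mul_pow]
    congr 1
    ring
  have h4 : cst n * (H - 2) * (3 * ε) ^ Module.finrank ℝ (Cn n) ≤
      (M - u z (s k)) * (3 * ε) ^ Module.finrank ℝ (Cn n) := by
    calc cst n * (H - 2) * (3 * ε) ^ Module.finrank ℝ (Cn n) =
        (H - 2) * (cst n * (3 * ε) ^ Module.finrank ℝ (Cn n)) := by ring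
      _ = (H - 2) * (2 * ε) ^ Module.finrank ℝ (Cn n) := by rw [h3]
      _ ≤ _ := h2
  have h5 := le_of_mul_le_mul_right h4 (by positivity)
  linarith

end Pool.Agent.L5helper83.MA
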