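import Pool.Agent.L5helper83.MADefs
import Pool.Agent.L5helper83.DetMono

set_option autoImplicit false

open Set Filter Topology Metric Matrix
open scoped ContDiff ComplexOrder ComplexConjugate

namespace Pool.Agent.L5helper83.MA

variable {n : ℕ}

/-- The matrix `(∂²g/∂z_j∂z̄_k)` of a real bilinear form `B` (the second derivative of `g`): with `e_j` the standard
basis, `∂_j ∂̄_k g = 1/4 (B(e_j, e_k) + B(i e_j, i e_k) + i (B(e_j, i e_k) - B(i e_j, e_k)))`. -/
noncomputable def hermMatrix (B : Cn n →L[ℝ] Cn n →L[ℝ] ℝ) : Matrix (Fin n) (Fin n) ℂ :=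
  fun j k => (1 / 4 : ℂ) *
    (((B (EuclideanSpace.single j 1) (EuclideanSpace.single k 1) +
      B (EuclideanSpace.single j Complex.I) (EuclideanSpace.single k Complex.I) : ℝ) : ℂ) +
    ((B (EuclideanSpace.single j 1) (EuclideanSpace.single k Complex.I) -
      B (EuclideanSpace.single j Complex.I) (EuclideanSpace.single k 1) : ℝ) : ℂ) * Complex.I)

theorem complexHessian_eq (g : Cn n → ℝ) (z : Cn n) :
    complexHessian g z = hermMatrix (fderiv ℝ (fderiv ℝ g) z) := by
  ext j k
  simp only [complexHessian, hermMatrix, secondDeriv, vec, iteratedFDeriv_two_apply, Matrix.cons_val_zero,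
    Matrix.cons_val_one]
  apply Complex.ext
  · simp
    ring
  · simp
    ring

/-- the vector of the conjugates of the components of `x` -/
noncomputable def cvec (x : Fin n → ℂ) : Cn n := WithLp.toLp 2 (fun j => conj (x j))

theorem cvec_apply (x : Fin n → ℂ) (j : Fin n) : cvec x j = conj (x j) := rfl

theorem vec_decomp (ξ : Cn n) :
    ξ = ∑ j, ((ξ j).re • (EuclideanSpace.single j (1:ℂ) : Cn n) +
      (ξ j).im • (EuclideanSpace.single j Complex.I : Cn n)) := by
  ext k
  simp only [PiLp.add_apply, WithLp.ofLp_sum, Finset.sum_apply, PiLp.smul_apply, PiLp.single_apply,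
    Complex.real_smul]
  rw [Finset.sum_eq_single k]
  · simp
  · intro b _ hb
    simp [Ne.symm hb]
  · intro h; exact absurd (Finset.mem_univ k) h

theorem I_smul_decomp (ξ : Cn n) :
    Complex.I • ξ = ∑ j, ((-(ξ j).im) • (EuclideanSpace.single j (1:ℂ) : Cn n) +
      (ξ j).re • (EuclideanSpace.single j Complex.I : Cn n)) := by
  have h := vec_decomp (Complex.I • ξ)
  simpa using h

theorem bilin_expand (B : Cn n →L[ℝ] Cn n →L[ℝ] ℝ) (a b c d : Fin n → ℝ) :
    B (∑ j, (a j • (EuclideanSpace.single j (1:ℂ) : Cn n) + b j • (EuclideanSpace.single j Complex.I : Cn n)))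
      (∑ j, (c j • (EuclideanSpace.single j (1:ℂ) : Cn n) + d j • (EuclideanSpace.single j Complex.I : Cn n))) =
    ∑ j, ∑ k, (a j * c k * B (EuclideanSpace.single j 1) (EuclideanSpace.single k 1) +
      a j * d k * B (EuclideanSpace.single j 1) (EuclideanSpace.single k Complex.I) +
      b j * c k * B (EuclideanSpace.single j Complex.I) (EuclideanSpace.single k 1) +
      b j * d k * B (EuclideanSpace.single j Complex.I) (EuclideanSpace.single k Complex.I)) := by
  conv_rhs => rw [Finset.sum_comm]
  rw [map_sum]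
  apply Finset.sum_congr rfl
  intro k _
  rw [map_sum, _root_.sum_apply]
  apply Finset.sum_congr rfl
  intro j _
  simp only [map_add, map_smul, _root_.add_apply, _root_.smul_apply, smul_eq_mul]
  ring

theorem hermMatrix_apply_eq (B : Cn n →L[ℝ] Cn n →L[ℝ] ℝ) (x : Fin n → ℂ)
    (hB : ∀ v w, B v w = B w v) :
    star x ⬝ᵥ (hermMatrix B *ᵥ x) =
      (((1 / 4) * (B (cvec x) (cvec x) + B (Complex.I • cvec x) (Complex.I • cvec x)) : ℝ) : ℂ) := by
  have h1 : star x ⬝ᵥ (hermMatrix B *ᵥ x) = ∑ j, ∑ k, conj (x j) * (hermMatrix B j k * x k) := by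
    simp only [dotProduct, mulVec, Finset.mul_sum, Pi.star_apply, RCLike.star_def]
  have h2 : B (cvec x) (cvec x) + B (Complex.I • cvec x) (Complex.I • cvec x) =
      ∑ j, ∑ k, 4 * (conj (x j) * (hermMatrix B j k * x k)).re := by
    rw [I_smul_decomp (cvec x)]
    conv_lhs => rw [vec_decomp (cvec x)]
    have e := vec_decomp (cvec x)
    rw [← e]
    conv_lhs =>
      enter [1]
      rw [vec_decomp (cvec x)]
    rw [bilin_expand, bilin_expand, ← Finset.sum_add_distrib]
    apply Finset.sum_congr rfl
    intro j _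
    rw [← Finset.sum_add_distrib]
    apply Finset.sum_congr rfl
    intro k _
    simp only [cvec_apply, hermMatrix]
    simp [Complex.mul_re, Complex.mul_im]
    ring
  rw [h1, h2]
  apply Complex.ext
  · simp only [Complex.re_sum, Complex.ofReal_re]
    simp only [Finset.mul_sum]
    apply Finset.sum_congr rfl
    intro j _
    apply Finset.sum_congr rfl
    intro k _
    ring
  · simp only [Complex.im_sum, Complex.ofReal_im]
    have h3 : ∀ j k, (conj (x j) * (hermMatrix B j k * x k)).im =
        -(conj (x k) * (hermMatrix B k j * x j)).im := by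
      intro j k
      simp only [hermMatrix]
      rw [hB (EuclideanSpace.single k 1) (EuclideanSpace.single j 1),
        hB (EuclideanSpace.single k 1) (EuclideanSpace.single j Complex.I),
        hB (EuclideanSpace.single k Complex.I) (EuclideanSpace.single j 1),
        hB (EuclideanSpace.single k Complex.I) (EuclideanSpace.single j Complex.I)]
      simp [Complex.mul_re, Complex.mul_im]
      ring
    have h4 : ∑ j, ∑ k, (conj (x j) * (hermMatrix B j k * x k)).im =
        - ∑ j, ∑ k, (conj (x j) * (hermMatrix B j k * x k)).im := by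
      conv_lhs => rw [Finset.sum_comm]
      rw [← Finset.sum_neg_distrib]
      apply Finset.sum_congr rfl
      intro j _
      rw [← Finset.sum_neg_distrib]
      apply Finset.sum_congr rfl
      intro k _
      rw [h3 k j]
    linarith

theorem hermMatrix_isHermitian (B : Cn n →L[ℝ] Cn n →L[ℝ] ℝ) (hB : ∀ v w, B v w = B w v) :
    (hermMatrix B).IsHermitian := by
  ext j k
  rw [Matrix.conjTranspose_apply]
  simp only [hermMatrix]
  rw [hB (EuclideanSpace.single k 1) (EuclideanSpace.single j 1),
    hB (EuclideanSpace.single k 1) (EuclideanSpace.single j Complex.I),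
    hB (EuclideanSpace.single k Complex.I) (EuclideanSpace.single j 1),
    hB (EuclideanSpace.single k Complex.I) (EuclideanSpace.single j Complex.I)]
  apply Complex.ext
  · simp
  · simp

theorem hermMatrix_sub (B C : Cn n →L[ℝ] Cn n →L[ℝ] ℝ) :
    hermMatrix (B - C) = hermMatrix B - hermMatrix C := by
  ext j k
  simp only [hermMatrix, Matrix.sub_apply, _root_.sub_apply]
  push_cast
  ring

theorem hermMatrix_smul (c : ℝ) (B : Cn n →L[ℝ] Cn n →L[ℝ] ℝ) :
    hermMatrix (c • B) = (c : ℂ) • hermMatrix B := by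
  ext j k
  simp only [hermMatrix, Matrix.smul_apply, _root_.smul_apply, smul_eq_mul]
  push_cast
  ring

theorem posSemidef_of {B : Cn n →L[ℝ] Cn n →L[ℝ] ℝ} (hB : ∀ v w, B v w = B w v)
    (h : ∀ ξ, 0 ≤ B ξ ξ + B (Complex.I • ξ) (Complex.I • ξ)) : (hermMatrix B).PosSemidef := by
  apply Matrix.PosSemidef.of_dotProduct_mulVec_nonneg (hermMatrix_isHermitian B hB)
  intro x
  rw [hermMatrix_apply_eq B x hB, Complex.zero_le_real]
  have := h (cvec x)
  positivity

theorem pos_of_posDef {B : Cn n →L[ℝ] Cn n →L[ℝ] ℝ} (hB : ∀ v w, B v w = B w v)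
    (h : (hermMatrix B).PosDef) {ξ : Cn n} (hξ : ξ ≠ 0) :
    0 < B ξ ξ + B (Complex.I • ξ) (Complex.I • ξ) := by
  set x : Fin n → ℂ := fun j => conj (ξ j) with hx
  have hc : cvec x = ξ := by
    ext j; simp [cvec_apply, hx]
  have hx0 : x ≠ 0 := by
    intro h0
    apply hξ
    rw [← hc, h0]
    ext j; simp [cvec_apply]
  have h1 := h.dotProduct_mulVec_pos hx0
  rw [hermMatrix_apply_eq B x hB, hc, Complex.zero_lt_real] at h1
  linarith

theorem posDef_of {B : Cn n →L[ℝ] Cn n →L[ℝ] ℝ} (hB : ∀ v w, B v w = B w v)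
    (h : ∀ ξ, ξ ≠ 0 → 0 < B ξ ξ + B (Complex.I • ξ) (Complex.I • ξ)) : (hermMatrix B).PosDef := by
  apply Matrix.PosDef.of_dotProduct_mulVec_pos (hermMatrix_isHermitian B hB)
  intro x hx
  rw [hermMatrix_apply_eq B x hB, Complex.zero_lt_real]
  have hc : cvec x ≠ 0 := by
    intro h0
    apply hx
    ext j
    have h1 : cvec x j = 0 := by rw [h0]; rfl
    rw [cvec_apply] at h1
    simpa using h1
  have := h _ hc
  positivity

end Pool.Agent.L5helper83.MA
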