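import Pool.Agent.L5helper83.MAHess

set_option autoImplicit false

open Set Filter Topology Metric Matrix
open scoped ContDiff ComplexOrder ComplexConjugate

namespace Pool.Agent.L5helper83.MA

variable {n : ℕ}

/-- `log (|z - a|² + e)` -/
noncomputable def Lg (a : Cn n) (e : ℝ) (z : Cn n) : ℝ := Real.log (‖z - a‖ ^ 2 + e)

/-- the real inner product as a continuous bilinear map -/
noncomputable def IP : Cn n →L[ℝ] Cn n →L[ℝ] ℝ := (innerSL ℝ : Cn n →L[ℝ] Cn n →L[ℝ] ℝ)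

theorem IP_apply (x y : Cn n) : IP x y = inner ℝ x y := rfl

/-- the second derivative of `Lg` -/
noncomputable def D2Lg (a : Cn n) (e : ℝ) (z : Cn n) : Cn n →L[ℝ] Cn n →L[ℝ] ℝ :=
  (2 / (‖z - a‖ ^ 2 + e)) • IP +
    ((-(4 / (‖z - a‖ ^ 2 + e) ^ 2)) • IP (z - a)).smulRight (IP (z - a))

theorem D2Lg_apply (a : Cn n) (e : ℝ) (z x y : Cn n) :
    D2Lg a e z x y = 2 / (‖z - a‖ ^ 2 + e) * inner ℝ x y -
      4 / (‖z - a‖ ^ 2 + e) ^ 2 * (inner ℝ (z - a) x * inner ℝ (z - a) y) := by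
  simp only [D2Lg, _root_.add_apply, _root_.smul_apply, IP_apply, ContinuousLinearMap.smulRight_apply,
    smul_eq_mul]
  ring

theorem D2Lg_symm (a : Cn n) (e : ℝ) (z x y : Cn n) : D2Lg a e z x y = D2Lg a e z y x := by
  rw [D2Lg_apply, D2Lg_apply, real_inner_comm]
  ring

theorem hasFDerivAt_normSq (a z : Cn n) (e : ℝ) :
    HasFDerivAt (fun z : Cn n => ‖z - a‖ ^ 2 + e) ((2:ℝ) • IP (z - a)) z := by
  have h1 : HasFDerivAt (fun z : Cn n => z - a) (ContinuousLinearMap.id ℝ (Cn n)) z :=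
    (hasFDerivAt_id z).sub_const a
  have h2 := h1.norm_sq
  have h3 := h2.add_const e
  convert! h3 using 1
  ext x
  simp [IP_apply]

theorem hasFDerivAt_Lg (a : Cn n) (e : ℝ) (z : Cn n) (h : ‖z - a‖ ^ 2 + e ≠ 0) :
    HasFDerivAt (Lg a e) ((2 / (‖z - a‖ ^ 2 + e)) • IP (z - a)) z := by
  have h1 := (hasFDerivAt_normSq a z e).log h
  convert! h1 using 1
  rw [smul_smul]
  congr 1
  ring

theorem isOpen_ne (a : Cn n) (e : ℝ) : IsOpen {z : Cn n | ‖z - a‖ ^ 2 + e ≠ 0} := by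
  apply isOpen_ne_fun <;> fun_prop

theorem contDiffAt_Lg (a : Cn n) (e : ℝ) (z : Cn n) (h : ‖z - a‖ ^ 2 + e ≠ 0) (m : WithTop ℕ∞) :
    ContDiffAt ℝ m (Lg a e) z := by
  have h1 : ContDiffAt ℝ m (fun z : Cn n => ‖z - a‖ ^ 2 + e) z :=
    ((contDiffAt_id.sub contDiffAt_const).norm_sq ℝ).add contDiffAt_const
  exact h1.log h

theorem fderiv_fderiv_Lg (a : Cn n) (e : ℝ) (z : Cn n) (h : ‖z - a‖ ^ 2 + e ≠ 0) :
    fderiv ℝ (fderiv ℝ (Lg a e)) z = D2Lg a e z := by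
  have h1 : fderiv ℝ (Lg a e) =ᶠ[𝓝 z] fun w => (2 / (‖w - a‖ ^ 2 + e)) • IP (w - a) := by
    filter_upwards [(isOpen_ne a e).mem_nhds h] with w hw
    exact (hasFDerivAt_Lg a e w hw).fderiv
  rw [h1.fderiv_eq]
  have h2 : HasFDerivAt (fun w : Cn n => 2 / (‖w - a‖ ^ 2 + e))
      ((-(2 / (‖z - a‖ ^ 2 + e) ^ 2)) • ((2:ℝ) • IP (z - a))) z := by
    have h3 := (hasDerivAt_inv h).comp_hasFDerivAt z (hasFDerivAt_normSq a z e)
    have h4 := h3.const_mul 2
    convert! h4 using 1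
    rw [smul_smul, smul_smul, smul_smul]
    congr 1
    ring
  have h5 : HasFDerivAt (fun w : Cn n => IP (w - a)) (IP : Cn n →L[ℝ] Cn n →L[ℝ] ℝ) z := by
    have h6 : HasFDerivAt (fun z : Cn n => z - a) (ContinuousLinearMap.id ℝ (Cn n)) z :=
      (hasFDerivAt_id z).sub_const a
    exact (IP : Cn n →L[ℝ] Cn n →L[ℝ] ℝ).hasFDerivAt.comp z h6
  have h7 : HasFDerivAt (fun w : Cn n => (2 / (‖w - a‖ ^ 2 + e)) • IP (w - a)) _ z := h2.smul h5
  rw [h7.fderiv]
  ext x y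
  rw [D2Lg_apply]
  simp only [_root_.add_apply, _root_.smul_apply, IP_apply, ContinuousLinearMap.smulRight_apply,
    smul_eq_mul]
  ring

/-- the real inner products with the basis vectors -/
theorem inner_single_one (ζ : Cn n) (j : Fin n) :
    inner ℝ ζ (EuclideanSpace.single j (1:ℂ)) = (ζ j).re := by
  rw [PiLp.inner_apply, Finset.sum_eq_single j]
  · simp [Complex.inner]
  · intro b _ hb
    simp [hb]
  · intro h; exact absurd (Finset.mem_univ j) h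

theorem inner_single_I (ζ : Cn n) (j : Fin n) :
    inner ℝ ζ (EuclideanSpace.single j Complex.I) = (ζ j).im := by
  rw [PiLp.inner_apply, Finset.sum_eq_single j]
  · simp [Complex.inner]
  · intro b _ hb
    simp [hb]
  · intro h; exact absurd (Finset.mem_univ j) h

theorem hermMatrix_D2Lg (a : Cn n) (e : ℝ) (z : Cn n) :
    hermMatrix (D2Lg a e z) = ((1 / (‖z - a‖ ^ 2 + e) : ℝ) : ℂ) •
      (1 + replicateCol Unit (fun j => -((1 / (‖z - a‖ ^ 2 + e) : ℝ) : ℂ) * conj ((z - a) j)) *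
        replicateRow Unit (fun j => (z - a) j)) := by
  ext j k
  rw [Matrix.smul_apply, Matrix.add_apply, Matrix.mul_apply]
  simp only [hermMatrix, D2Lg_apply, inner_single_one, inner_single_I, Finset.univ_unique, Finset.sum_singleton,
    Matrix.replicateCol_apply, Matrix.replicateRow_apply, PiLp.single_apply, Matrix.one_apply]
  generalize (z - a) j = u
  generalize (z - a) k = v
  generalize (‖z - a‖ ^ 2 + e) = N
  obtain ⟨m, hm⟩ : ∃ m : ℝ, m = N⁻¹ := ⟨_, rfl⟩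
  have e1 : 2 / N = 2 * m := by rw [hm]; ring
  have e2 : 4 / N ^ 2 = 4 * m ^ 2 := by rw [hm]; ring
  have e3 : 1 / N = m := by rw [hm]; ring
  rw [e1, e2, e3]
  generalize hq : m ^ 2 = q
  apply Complex.ext
  · by_cases hjk : j = k
    · subst hjk
      simp
      rw [← hq]
      ring
    · simp [hjk, Ne.symm hjk]
      rw [← hq]
      ring
  · by_cases hjk : j = k
    · subst hjk
      simp
      rw [← hq]
      ring
    · simp [hjk, Ne.symm hjk]
      rw [← hq]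
      ring

theorem sum_conj_mul (ζ : Cn n) : ∑ j, ζ j * conj (ζ j) = ((‖ζ‖ ^ 2 : ℝ) : ℂ) := by
  rw [EuclideanSpace.norm_sq_eq]
  push_cast
  apply Finset.sum_congr rfl
  intro j _
  rw [Complex.mul_conj, Complex.normSq_eq_norm_sq]
  push_cast
  rfl

theorem det_hermMatrix_D2Lg (a : Cn n) (e : ℝ) (z : Cn n) (h : ‖z - a‖ ^ 2 + e ≠ 0) :
    (hermMatrix (D2Lg a e z)).det = ((e / (‖z - a‖ ^ 2 + e) ^ (n + 1) : ℝ) : ℂ) := by
  rw [hermMatrix_D2Lg, Matrix.det_smul, Matrix.det_one_add_replicateCol_mul_replicateRow, Fintype.card_fin]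
  have h1 : (fun j => (z - a) j) ⬝ᵥ (fun j => -((1 / (‖z - a‖ ^ 2 + e) : ℝ) : ℂ) * conj ((z - a) j)) =
      ((-(1 / (‖z - a‖ ^ 2 + e)) * ‖z - a‖ ^ 2 : ℝ) : ℂ) := by
    rw [Complex.ofReal_mul, ← sum_conj_mul]
    simp only [dotProduct, Finset.mul_sum]
    apply Finset.sum_congr rfl
    intro j _
    push_cast
    ring
  rw [h1, ← Complex.ofReal_pow, ← Complex.ofReal_one, ← Complex.ofReal_add, ← Complex.ofReal_mul]
  congr 1
  have h2 : 1 + -(1 / (‖z - a‖ ^ 2 + e)) * ‖z - a‖ ^ 2 = e / (‖z - a‖ ^ 2 + e) := by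
    field_simp
    ring
  rw [h2, one_div, inv_pow, pow_succ]
  field_simp
  ring

end Pool.Agent.L5helper83.MA
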