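import Pool.Agent.L5helper83.MAFatou

set_option autoImplicit false

open Set Filter Topology Metric Matrix MeasureTheory
open scoped ContDiff ComplexOrder ComplexConjugate ENNReal

namespace Pool.Agent.L5helper83.MA

variable {n : ℕ}

theorem real_inner_I_smul (ζ : Cn n) : inner ℝ ζ (Complex.I • ζ) = 0 := by
  rw [PiLp.inner_apply]
  apply Finset.sum_eq_zero
  intro j _
  rw [PiLp.smul_apply]
  simp [Complex.inner]
  ring

theorem D2Lg_levi (a : Cn n) (e : ℝ) (z : Cn n) (h : ‖z - a‖ ^ 2 + e ≠ 0) :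
    D2Lg a e z (z - a) (z - a) + D2Lg a e z (Complex.I • (z - a)) (Complex.I • (z - a)) =
      4 * ‖z - a‖ ^ 2 * e / (‖z - a‖ ^ 2 + e) ^ 2 := by
  rw [D2Lg_apply, D2Lg_apply, real_inner_I_smul, real_inner_self_eq_norm_sq, real_inner_self_eq_norm_sq,
    norm_smul, Complex.norm_I]
  field_simp
  ring

theorem fderiv_affine (f : Cn n → ℝ) (c d : ℝ) :
    fderiv ℝ (fun z => c * f z + d) = fun z => c • fderiv ℝ f z := by
  funext z
  rw [fderiv_add_const]
  exact congrFun (fderiv_const_smul_field (𝕜 := ℝ) (f := f) c) z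

theorem hess_affine (f : Cn n → ℝ) (c d : ℝ) (z : Cn n) :
    fderiv ℝ (fderiv ℝ (fun z => c * f z + d)) z = c • fderiv ℝ (fderiv ℝ f) z := by
  rw [fderiv_affine]
  exact congrFun (fderiv_const_smul_field (𝕜 := ℝ) (f := fderiv ℝ f) c) z

/-- The bound of `log det` of the barrier. -/
theorem barrier (a : Cn n) {e : ℝ} (he : 0 < e) {c d : ℝ} (hc : 0 < c) (z : Cn n) :
    Real.log (complexHessian (fun w => c * Lg a e w + d) z).det.re =
      n * Real.log c + Real.log e - (n + 1) * Lg a e z := by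
  have hN : 0 < ‖z - a‖ ^ 2 + e := by positivity
  rw [complexHessian_eq, hess_affine, fderiv_fderiv_Lg a e z hN.ne', hermMatrix_smul, Matrix.det_smul, Fintype.card_fin,
    det_hermMatrix_D2Lg a e z hN.ne', ← Complex.ofReal_pow, ← Complex.ofReal_mul, Complex.ofReal_re,
    Real.log_mul (by positivity) (by positivity), Real.log_pow, Real.log_div (by positivity) (by positivity),
    Real.log_pow]
  unfold Lg
  push_cast
  ring

theorem no_solution (hn : 0 < n) {Ω : Set (Cn n)} (hΩo : IsOpen Ω) (hΩb : Bornology.IsBounded Ω)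
    {T : ℝ} (hT : 0 < T) {u₀ : Cn n → EReal} {φ u : Cn n → ℝ → ℝ}
    (hφ : ContinuousOn (fun p : Cn n × ℝ => φ p.1 p.2) (closure Ω ×ˢ Ico 0 T))
    (hu : IsFlowSolution Ω T u₀ φ u) {a : Cn n} (ha : a ∈ Ω) (hL : HasPositiveLelongNumber u₀ a) :
    False := by
  obtain ⟨γ, C, hγ, hev⟩ := hL
  -- regularity
  have hopen : IsOpen (Ω ×ˢ Ioo 0 T) := hΩo.prod isOpen_Ioo
  have hat : ∀ z ∈ Ω, ∀ t ∈ Ioo 0 T, ContDiffAt ℝ ∞ (fun p : Cn n × ℝ => u p.1 p.2) (z, t) := by
    intro z hz t ht
    apply hu.smooth.contDiffAt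
    exact mem_of_superset (hopen.mem_nhds ⟨hz, ht⟩) (prod_mono subset_closure Subset.rfl)
  have hu2 : ∀ t ∈ Ioo 0 T, ∀ z ∈ Ω, ContDiffAt ℝ 2 (fun w => u w t) z := by
    intro t ht z hz
    have h1 : ContDiffAt ℝ 2 (fun p : Cn n × ℝ => u p.1 p.2) (z, t) :=
      (hat z hz t ht).of_le (WithTop.coe_le_coe.mpr le_top)
    have h2 : ContDiffAt ℝ 2 (fun w : Cn n => (w, t)) z := contDiffAt_id.prodMk contDiffAt_const
    exact ContDiffAt.comp z (f := fun w : Cn n => (w, t)) h1 h2
  have hut : ∀ t ∈ Ioo 0 T, ∀ z ∈ Ω, HasDerivAt (fun s => u z s)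
      (Real.log (complexHessian (fun w => u w t) z).det.re) t := by
    intro t ht z hz
    rw [← hu.flow z hz t ht]
    have h1 : ContDiffAt ℝ 2 (fun p : Cn n × ℝ => u p.1 p.2) (z, t) :=
      (hat z hz t ht).of_le (WithTop.coe_le_coe.mpr le_top)
    have h2 : ContDiffAt ℝ 2 (fun s : ℝ => (z, s)) t := contDiffAt_const.prodMk contDiffAt_id
    have h3 : ContDiffAt ℝ 2 (fun s => u z s) t := ContDiffAt.comp t (f := fun s : ℝ => (z, s)) h1 h2
    exact (h3.differentiableAt (by norm_num)).hasDerivAt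
  have hcont : ContinuousOn (fun p : Cn n × ℝ => u p.1 p.2) (closure Ω ×ˢ Ioo 0 T) := hu.smooth.continuousOn
  have hcont' : ∀ t ∈ Ioo 0 T, ContinuousOn (fun w => u w t) (closure Ω) := by
    intro t ht
    have h1 : ContinuousOn (fun w : Cn n => (w, t)) (closure Ω) := by fun_prop
    exact hcont.comp h1 (fun w hw => ⟨hw, ht⟩)
  have hlev : ∀ t ∈ Ioo 0 T, ∀ z ∈ Ω, ∀ ξ, ξ ≠ 0 → 0 < fderiv ℝ (fderiv ℝ (fun w => u w t)) z ξ ξ +
      fderiv ℝ (fderiv ℝ (fun w => u w t)) z (Complex.I • ξ) (Complex.I • ξ) := by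
    intro t ht z hz ξ hξ
    have h := hu.strict t ht z hz
    rw [complexHessian_eq] at h
    exact pos_of_posDef (hess_symm (hu2 t ht z hz)) h hξ
  -- constants
  set κ : ℝ := cst n * γ with hκ
  have hκ0 : 0 < κ := mul_pos (cst_pos n) hγ
  set g₂ : ℝ := κ / 2 with hg₂
  have hg₂0 : 0 < g₂ := by positivity
  have hn' : (0:ℝ) < n := by exact_mod_cast hn
  set t₁ : ℝ := min (T / 2) (g₂ / (2 * n)) with ht₁
  have ht₁0 : 0 < t₁ := lt_min (by linarith) (by positivity)
  have ht₁T : t₁ < T := (min_le_left _ _).trans_lt (by linarith)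
  have ht₁n : n * t₁ ≤ g₂ / 2 := by
    calc n * t₁ ≤ n * (g₂ / (2 * n)) := by gcongr; exact min_le_right _ _
      _ = g₂ / 2 := by field_simp
  have hsub : Ioc 0 t₁ ⊆ Ioo 0 T := fun t ht => ⟨ht.1, ht.2.trans_lt ht₁T⟩
  -- the bound `M`
  obtain ⟨M, hMφ⟩ : ∃ M : ℝ, ∀ z ∈ closure Ω, ∀ t ∈ Icc 0 t₁, φ z t ≤ M := by
    have hcomp : IsCompact (closure Ω ×ˢ Icc 0 t₁) := hΩb.isCompact_closure.prod isCompact_Icc
    have hc : ContinuousOn (fun p : Cn n × ℝ => φ p.1 p.2) (closure Ω ×ˢ Icc 0 t₁) :=
      hφ.mono (prod_mono Subset.rfl (fun t ht => ⟨ht.1, ht.2.trans_lt ht₁T⟩))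
    obtain ⟨M, hM⟩ := (hcomp.image_of_continuousOn hc).bddAbove
    exact ⟨M, fun z hz t ht => hM ⟨(z, t), ⟨hz, ht⟩, rfl⟩⟩
  have hMb : ∀ t ∈ Ioc 0 t₁, ∀ z ∈ frontier Ω, u z t ≤ M := by
    intro t ht z hz
    rw [hu.boundary z hz t (hsub ht)]
    exact hMφ z (frontier_subset_closure hz) t ⟨ht.1.le, ht.2⟩
  have hMc : ∀ t ∈ Ioc 0 t₁, ∀ z ∈ closure Ω, u z t ≤ M := by
    intro t ht
    have h1 : ∃ ξ : Cn n, ξ ≠ 0 := by
      have : Nonempty (Fin n) := ⟨⟨0, hn⟩⟩
      have : Nontrivial (Cn n) := inferInstance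
      exact exists_ne 0
    obtain ⟨ξ, hξ⟩ := h1
    apply le_of_le_frontier hΩo hΩb (hcont' t (hsub ht)) continuousOn_const (hu2 t (hsub ht))
      (fun _ _ => contDiffAt_const)
    · intro z hz
      refine ⟨ξ, ?_⟩
      have := hlev t (hsub ht) z hz ξ hξ
      simpa using this
    · exact hMb t ht
  -- the radius `R`
  obtain ⟨R, hR0, hRΩ, hRu⟩ : ∃ R : ℝ, 0 < R ∧ closedBall a R ⊆ Ω ∧
      ∀ w ∈ ball a R, w ≠ a → u₀ w ≤ ((γ * Real.log ‖w - a‖ + C : ℝ) : EReal) := by
    rw [eventually_nhdsWithin_iff, Metric.eventually_nhds_iff_ball] at hev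
    obtain ⟨r1, hr1, h1⟩ := hev
    obtain ⟨r2, hr2, h2⟩ := Metric.isOpen_iff.mp hΩo a ha
    refine ⟨min r1 (r2 / 2), lt_min hr1 (by linarith), ?_, ?_⟩
    · exact (closedBall_subset_ball (lt_of_le_of_lt (min_le_right _ _) (by linarith))).trans h2
    · intro w hw hwa
      exact h1 w (ball_subset_ball (min_le_left _ _) hw) hwa
  have hRb : ball a R ⊆ Ω := ball_subset_closedBall.trans hRΩ
  -- constants of the barrier
  set C' : ℝ := M - cst n * (M - γ * Real.log 2 - C - 2) with hC'
  set K : ℝ := |C'| + |M| + κ * |Real.log R| with hK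
  have hK1 : C' ≤ K := by
    have := le_abs_self C'; have := abs_nonneg M; have : 0 ≤ κ * |Real.log R| := by positivity
    linarith
  have hK2 : M ≤ κ * Real.log R + K := by
    have h1 := le_abs_self M; have h2 := abs_nonneg C'
    have h3 : κ * (-|Real.log R|) ≤ κ * Real.log R := by gcongr; exact neg_abs_le _
    linarith
  have hK3 : M ≤ K := by
    have h1 := le_abs_self M; have h2 := abs_nonneg C'; have : 0 ≤ κ * |Real.log R| := by positivity
    linarith
  have hK0 : 0 ≤ K := by positivity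
  set C₃ : ℝ := n * |Real.log g₂| with hC₃
  have hC₃0 : 0 ≤ C₃ := by positivity
  -- the key estimate
  have key : ∀ᶠ ε in 𝓝[>] (0:ℝ), u a t₁ ≤ g₂ / 2 * Real.log (ε ^ 2) + K + C₃ * t₁ := by
    have hlog : Tendsto (fun ε : ℝ => M - γ * Real.log (2 * ε) - C) (𝓝[>] 0) atTop := by
      have h1 : Tendsto (fun ε : ℝ => 2 * ε) (𝓝[>] 0) (𝓝[>] 0) := by
        apply tendsto_nhdsWithin_of_tendsto_nhds_of_eventually_within
        · have : Tendsto (fun ε : ℝ => 2 * ε) (𝓝 0) (𝓝 (2 * 0)) := by
            apply Continuous.tendsto; fun_prop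
          rw [mul_zero] at this
          exact this.mono_left nhdsWithin_le_nhds
        · filter_upwards [self_mem_nhdsWithin] with ε hε
          have : (0:ℝ) < ε := hε
          show (0:ℝ) < 2 * ε
          linarith
      have h2 := Real.tendsto_log_nhdsGT_zero.comp h1
      have h3 : Tendsto (fun ε : ℝ => -(γ * Real.log (2 * ε))) (𝓝[>] 0) atTop :=
        tendsto_neg_atBot_atTop.comp (h2.const_mul_atBot hγ)
      have h4 := tendsto_atTop_add_const_left (𝓝[>] (0:ℝ)) (M - C) h3
      refine h4.congr ?_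
      intro ε
      ring
    have hsmall : ∀ᶠ ε in 𝓝[>] (0:ℝ), ε < min (R / 4) 1 := by
      have : ∀ᶠ ε in 𝓝 (0:ℝ), ε < min (R / 4) 1 := eventually_lt_nhds (lt_min (by linarith) one_pos)
      exact this.filter_mono nhdsWithin_le_nhds
    filter_upwards [hlog.eventually_gt_atTop 2, hsmall, self_mem_nhdsWithin] with ε hε1 hε2 hε0
    have hε : 0 < ε := hε0
    have hεR : 4 * ε ≤ R := by
      have := (lt_min_iff.mp hε2).1; linarith
    have hε1' : ε < 1 := (lt_min_iff.mp hε2).2
    obtain ⟨τ, hτ, hτu⟩ := fatou_step (τ₀ := t₁) (fun t ht => hu2 t (hsub ht))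
      (fun t ht z hz ξ => by
        by_cases h0 : ξ = 0
        · rw [h0]; simp
        · exact (hlev t (hsub ht) z hz ξ h0).le)
      (fun t ht z hz => hMc t ht z (subset_closure hz)) hRb
      (fun w hw _ => hu.initial w (subset_closure (hRb hw))) hRu hγ hε hεR ht₁0 le_rfl hε1 hn
    have hτ' : τ ∈ Ioc 0 t₁ := ⟨hτ.1, hτ.2.le⟩
    have hτu' : ∀ z ∈ closedBall a ε, u z τ ≤ κ * Real.log ε + C' := by
      intro z hz
      refine (hτu z hz).trans (le_of_eq ?_)
      rw [Real.log_mul (by norm_num) hε.ne', hC', hκ]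
      ring
    -- the annulus
    set W : Set (Cn n) := ball a R \ closedBall a ε with hW
    have hWo : IsOpen W := isOpen_ball.sdiff isClosed_closedBall
    have hWb : Bornology.IsBounded W := isBounded_ball.subset sdiff_subset
    have hWcl : ∀ z ∈ closure W, ε ≤ ‖z - a‖ ∧ ‖z - a‖ ≤ R := by
      have hcl : IsClosed {z : Cn n | ε ≤ ‖z - a‖ ∧ ‖z - a‖ ≤ R} := by
        have hcn : Continuous fun z : Cn n => ‖z - a‖ := (continuous_id.sub continuous_const).norm
        exact (isClosed_le continuous_const hcn).inter (isClosed_le hcn continuous_const)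
      have hsubW : W ⊆ {z : Cn n | ε ≤ ‖z - a‖ ∧ ‖z - a‖ ≤ R} := by
        intro z hz
        have h1 : dist z a < R := hz.1
        have h2 : ¬ dist z a ≤ ε := hz.2
        rw [dist_eq_norm] at h1 h2
        exact ⟨(not_le.mp h2).le, h1.le⟩
      intro z hz
      exact closure_minimal hsubW hcl hz
    have hWΩ : closure W ⊆ Ω := by
      intro z hz
      apply hRΩ
      rw [mem_closedBall, dist_eq_norm]
      exact (hWcl z hz).2
    have hann : ∀ z ∈ closure W, u z τ ≤ g₂ * Lg a 0 z + K := by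
      apply le_of_le_frontier hWo hWb
      · exact (hcont' τ (hsub hτ')).mono (hWΩ.trans subset_closure)
      · intro z hz
        have hz0 : ‖z - a‖ ^ 2 + 0 ≠ 0 := by
          have := (hWcl z hz).1
          have : 0 < ‖z - a‖ := by linarith
          positivity
        have := (contDiffAt_Lg a 0 z hz0 2).continuousAt
        exact ((this.const_mul g₂).add continuousAt_const).continuousWithinAt
      · intro z hz
        exact hu2 τ (hsub hτ') z (hWΩ (subset_closure hz))
      · intro z hz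
        have hz0 : ‖z - a‖ ^ 2 + 0 ≠ 0 := by
          have := (hWcl z (subset_closure hz)).1
          have : 0 < ‖z - a‖ := by linarith
          positivity
        exact (contDiffAt_const.mul (contDiffAt_Lg a 0 z hz0 2)).add contDiffAt_const
      · intro z hz
        have hza : 0 < ‖z - a‖ := by
          have := (hWcl z (subset_closure hz)).1; linarith
        have hz0 : ‖z - a‖ ^ 2 + 0 ≠ 0 := by positivity
        refine ⟨z - a, ?_⟩
        have h1 := hlev τ (hsub hτ') z (hWΩ (subset_closure hz)) (z - a) (norm_pos_iff.mp hza)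
        rw [hess_affine, fderiv_fderiv_Lg a 0 z hz0]
        simp only [_root_.smul_apply, smul_eq_mul]
        rw [← mul_add, D2Lg_levi a 0 z hz0]
        simpa using h1
      · intro z hz
        have hzc := hWcl z (frontier_subset_closure hz)
        have hzn : z ∉ W := by
          rw [frontier, hWo.interior_eq] at hz
          exact hz.2
        have hLz : Lg a 0 z = 2 * Real.log ‖z - a‖ := by
          unfold Lg
          rw [add_zero, Real.log_pow]; norm_num
        rw [hLz]
        by_cases h1 : ‖z - a‖ ≤ ε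
        · have h2 : ‖z - a‖ = ε := le_antisymm h1 hzc.1
          have h3 := hτu' z (by rw [mem_closedBall, dist_eq_norm]; exact h1)
          rw [h2]
          calc u z τ ≤ κ * Real.log ε + C' := h3
            _ ≤ κ * Real.log ε + K := by linarith
            _ = g₂ * (2 * Real.log ε) + K := by rw [hg₂]; ring
        · have h2 : ‖z - a‖ = R := by
            by_contra h3
            apply hzn
            refine ⟨?_, ?_⟩
            · rw [mem_ball, dist_eq_norm]; exact lt_of_le_of_ne hzc.2 h3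
            · rw [mem_closedBall, dist_eq_norm]; exact h1
          rw [h2]
          calc u z τ ≤ M := hMc τ hτ' z (subset_closure (hWΩ (frontier_subset_closure hz)))
            _ ≤ κ * Real.log R + K := hK2
            _ = g₂ * (2 * Real.log R) + K := by rw [hg₂]; ring
    -- the bound at time `τ`
    have he2 : 0 < ε ^ 2 := by positivity
    have hinit : ∀ z ∈ closure Ω, u z τ ≤ g₂ * Lg a (ε ^ 2) z + K := by
      intro z hz
      by_cases h1 : ‖z - a‖ ≤ ε
      · have h3 := hτu' z (by rw [mem_closedBall, dist_eq_norm]; exact h1)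
        have h4 : Real.log (ε ^ 2) ≤ Lg a (ε ^ 2) z := by
          unfold Lg
          apply Real.log_le_log he2
          have : 0 ≤ ‖z - a‖ ^ 2 := by positivity
          linarith
        calc u z τ ≤ κ * Real.log ε + C' := h3
          _ ≤ κ * Real.log ε + K := by linarith
          _ = g₂ * Real.log (ε ^ 2) + K := by rw [Real.log_pow, hg₂]; push_cast; ring
          _ ≤ g₂ * Lg a (ε ^ 2) z + K := by gcongr
      · push Not at h1
        have hpos : 0 < ‖z - a‖ := hε.trans h1
        have h4 : 2 * Real.log ‖z - a‖ ≤ Lg a (ε ^ 2) z := by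
          unfold Lg
          have : 2 * Real.log ‖z - a‖ = Real.log (‖z - a‖ ^ 2) := by rw [Real.log_pow]; norm_num
          rw [this]
          apply Real.log_le_log (by positivity)
          linarith
        by_cases h2 : ‖z - a‖ < R
        · have hzW : z ∈ W := by
            refine ⟨?_, ?_⟩
            · rw [mem_ball, dist_eq_norm]; exact h2
            · rw [mem_closedBall, dist_eq_norm]; exact not_le.mpr h1
          have h5 := hann z (subset_closure hzW)
          have hLz : Lg a 0 z = 2 * Real.log ‖z - a‖ := by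
            unfold Lg
            rw [add_zero, Real.log_pow]; norm_num
          rw [hLz] at h5
          refine h5.trans ?_
          gcongr
        · push Not at h2
          have h5 : Real.log R ≤ Real.log ‖z - a‖ := Real.log_le_log hR0 h2
          calc u z τ ≤ M := hMc τ hτ' z hz
            _ ≤ κ * Real.log R + K := hK2
            _ = g₂ * (2 * Real.log R) + K := by rw [hg₂]; ring
            _ ≤ g₂ * (2 * Real.log ‖z - a‖) + K := by gcongr
            _ ≤ g₂ * Lg a (ε ^ 2) z + K := by gcongr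
    -- the comparison
    set v : Cn n → ℝ → ℝ := fun z t => (g₂ - n * (t - τ)) * Lg a (ε ^ 2) z + (K + C₃ * (t - τ)) with hv
    have hcoef : ∀ t ∈ Icc τ t₁, g₂ / 2 ≤ g₂ - n * (t - τ) ∧ g₂ - n * (t - τ) ≤ g₂ := by
      intro t ht
      have h1 : n * (t - τ) ≤ n * t₁ := by
        gcongr; linarith [ht.2, hτ.1]
      have h2 : 0 ≤ n * (t - τ) := mul_nonneg hn'.le (by linarith [ht.1])
      exact ⟨by linarith, by linarith⟩
    have hLgc : Continuous (Lg a (ε ^ 2)) := by
      rw [continuous_iff_continuousAt]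
      intro z
      exact (contDiffAt_Lg a (ε ^ 2) z (by positivity) 2).continuousAt
    have hIccsub : Icc τ t₁ ⊆ Ioo 0 T := fun t ht => ⟨hτ.1.trans_le ht.1, ht.2.trans_lt ht₁T⟩
    have hIocsub : Ioc τ t₁ ⊆ Ioo 0 T := fun t ht => ⟨hτ.1.trans ht.1, ht.2.trans_lt ht₁T⟩
    have hcmp := comparison hΩo hΩb (τ := τ) (t₁ := t₁) (u := u) (v := v)
      (hcont.mono (prod_mono Subset.rfl hIccsub))
      (by
        apply Continuous.continuousOn
        have : Continuous fun p : Cn n × ℝ => (g₂ - n * (p.2 - τ)) * Lg a (ε ^ 2) p.1 + (K + C₃ * (p.2 - τ)) := by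
          apply Continuous.add
          · exact (by fun_prop : Continuous fun p : Cn n × ℝ => (g₂ - n * (p.2 - τ))).mul
              (hLgc.comp continuous_fst)
          · fun_prop
        exact this)
      (fun t ht => hu2 t (hIocsub ht))
      (fun t ht z hz => (contDiffAt_const.mul (contDiffAt_Lg a (ε ^ 2) z (by positivity) 2)).add
        contDiffAt_const)
      (fun t ht => hu.strict t (hIocsub ht))
      (fun t ht => hut t (hIocsub ht))
      (by
        intro t ht z hz
        refine ⟨-n * Lg a (ε ^ 2) z + C₃, ?_, ?_⟩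
        · have h1 : HasDerivAt (fun s : ℝ => (g₂ - n * (s - τ)) * Lg a (ε ^ 2) z) (-n * Lg a (ε ^ 2) z) t := by
            have h2 : HasDerivAt (fun s : ℝ => g₂ - n * (s - τ)) (-n) t := by
              have := (((hasDerivAt_id t).sub_const τ).const_mul (n:ℝ)).const_sub g₂
              simpa using this
            exact h2.mul_const _
          have h3 : HasDerivAt (fun s : ℝ => K + C₃ * (s - τ)) C₃ t := by
            have := (((hasDerivAt_id t).sub_const τ).const_mul C₃).const_add K
            simpa using this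
          exact h1.add h3
        · have hc := hcoef t ⟨ht.1.le, ht.2⟩
          have hc0 : 0 < g₂ - n * (t - τ) := by linarith [hc.1]
          have hb := barrier a he2 (d := K + C₃ * (t - τ)) hc0 z
          have e : (fun w => v w t) = fun w => (g₂ - n * (t - τ)) * Lg a (ε ^ 2) w + (K + C₃ * (t - τ)) := rfl
          rw [e, hb]
          have h4 : Real.log (ε ^ 2) ≤ Lg a (ε ^ 2) z := by
            unfold Lg
            apply Real.log_le_log he2
            have : 0 ≤ ‖z - a‖ ^ 2 := by positivity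
            linarith
          have h5 : Real.log (g₂ - n * (t - τ)) ≤ |Real.log g₂| :=
            (Real.log_le_log hc0 hc.2).trans (le_abs_self _)
          have h6 : n * Real.log (g₂ - n * (t - τ)) ≤ C₃ := by rw [hC₃]; gcongr
          linarith)
      (by
        intro z hz
        have := hinit z hz
        simp only [hv, sub_self, mul_zero, sub_zero, add_zero]
        exact this)
      (by
        intro z hz t ht
        have ht' : t ∈ Ioc 0 t₁ := ⟨hτ.1.trans_le ht.1, ht.2⟩
        have hc := hcoef t ht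
        have hzR : R ≤ ‖z - a‖ := by
          by_contra h
          push Not at h
          have h1 : z ∈ Ω := hRΩ (by rw [mem_closedBall, dist_eq_norm]; exact h.le)
          rw [frontier, hΩo.interior_eq] at hz
          exact hz.2 h1
        have h2 : 0 ≤ C₃ * (t - τ) := mul_nonneg hC₃0 (by linarith [ht.1])
        have h3 : 2 * Real.log R ≤ Lg a (ε ^ 2) z := by
          unfold Lg
          have : 2 * Real.log R = Real.log (R ^ 2) := by rw [Real.log_pow]; norm_num
          rw [this]
          apply Real.log_le_log (by positivity)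
          have : R ^ 2 ≤ ‖z - a‖ ^ 2 := by gcongr
          linarith
        have hMz := hMb t ht' z hz
        show u z t ≤ (g₂ - n * (t - τ)) * Lg a (ε ^ 2) z + (K + C₃ * (t - τ))
        by_cases h4 : 0 ≤ Lg a (ε ^ 2) z
        · have : 0 ≤ (g₂ - n * (t - τ)) * Lg a (ε ^ 2) z := mul_nonneg (by linarith [hc.1]) h4
          linarith
        · push Not at h4
          have h5 : g₂ * Lg a (ε ^ 2) z ≤ (g₂ - n * (t - τ)) * Lg a (ε ^ 2) z :=
            mul_le_mul_of_nonpos_right hc.2 h4.le
          have h6 : g₂ * (2 * Real.log R) ≤ g₂ * Lg a (ε ^ 2) z := by gcongr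
          have h7 : g₂ * (2 * Real.log R) = κ * Real.log R := by rw [hg₂]; ring
          linarith)
    have hfin := hcmp a (subset_closure ha) t₁ ⟨hτ.2.le, le_rfl⟩
    have hLa : Lg a (ε ^ 2) a = Real.log (ε ^ 2) := by simp [Lg]
    have hlogneg : Real.log (ε ^ 2) ≤ 0 := by
      apply Real.log_nonpos he2.le
      nlinarith
    have hc := hcoef t₁ ⟨hτ.2.le, le_rfl⟩
    calc u a t₁ ≤ (g₂ - n * (t₁ - τ)) * Lg a (ε ^ 2) a + (K + C₃ * (t₁ - τ)) := hfin
      _ ≤ g₂ / 2 * Real.log (ε ^ 2) + (K + C₃ * t₁) := by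
        rw [hLa]
        apply add_le_add
        · exact mul_le_mul_of_nonpos_right hc.1 hlogneg
        · have : C₃ * (t₁ - τ) ≤ C₃ * t₁ := by gcongr; linarith [hτ.1]
          linarith
      _ = g₂ / 2 * Real.log (ε ^ 2) + K + C₃ * t₁ := by ring
  -- contradiction
  have hdiv : Tendsto (fun ε : ℝ => g₂ / 2 * Real.log (ε ^ 2) + K + C₃ * t₁) (𝓝[>] 0) atBot := by
    have h1 : Tendsto (fun ε : ℝ => g₂ * Real.log ε) (𝓝[>] 0) atBot :=
      Real.tendsto_log_nhdsGT_zero.const_mul_atBot hg₂0
    have h2 := tendsto_atBot_add_const_right (𝓝[>] (0:ℝ)) (K + C₃ * t₁) h1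
    refine h2.congr ?_
    intro ε
    rw [Real.log_pow]
    push_cast
    ring
  obtain ⟨ε, h1, h2⟩ := (key.and (hdiv.eventually_lt_atBot (u a t₁))).exists
  linarith

end Pool.Agent.L5helper83.MA
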