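import Pool.Agent.L5helper83.MALog

set_option autoImplicit false

open Set Filter Topology Metric Matrix
open scoped ContDiff ComplexOrder ComplexConjugate

namespace Pool.Agent.L5helper83.MA

variable {n : ℕ}

/-- second derivative test -/
theorem second_deriv_nonpos {F : Type*} [NormedAddCommGroup F] [NormedSpace ℝ F] {f : F → ℝ} {x : F}
    (hf : ContDiffAt ℝ 2 f x) (hmax : IsLocalMax f x)
    (v : F) : fderiv ℝ (fderiv ℝ f) x v v ≤ 0 := by
  set φ : ℝ → ℝ := fun τ => f (x + τ • v) with hφ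
  have hline : Continuous (fun τ : ℝ => x + τ • v) := by fun_prop
  have hline0 : Tendsto (fun τ : ℝ => x + τ • v) (𝓝 0) (𝓝 x) := by
    have := hline.tendsto 0
    simpa using this
  have hlineD : ∀ τ : ℝ, HasDerivAt (fun τ : ℝ => x + τ • v) v τ := by
    intro τ
    have := ((hasDerivAt_id τ).smul_const v).const_add x
    simpa using this
  have e1 : ∀ᶠ t in 𝓝 (0 : ℝ), HasDerivAt φ (fderiv ℝ f (x + t • v) v) t := by
    filter_upwards [hline0.eventually (hf.eventually (by simp))] with t ht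
    exact (ht.differentiableAt (by norm_num)).hasFDerivAt.comp_hasDerivAt t (hlineD t)
  have e2 : HasDerivAt (fun t : ℝ => fderiv ℝ f (x + t • v) v) (fderiv ℝ (fderiv ℝ f) x v v) 0 := by
    have h1 : DifferentiableAt ℝ (fderiv ℝ f) x :=
      (hf.fderiv_right (m := 1) (by norm_num)).differentiableAt (by norm_num)
    have h2 : HasFDerivAt (fderiv ℝ f) (fderiv ℝ (fderiv ℝ f) x) (x + (0 : ℝ) • v) := by
      rw [zero_smul, add_zero]; exact h1.hasFDerivAt
    have h3 := h2.comp_hasDerivAt (0 : ℝ) (hlineD 0)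
    have h4 := h3.clm_apply (hasDerivAt_const (0 : ℝ) v)
    simpa using h4
  have e3 : deriv φ =ᶠ[𝓝 0] fun t => fderiv ℝ f (x + t • v) v := by
    filter_upwards [e1] with t ht using ht.deriv
  have e4 : deriv (deriv φ) 0 = fderiv ℝ (fderiv ℝ f) x v v := by
    rw [e3.deriv_eq]; exact e2.deriv
  have hmax' : IsLocalMax φ 0 := by
    have := hline0.eventually hmax
    filter_upwards [this] with t ht
    simpa [hφ] using ht
  by_contra hpos
  rw [not_le] at hpos
  have hmin : IsLocalMin φ 0 := by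
    apply isLocalMin_of_deriv_deriv_pos
    · rw [e4]; exact hpos
    · exact hmax'.deriv_eq_zero
    · exact e1.self_of_nhds.continuousAt
  have hconst : φ =ᶠ[𝓝 0] fun _ => φ 0 := by
    filter_upwards [hmax', hmin] with t h1 h2
    exact le_antisymm h1 h2
  have h5 : deriv φ =ᶠ[𝓝 0] fun _ => 0 := by
    have := hconst.deriv
    simpa using this
  have h6 : deriv (deriv φ) 0 = 0 := by rw [h5.deriv_eq]; simp
  rw [e4] at h6
  linarith

theorem hess_symm {f : Cn n → ℝ} {z : Cn n} (hf : ContDiffAt ℝ 2 f z) (v w : Cn n) :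
    fderiv ℝ (fderiv ℝ f) z v w = fderiv ℝ (fderiv ℝ f) z w v := by
  exact (hf.isSymmSndFDerivAt (by simp)).eq v w

theorem hess_sub {f g : Cn n → ℝ} {z : Cn n} (hf : ContDiffAt ℝ 2 f z) (hg : ContDiffAt ℝ 2 g z) :
    fderiv ℝ (fderiv ℝ (fun w => f w - g w)) z = fderiv ℝ (fderiv ℝ f) z - fderiv ℝ (fderiv ℝ g) z := by
  have h1 : fderiv ℝ (fun w => f w - g w) =ᶠ[𝓝 z] fun w => fderiv ℝ f w - fderiv ℝ g w := by
    filter_upwards [hf.eventually (by simp), hg.eventually (by simp)] with w hw1 hw2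
    exact fderiv_fun_sub (hw1.differentiableAt (by norm_num)) (hw2.differentiableAt (by norm_num))
  rw [h1.fderiv_eq]
  exact fderiv_fun_sub ((hf.fderiv_right (m := 1) (by norm_num)).differentiableAt (by norm_num))
    ((hg.fderiv_right (m := 1) (by norm_num)).differentiableAt (by norm_num))

theorem complexHessian_sub {f g : Cn n → ℝ} {z : Cn n} (hf : ContDiffAt ℝ 2 f z) (hg : ContDiffAt ℝ 2 g z) :
    complexHessian (fun w => f w - g w) z = complexHessian f z - complexHessian g z := by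
  rw [complexHessian_eq, complexHessian_eq, complexHessian_eq, hess_sub hf hg, hermMatrix_sub]

/-- elliptic maximum principle -/
theorem le_of_le_frontier {W : Set (Cn n)} (hWo : IsOpen W) (hWb : Bornology.IsBounded W)
    {g h : Cn n → ℝ} (hgc : ContinuousOn g (closure W)) (hhc : ContinuousOn h (closure W))
    (hg : ∀ z ∈ W, ContDiffAt ℝ 2 g z) (hh : ∀ z ∈ W, ContDiffAt ℝ 2 h z)
    (hpos : ∀ z ∈ W, ∃ ξ, fderiv ℝ (fderiv ℝ h) z ξ ξ + fderiv ℝ (fderiv ℝ h) z (Complex.I • ξ) (Complex.I • ξ) <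
      fderiv ℝ (fderiv ℝ g) z ξ ξ + fderiv ℝ (fderiv ℝ g) z (Complex.I • ξ) (Complex.I • ξ))
    (hbd : ∀ z ∈ frontier W, g z ≤ h z) : ∀ z ∈ closure W, g z ≤ h z := by
  intro z hz
  have hcomp : IsCompact (closure W) := hWb.isCompact_closure
  obtain ⟨z0, hz0, hmax⟩ := hcomp.exists_isMaxOn ⟨z, hz⟩ (hgc.sub hhc)
  have key : g z0 - h z0 ≤ 0 := by
    by_cases hzW : z0 ∈ W
    · exfalso
      obtain ⟨ξ, hξ⟩ := hpos z0 hzW
      have hloc : IsLocalMax (fun w => g w - h w) z0 := by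
        filter_upwards [hWo.mem_nhds hzW] with w hw
        exact hmax (subset_closure hw)
      have hc : ContDiffAt ℝ 2 (fun w => g w - h w) z0 := (hg z0 hzW).sub (hh z0 hzW)
      have h1 := second_deriv_nonpos hc hloc ξ
      have h2 := second_deriv_nonpos hc hloc (Complex.I • ξ)
      rw [hess_sub (hg z0 hzW) (hh z0 hzW)] at h1 h2
      simp only [_root_.sub_apply] at h1 h2
      linarith
    · have : z0 ∈ frontier W := by
        rw [frontier, hWo.interior_eq]
        exact ⟨hz0, hzW⟩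
      have := hbd z0 this
      linarith
  have := hmax hz
  simp only [mem_setOf_eq, Pi.sub_apply] at this
  linarith

/-- comparison principle for the flow -/
theorem comparison {Ω : Set (Cn n)} (hΩo : IsOpen Ω) (hΩb : Bornology.IsBounded Ω) {τ t₁ : ℝ}
    {u v : Cn n → ℝ → ℝ}
    (huc : ContinuousOn (fun p : Cn n × ℝ => u p.1 p.2) (closure Ω ×ˢ Icc τ t₁))
    (hvc : ContinuousOn (fun p : Cn n × ℝ => v p.1 p.2) (closure Ω ×ˢ Icc τ t₁))
    (hu2 : ∀ t ∈ Ioc τ t₁, ∀ z ∈ Ω, ContDiffAt ℝ 2 (fun w => u w t) z)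
    (hv2 : ∀ t ∈ Ioc τ t₁, ∀ z ∈ Ω, ContDiffAt ℝ 2 (fun w => v w t) z)
    (hpd : ∀ t ∈ Ioc τ t₁, ∀ z ∈ Ω, (complexHessian (fun w => u w t) z).PosDef)
    (hut : ∀ t ∈ Ioc τ t₁, ∀ z ∈ Ω, HasDerivAt (fun s => u z s)
      (Real.log (complexHessian (fun w => u w t) z).det.re) t)
    (hvt : ∀ t ∈ Ioc τ t₁, ∀ z ∈ Ω, ∃ v' : ℝ, HasDerivAt (fun s => v z s) v' t ∧
      Real.log (complexHessian (fun w => v w t) z).det.re ≤ v')
    (hinit : ∀ z ∈ closure Ω, u z τ ≤ v z τ)
    (hbd : ∀ z ∈ frontier Ω, ∀ t ∈ Icc τ t₁, u z t ≤ v z t) :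
    ∀ z ∈ closure Ω, ∀ t ∈ Icc τ t₁, u z t ≤ v z t := by
  -- with a small linear term
  have main : ∀ δ : ℝ, 0 < δ → ∀ z ∈ closure Ω, ∀ t ∈ Icc τ t₁, u z t - v z t - δ * (t - τ) ≤ 0 := by
    intro δ hδ z hz t ht
    have hcomp : IsCompact (closure Ω ×ˢ Icc τ t₁) := hΩb.isCompact_closure.prod isCompact_Icc
    have hcont : ContinuousOn (fun p : Cn n × ℝ => u p.1 p.2 - v p.1 p.2 - δ * (p.2 - τ))
        (closure Ω ×ˢ Icc τ t₁) := (huc.sub hvc).sub (by fun_prop)
    obtain ⟨⟨z0, t0⟩, ⟨hz0, ht0⟩, hmax⟩ := hcomp.exists_isMaxOn ⟨(z, t), hz, ht⟩ hcont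
    simp only at hz0 ht0
    have hle := hmax (show (z, t) ∈ closure Ω ×ˢ Icc τ t₁ from ⟨hz, ht⟩)
    simp only [mem_setOf_eq] at hle
    refine hle.trans ?_
    by_contra hcon
    push Not at hcon
    have hτ0 : τ < t0 := by
      rcases eq_or_lt_of_le ht0.1 with h | h
      · exfalso
        have := hinit z0 hz0
        rw [← h] at hcon
        linarith
      · exact h
    have hz0Ω : z0 ∈ Ω := by
      by_contra h
      have h1 : z0 ∈ frontier Ω := by
        rw [frontier, hΩo.interior_eq]; exact ⟨hz0, h⟩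
      have h2 := hbd z0 h1 t0 ht0
      have h3 : 0 ≤ δ * (t0 - τ) := mul_nonneg hδ.le (by linarith)
      linarith
    have htI : t0 ∈ Ioc τ t₁ := ⟨hτ0, ht0.2⟩
    -- space derivative
    have hloc : IsLocalMax (fun w => u w t0 - v w t0) z0 := by
      filter_upwards [hΩo.mem_nhds hz0Ω] with w hw
      have := hmax (show (w, t0) ∈ closure Ω ×ˢ Icc τ t₁ from ⟨subset_closure hw, ht0⟩)
      simp only [mem_setOf_eq] at this
      linarith
    have hcu := hu2 t0 htI z0 hz0Ω
    have hcv := hv2 t0 htI z0 hz0Ω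
    have hc : ContDiffAt ℝ 2 (fun w => u w t0 - v w t0) z0 := hcu.sub hcv
    have hc' : ContDiffAt ℝ 2 (fun w => v w t0 - u w t0) z0 := hcv.sub hcu
    have hpsd : (complexHessian (fun w => v w t0) z0 - complexHessian (fun w => u w t0) z0).PosSemidef := by
      rw [← complexHessian_sub hcv hcu, complexHessian_eq]
      apply posSemidef_of (hess_symm hc')
      intro ξ
      have h1 := second_deriv_nonpos hc hloc ξ
      have h2 := second_deriv_nonpos hc hloc (Complex.I • ξ)
      rw [hess_sub hcu hcv] at h1 h2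
      rw [hess_sub hcv hcu]
      simp only [_root_.sub_apply] at h1 h2 ⊢
      linarith
    have hpdu := hpd t0 htI z0 hz0Ω
    have hdet := det_re_le_of_sub_posSemidef hpdu hpsd
    have hdpos := (posDef_det_im hpdu).2
    have hlog := Real.log_le_log hdpos hdet
    obtain ⟨v', hv', hv''⟩ := hvt t0 htI z0 hz0Ω
    -- time derivative
    have hder : HasDerivAt (fun s => u z0 s - v z0 s - δ * (s - τ))
        (Real.log (complexHessian (fun w => u w t0) z0).det.re - v' - δ) t0 := by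
      have h1 := (hut t0 htI z0 hz0Ω).sub hv'
      have h2 : HasDerivAt (fun s : ℝ => δ * (s - τ)) δ t0 := by
        have := ((hasDerivAt_id t0).sub_const τ).const_mul δ
        simpa using this
      exact h1.sub h2
    have hneg : Real.log (complexHessian (fun w => u w t0) z0).det.re - v' - δ < 0 := by linarith
    -- for s < t0 close to t0 the function is larger
    have hev := (hasDerivAt_iff_tendsto_slope.mp hder).eventually (eventually_lt_nhds hneg)
    have hev2 : ∀ᶠ s in 𝓝[<] t0, slope (fun s => u z0 s - v z0 s - δ * (s - τ)) t0 s < 0 :=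
      hev.filter_mono (nhdsWithin_mono _ (fun s hs => ne_of_lt hs))
    have hev3 : ∀ᶠ s in 𝓝[<] t0, s ∈ Ioo τ t0 := Ioo_mem_nhdsLT hτ0
    obtain ⟨s, hs1, hs2⟩ := (hev2.and hev3).exists
    have h5 := hmax (show (z0, s) ∈ closure Ω ×ˢ Icc τ t₁ from ⟨hz0, hs2.1.le, hs2.2.le.trans ht0.2⟩)
    simp only [mem_setOf_eq] at h5
    rw [slope_def_field] at hs1
    have h6 : s - t0 < 0 := by linarith [hs2.2]
    have h7 : 0 ≤ ((u z0 s - v z0 s - δ * (s - τ)) - (u z0 t0 - v z0 t0 - δ * (t0 - τ))) / (s - t0) :=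
      div_nonneg_of_nonpos (by linarith) h6.le
    linarith
  intro z hz t ht
  by_contra hcon
  push Not at hcon
  have h1 : 0 < u z t - v z t := by linarith
  rcases eq_or_lt_of_le ht.1 with h | h
  · have := hinit z hz
    rw [h] at this
    linarith
  · have h2 := main ((u z t - v z t) / (2 * (t - τ))) (div_pos h1 (by linarith)) z hz t ht
    have h3 : (u z t - v z t) / (2 * (t - τ)) * (t - τ) = (u z t - v z t) / 2 := by
      field_simp [show t - τ ≠ 0 by linarith]
    rw [h3] at h2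
    linarith

end Pool.Agent.L5helper83.MA
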