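import Pool.Agent.L5helper83.MAMax
import Pool.Agent.H816_Nef.J1

set_option autoImplicit false

open Set Filter Topology Metric Matrix MeasureTheory
open scoped ContDiff ComplexOrder ComplexConjugate ENNReal

namespace Pool.Agent.L5helper83.MA

variable {n : ℕ}

/-- rotation by a complex number of modulus one -/
noncomputable def rot (n : ℕ) (c : ℂ) (hc : ‖c‖ = 1) : Cn n ≃ₗᵢ[ℝ] Cn n where
  toFun ξ := c • ξ
  invFun ξ := c⁻¹ • ξ
  map_add' x y := smul_add c x y
  map_smul' r x := by simp only [RingHom.id_apply]; exact smul_comm c r x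
  left_inv ξ := by
    have : c ≠ 0 := by intro h; rw [h] at hc; simp at hc
    simp [smul_smul, this]
  right_inv ξ := by
    have : c ≠ 0 := by intro h; rw [h] at hc; simp at hc
    simp [smul_smul, this]
  norm_map' ξ := by simp [norm_smul, hc]

theorem rot_apply (c : ℂ) (hc : ‖c‖ = 1) (ξ : Cn n) : rot n c hc ξ = c • ξ := rfl

/-- the restriction of `g` to a complex line -/
theorem laplacian_line {g : Cn n → ℝ} {z ξ : Cn n} {l : ℂ} (hg : ContDiffAt ℝ 2 g (z + l • ξ)) :
    Laplacian.laplacian (fun l : ℂ => g (z + l • ξ)) l =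
      fderiv ℝ (fderiv ℝ g) (z + l • ξ) ξ ξ +
        fderiv ℝ (fderiv ℝ g) (z + l • ξ) (Complex.I • ξ) (Complex.I • ξ) := by
  set A : ℂ →L[ℝ] Cn n := ((ContinuousLinearMap.id ℂ ℂ).smulRight ξ).restrictScalars ℝ with hA
  have hAa : ∀ l : ℂ, A l = l • ξ := fun l => by simp [hA]
  have hline : ∀ l : ℂ, HasFDerivAt (fun l : ℂ => z + l • ξ) A l := by
    intro l
    have := A.hasFDerivAt (x := l)
    have h2 := this.const_add z
    simpa [hAa] using h2
  have hcont : Tendsto (fun l : ℂ => z + l • ξ) (𝓝 l) (𝓝 (z + l • ξ)) := (hline l).continuousAt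
  have e1 : fderiv ℝ (fun l : ℂ => g (z + l • ξ)) =ᶠ[𝓝 l] fun l => (fderiv ℝ g (z + l • ξ)).comp A := by
    filter_upwards [hcont.eventually (hg.eventually (by simp))] with m hm
    exact ((hm.differentiableAt (by norm_num)).hasFDerivAt.comp m (hline m)).fderiv
  have e2 : HasFDerivAt (fun l : ℂ => fderiv ℝ g (z + l • ξ))
      ((fderiv ℝ (fderiv ℝ g) (z + l • ξ)).comp A) l := by
    have h1 : DifferentiableAt ℝ (fderiv ℝ g) (z + l • ξ) :=
      (hg.fderiv_right (m := 1) (by norm_num)).differentiableAt (by norm_num)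
    exact h1.hasFDerivAt.comp l (hline l)
  have e3 : ∀ v w : ℂ, fderiv ℝ (fderiv ℝ (fun l : ℂ => g (z + l • ξ))) l v w =
      fderiv ℝ (fderiv ℝ g) (z + l • ξ) (v • ξ) (w • ξ) := by
    intro v w
    rw [e1.fderiv_eq]
    have h3 : HasFDerivAt (fun l => (fderiv ℝ g (z + l • ξ)).comp A) _ l :=
      e2.clm_comp (hasFDerivAt_const A l)
    rw [h3.fderiv]
    simp [hAa]
  rw [InnerProductSpace.laplacian_eq_iteratedFDeriv_complexPlane]
  simp only [iteratedFDeriv_two_apply]
  rw [e3, e3]
  simp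

/-- the submean value property on complex discs -/
theorem disc_submean {Ω : Set (Cn n)} {g : Cn n → ℝ} (hg : ∀ z ∈ Ω, ContDiffAt ℝ 2 g z)
    (hl : ∀ z ∈ Ω, ∀ ξ, 0 ≤ fderiv ℝ (fderiv ℝ g) z ξ ξ +
      fderiv ℝ (fderiv ℝ g) z (Complex.I • ξ) (Complex.I • ξ))
    {z ξ : Cn n} {r : ℝ} (hball : ball z r ⊆ Ω) (hξ : ‖ξ‖ < r) :
    g z ≤ Real.circleAverage (fun l : ℂ => g (z + l • ξ)) 0 1 := by
  obtain ⟨R', hR1, hR2⟩ : ∃ R' : ℝ, 1 < R' ∧ R' * ‖ξ‖ ≤ r := by
    by_cases h0 : ‖ξ‖ = 0
    · exact ⟨2, by norm_num, by rw [h0]; have := norm_nonneg ξ; linarith⟩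
    · have hpos : 0 < ‖ξ‖ := lt_of_le_of_ne (norm_nonneg ξ) (Ne.symm h0)
      exact ⟨r / ‖ξ‖, by rw [lt_div_iff₀ hpos]; linarith, by rw [div_mul_cancel₀ _ h0]⟩
  have hin : ∀ l ∈ ball (0:ℂ) R', z + l • ξ ∈ Ω := by
    intro l hl'
    apply hball
    rw [mem_ball_zero_iff] at hl'
    rw [mem_ball_iff_norm, add_sub_cancel_left, norm_smul]
    by_cases h0 : ‖ξ‖ = 0
    · rw [h0, mul_zero]; rw [h0] at hξ; exact hξ
    · have hpos : 0 < ‖ξ‖ := lt_of_le_of_ne (norm_nonneg ξ) (Ne.symm h0)
      calc ‖l‖ * ‖ξ‖ < R' * ‖ξ‖ := by gcongr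
        _ ≤ r := hR2
  have hc : ContDiffOn ℝ 2 (fun l : ℂ => g (z + l • ξ)) (ball 0 R') := by
    intro l hl'
    apply ContDiffAt.contDiffWithinAt
    have h1 := hg _ (hin l hl')
    have h2 : ContDiffAt ℝ 2 (fun l : ℂ => z + l • ξ) l := by fun_prop
    exact h1.comp l h2
  have h := Pool.Agent.H816_Nef.submean_C2 (z := 0) (R' := R') (r := 1) hc (by norm_num) hR1 (by
    intro l hl'
    rw [laplacian_line (hg _ (hin l hl'))]
    exact hl _ (hin l hl') ξ)
  simpa using h

/-- the submean value property on balls, in terms of `M - g ≥ 0` -/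
theorem ball_submean {Ω : Set (Cn n)} {g : Cn n → ℝ} (hg : ∀ z ∈ Ω, ContDiffAt ℝ 2 g z)
    (hl : ∀ z ∈ Ω, ∀ ξ, 0 ≤ fderiv ℝ (fderiv ℝ g) z ξ ξ +
      fderiv ℝ (fderiv ℝ g) z (Complex.I • ξ) (Complex.I • ξ))
    {M : ℝ} (hM : ∀ w ∈ Ω, g w ≤ M) {z : Cn n} {r : ℝ} (hball : ball z r ⊆ Ω) :
    ∫⁻ w in ball z r, ENNReal.ofReal (M - g w) ≤ ENNReal.ofReal (M - g z) * volume (ball z r) := by
  classical
  have hgc : ContinuousOn g (ball z r) := fun w hw => (hg w (hball hw)).continuousAt.continuousWithinAt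
  set G : Cn n → ℝ≥0∞ := (ball z r).piecewise (fun w => ENNReal.ofReal (M - g w)) 0 with hG
  have hGm : Measurable G := by
    apply ContinuousOn.measurable_piecewise _ continuousOn_const measurableSet_ball
    exact ENNReal.continuous_ofReal.comp_continuousOn (continuousOn_const.sub hgc)
  have hG1 : ∀ w ∈ ball z r, G w = ENNReal.ofReal (M - g w) := fun w hw => piecewise_eq_of_mem _ _ _ hw
  have hG0 : ∀ w, w ∉ ball z r → G w = 0 := fun w hw => by
    rw [hG, piecewise_eq_of_notMem _ _ _ hw]; rfl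
  -- the left side is an integral over the whole space
  have e1 : ∫⁻ w in ball z r, ENNReal.ofReal (M - g w) = ∫⁻ ξ : Cn n, G (z + ξ) := by
    rw [lintegral_add_left_eq_self (fun w => G w) z]
    rw [← lintegral_indicator measurableSet_ball]
    apply lintegral_congr
    intro w
    by_cases hw : w ∈ ball z r
    · rw [indicator_of_mem hw, hG1 w hw]
    · rw [indicator_of_notMem hw, hG0 w hw]
  have e2 : ∀ θ : ℝ, ∫⁻ ξ : Cn n, G (z + circleMap 0 1 θ • ξ) = ∫⁻ ξ : Cn n, G (z + ξ) := by
    intro θ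
    have hn : ‖circleMap 0 1 θ‖ = 1 := by simp
    have h := (rot n (circleMap 0 1 θ) hn).measurePreserving.lintegral_comp
      (f := fun ξ => G (z + ξ)) (hGm.comp (measurable_const_add z))
    exact h
  have e3 : ENNReal.ofReal (2 * Real.pi) * ∫⁻ ξ : Cn n, G (z + ξ) =
      ∫⁻ ξ : Cn n, ∫⁻ θ in Ioc 0 (2 * Real.pi), G (z + circleMap 0 1 θ • ξ) := by
    rw [lintegral_lintegral_swap]
    · rw [lintegral_congr (fun θ => e2 θ), setLIntegral_const, Real.volume_Ioc, sub_zero, mul_comm]
    · apply Measurable.aemeasurable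
      apply hGm.comp
      have : Continuous (Function.uncurry fun (ξ : Cn n) (θ : ℝ) => z + circleMap 0 1 θ • ξ) := by
        apply Continuous.add continuous_const
        exact ((continuous_circleMap 0 1).comp continuous_snd).smul continuous_fst
      exact this.measurable
  have e4 : ∀ ξ : Cn n, ∫⁻ θ in Ioc 0 (2 * Real.pi), G (z + circleMap 0 1 θ • ξ) ≤
      (ball (0 : Cn n) r).indicator
        (fun _ => ENNReal.ofReal (2 * Real.pi) * ENNReal.ofReal (M - g z)) ξ := by
    intro ξ
    have hnorm : ∀ θ, ‖circleMap 0 1 θ • ξ‖ = ‖ξ‖ := by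
      intro θ; rw [norm_smul]; simp
    by_cases hξ : ‖ξ‖ < r
    · rw [indicator_of_mem (by simpa using hξ)]
      have hmem : ∀ θ, z + circleMap 0 1 θ • ξ ∈ ball z r := by
        intro θ
        rw [mem_ball_iff_norm, add_sub_cancel_left, hnorm]; exact hξ
      have hcont0 : Continuous (fun θ : ℝ => g (z + circleMap 0 1 θ • ξ)) := by
        apply hgc.comp_continuous _ hmem
        exact continuous_const.add ((continuous_circleMap 0 1).smul continuous_const)
      have hcont : Continuous (fun θ : ℝ => M - g (z + circleMap 0 1 θ • ξ)) :=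
        continuous_const.sub hcont0
      have h1 : ∫⁻ θ in Ioc 0 (2 * Real.pi), G (z + circleMap 0 1 θ • ξ) =
          ENNReal.ofReal (∫ θ in Ioc 0 (2 * Real.pi), (M - g (z + circleMap 0 1 θ • ξ))) := by
        rw [ofReal_integral_eq_lintegral_ofReal]
        · apply lintegral_congr
          intro θ
          exact hG1 _ (hmem θ)
        · exact (hcont.integrableOn_Icc (a := 0) (b := 2 * Real.pi)).mono_set Ioc_subset_Icc_self
        · filter_upwards with θ
          have := hM _ (hball (hmem θ))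
          simp only [Pi.zero_apply]
          linarith
      rw [h1, ← ENNReal.ofReal_mul (by positivity)]
      apply ENNReal.ofReal_le_ofReal
      have h2 := disc_submean hg hl hball hξ
      rw [Real.circleAverage_def, smul_eq_mul] at h2
      have h3 : ∫ θ in Ioc 0 (2 * Real.pi), (M - g (z + circleMap 0 1 θ • ξ)) =
          2 * Real.pi * M - ∫ θ in (0:ℝ)..2 * Real.pi, g (z + circleMap 0 1 θ • ξ) := by
        rw [← intervalIntegral.integral_of_le (by positivity), intervalIntegral.integral_sub]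
        · simp
        · exact intervalIntegrable_const
        · exact hcont0.intervalIntegrable _ _
      rw [h3]
      have hpi : 0 < 2 * Real.pi := by positivity
      have h4 : 2 * Real.pi * g z ≤ ∫ θ in (0:ℝ)..2 * Real.pi, g (z + circleMap 0 1 θ • ξ) := by
        calc 2 * Real.pi * g z ≤ 2 * Real.pi * ((2 * Real.pi)⁻¹ *
            ∫ θ in (0:ℝ)..2 * Real.pi, g (z + circleMap 0 1 θ • ξ)) := by gcongr
          _ = _ := by field_simp
      linarith
    · rw [indicator_of_notMem (by simpa using hξ)]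
      apply le_of_eq
      rw [lintegral_eq_zero_iff']
      · filter_upwards with θ
        apply hG0
        rw [mem_ball_iff_norm, add_sub_cancel_left, hnorm]; exact hξ
      · apply Measurable.aemeasurable
        apply hGm.comp
        have : Continuous (fun θ : ℝ => z + circleMap 0 1 θ • ξ) :=
          continuous_const.add ((continuous_circleMap 0 1).smul continuous_const)
        exact this.measurable
  have e5 : ENNReal.ofReal (2 * Real.pi) * ∫⁻ ξ : Cn n, G (z + ξ) ≤
      ENNReal.ofReal (2 * Real.pi) * (ENNReal.ofReal (M - g z) * volume (ball z r)) := by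
    rw [e3]
    refine (lintegral_mono e4).trans ?_
    rw [lintegral_indicator measurableSet_ball, setLIntegral_const, mul_assoc]
    have : volume (ball (0 : Cn n) r) = volume (ball z r) := by
      rw [Measure.addHaar_ball_center volume z]
    rw [this]
  rw [e1]
  have hpi : ENNReal.ofReal (2 * Real.pi) ≠ 0 := by
    rw [Ne, ENNReal.ofReal_eq_zero, not_le]; positivity
  exact (ENNReal.mul_le_mul_iff_right hpi ENNReal.ofReal_ne_top).mp e5

end Pool.Agent.L5helper83.MA
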